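import Pool.Agent.H99.TP.Defs

/-!
# BAS: basic facts on drawings
-/

namespace TwoPl

open Equiv

namespace Drawing

variable {V : Type} {G : SimpleGraph V} (H : Drawing G)

theorem φ_apply (d : H.D) : H.φ d = H.σ (H.α d) := rfl

@[simp] theorem αα (d : H.D) : H.α (H.α d) = d := H.α_α d

theorem α_symm (d : H.D) : H.α.symm d = H.α d := by
  rw [Equiv.symm_apply_eq, H.α_α]

theorem φ_symm_apply (d : H.D) : H.φ.symm d = H.α (H.σ.symm d) := by
  rw [Equiv.symm_apply_eq, φ_apply, αα, Equiv.apply_symm_apply]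

theorem φ_α (d : H.D) : H.φ (H.α d) = H.σ d := by rw [φ_apply, αα]

theorem α_φ_symm (d : H.D) : H.α (H.φ.symm d) = H.σ.symm d := by
  rw [φ_symm_apply, αα]

theorem vtx_σs (d : H.D) : H.vtx (H.σ.symm d) = H.vtx d := by
  have := H.vtx_σ (H.σ.symm d)
  rw [Equiv.apply_symm_apply] at this
  exact this.symm

theorem vtx_φ (d : H.D) : H.vtx (H.φ d) = H.vtx (H.α d) := by
  rw [φ_apply, H.vtx_σ]

theorem vtx_φ_α (d : H.D) : H.vtx (H.φ (H.α d)) = H.vtx d := by
  rw [vtx_φ, αα]

theorem vtx_α_φ_symm (d : H.D) : H.vtx (H.α (H.φ.symm d)) = H.vtx d := by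
  rw [α_φ_symm, vtx_σs]

theorem tgt_α (d : H.D) : H.tgt (H.α d) = H.src d := by
  have := H.src_α (H.α d)
  rw [αα] at this
  exact this.symm

theorem src_ne_tgt (d : H.D) : H.src d ≠ H.tgt d := (H.adj d).ne

theorem α_ne (d : H.D) : H.α d ≠ d := by
  intro h
  have := H.src_α d
  rw [h] at this
  exact H.src_ne_tgt d this

/-- at a crossing `σ⁻¹ = σ³` -/
theorem σs_eq (d : H.D) (hd : H.C d) : H.σ.symm d = H.σ (H.σ (H.σ d)) := by
  rw [Equiv.symm_apply_eq, H.four d hd]

theorem σσ_ne (d : H.D) (hd : H.C d) : H.σ (H.σ d) ≠ d := by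
  intro h
  have := (H.straight d hd).1
  rw [h] at this
  exact H.src_ne_tgt d this

theorem σ_ne (d : H.D) (hd : H.C d) : H.σ d ≠ d := by
  intro h
  exact H.σσ_ne d hd (by rw [h, h])

/-- the position of a dart which starts at a crossing is positive -/
theorem pos_pos (d : H.D) (hd : H.C d) : H.pos d = H.pos (H.α (H.σ (H.σ d))) + 1 := by
  have h1 := H.pos_step (H.α (H.σ (H.σ d))) (by rw [αα, H.vtx_σ, H.vtx_σ]; exact hd)
  rw [αα, H.four d hd] at h1
  exact h1

/-- the edge of a segment between two crossings has no further crossings -/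
theorem cc_real (h2 : H.TwoPlanar) (d : H.D) (hd : H.C d) (hd' : H.C (H.α d)) :
    H.R (H.α (H.σ (H.σ d))) ∧ H.R (H.α (H.σ (H.σ (H.α d)))) := by
  have h1 := H.pos_pos d hd
  have h3 := H.pos_step d hd'
  have h4 := h2 (H.σ (H.σ (H.α d)))
  have h5 := h2 d
  constructor
  · intro hc
    have h6 := H.pos_pos _ hc
    omega
  · intro hc
    have h6 := H.pos_step _ hc
    have h7 := h2 (H.σ (H.σ (H.α (H.σ (H.σ (H.α d))))))
    omega

/-- if the next segment of the face walk is between two crossings, then the walk on the other side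
of `g` comes from a vertex -/
theorem fl (h2 : H.TwoPlanar) (g : H.D) (h1 : H.C (H.φ g)) (h3 : H.C (H.φ (H.φ g))) :
    H.R (H.φ.symm (H.α g)) := by
  intro hc
  have hg : H.C (H.α g) := by
    have := H.vtx_φ g
    unfold C
    rw [← this]
    exact h1
  have e1 : H.α (H.φ.symm (H.α g)) = H.σ.symm (H.α g) := H.α_φ_symm _
  have c1 : H.C (H.σ.symm (H.α g)) := by
    unfold C
    rw [H.vtx_σs]
    exact hg
  have c2 : H.C (H.α (H.σ.symm (H.α g))) := by
    rw [← e1, αα]
    exact hc
  have h4 := (H.cc_real h2 _ c1 c2).1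
  rw [Equiv.apply_symm_apply] at h4
  refine h4 ?_
  have := H.vtx_φ (H.φ g)
  rw [φ_apply H g] at this
  rw [φ_apply H g] at h3
  rw [← this]
  exact h3

/-- mirror image of `fl` -/
theorem fr (h2 : H.TwoPlanar) (g : H.D) (h1 : H.C (H.φ.symm g)) (h3 : H.C g) :
    H.R (H.φ (H.φ (H.α g))) := by
  intro hc
  rw [vtx_φ, φ_α] at hc
  have c1 : H.C (H.σ g) := by
    unfold C
    rw [H.vtx_σ]
    exact h3
  have h4 := (H.cc_real h2 (H.σ g) c1 hc).1
  rw [← H.σs_eq g h3, ← φ_symm_apply] at h4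
  exact h4 h1

/-- the edge through the starting point of `g` which crosses `g` -/
theorem lab (g : H.D) (hg : H.C g) : H.src (H.φ (H.α g)) = H.src (H.φ.symm g) ∧
    H.tgt (H.φ (H.α g)) = H.tgt (H.φ.symm g) := by
  have c1 : H.C (H.σ.symm g) := by
    unfold C
    rw [H.vtx_σs]
    exact hg
  have h1 := H.straight _ c1
  rw [Equiv.apply_symm_apply] at h1
  rw [φ_α, φ_symm_apply, H.src_α, H.tgt_α]
  exact h1

/-- the two edges at a crossing are different -/
theorem tr (g : H.D) (hg : H.C g) : s(H.src (H.φ.symm g), H.tgt (H.φ.symm g)) ≠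
    s(H.src g, H.tgt g) := by
  have h1 := H.transv g hg
  rw [← φ_α, (H.lab g hg).1, (H.lab g hg).2] at h1
  exact h1

/-- the edge which starts with `d` continues with `σ² (α d)` -/
theorem cont (d : H.D) (hd : H.C (H.α d)) : H.src (H.σ (H.σ (H.α d))) = H.src d ∧
    H.tgt (H.σ (H.σ (H.α d))) = H.tgt d := by
  have h1 := H.straight _ hd
  rw [tgt_α, src_α] at h1
  exact h1

/-- no face of length one -/
theorem φ_ne (d : H.D) : H.φ d ≠ d := by
  intro h
  by_cases hc : H.C (H.α d)
  · have h1 := H.transv _ hc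
    rw [← φ_apply, h, src_α, tgt_α] at h1
    exact h1 Sym2.eq_swap
  · obtain ⟨v, hv⟩ := Option.ne_none_iff_exists'.1 hc
    have h1 : H.vtx d = some v := by
      rw [← h, vtx_φ]
      exact hv
    have h3 := H.src_vtx _ _ hv
    have h4 := H.src_vtx _ _ h1
    rw [src_α] at h3
    exact H.src_ne_tgt d (h4.trans h3.symm)

/-- two darts which start at the same vertex and belong to edges with the same other endpoint are
equal -/
theorem eq_of (d d' : H.D) (h : H.R d) (h' : H.vtx d = H.vtx d') (ht : H.tgt d = H.tgt d') :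
    d = d' := by
  obtain ⟨v, hv⟩ := Option.ne_none_iff_exists'.1 h
  have hv' : H.vtx d' = some v := h' ▸ hv
  exact H.uniq d d' h (h' ▸ h) ((H.src_vtx _ _ hv).trans (H.src_vtx _ _ hv').symm) ht

end Drawing

end TwoPl
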