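import Pool.Agent.H99.TP.Defs

/-!
# CYC: sums over the cycles of a permutation
-/

namespace TwoPl

open Equiv Function

/-- the sum along the cycle of `d` is the sum over the class of `d` -/
theorem cyc_fib {D : Type} [Fintype D] {f : Perm D} [DecidableEq (Quotient (Perm.SameCycle.setoid f))]
    (g : D → ℤ) (d : D) :
    ∑ i ∈ Finset.range (minimalPeriod f d), g (f^[i] d) =
      ∑ x with (Quotient.mk (Perm.SameCycle.setoid f) x) = Quotient.mk _ d, g x := by
  have hper : d ∈ periodicPts f := by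
    obtain ⟨n, hn, hn'⟩ := isOfFinOrder_iff_pow_eq_one.1 (isOfFinOrder_of_finite f)
    refine mk_mem_periodicPts hn ?_
    show f^[n] d = d
    rw [← Perm.coe_pow, hn']
    rfl
  have hpos := minimalPeriod_pos_of_mem_periodicPts hper
  refine Finset.sum_bij (fun i _ => f^[i] d) ?_ ?_ ?_ ?_
  · intro i _
    rw [Finset.mem_filter]
    refine ⟨Finset.mem_univ _, Quotient.sound ?_⟩
    show f.SameCycle (f^[i] d) d
    refine Perm.SameCycle.symm ⟨i, ?_⟩
    rw [zpow_natCast, Perm.coe_pow]
  · intro i hi j hj hij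
    exact iterate_injOn_Iio_minimalPeriod (Finset.mem_range.1 hi) (Finset.mem_range.1 hj) hij
  · intro x hx
    rw [Finset.mem_filter] at hx
    have h1 : f.SameCycle d x := (Quotient.exact hx.2.symm)
    obtain ⟨n, hn⟩ := h1.exists_nat_pow_eq
    refine ⟨n % minimalPeriod f d, Finset.mem_range.2 (Nat.mod_lt _ hpos), ?_⟩
    show f^[n % minimalPeriod f d] d = x
    rw [iterate_mod_minimalPeriod_eq, ← Perm.coe_pow]
    exact hn
  · intro i _
    rfl

/-- Sum over the elements = sum over the cycles: `∑ d, g d = ∑ q, ∑ i < period (q.out),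
g (f^[i] q.out)`. -/
theorem cyc_le {D : Type} [Fintype D] (f : Perm D) (g : D → ℤ) (a : ℤ)
    (h : ∀ d, a ≤ ∑ i ∈ Finset.range (minimalPeriod f d), g (f^[i] d)) :
    a * ncyc f ≤ ∑ d, g d := by
  classical
  haveI : Fintype (Quotient (Perm.SameCycle.setoid f)) := Fintype.ofFinite _
  have h1 := Finset.sum_fiberwise (Finset.univ : Finset D)
    (fun x => (Quotient.mk (Perm.SameCycle.setoid f) x)) g
  rw [← h1]
  have h2 : a * ncyc f = ∑ _q : Quotient (Perm.SameCycle.setoid f), a := by
    rw [Finset.sum_const, ncyc, Nat.card_eq_fintype_card, Finset.card_univ, nsmul_eq_mul, mul_comm]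
  rw [h2]
  refine Finset.sum_le_sum fun q _ => ?_
  obtain ⟨d, rfl⟩ := Quotient.exists_rep q
  rw [← cyc_fib g d]
  exact h d

/-- in the case of equality all cycles have sum `a` -/
theorem cyc_eq {D : Type} [Fintype D] (f : Perm D) (g : D → ℤ) (a : ℤ)
    (h : ∀ d, a ≤ ∑ i ∈ Finset.range (minimalPeriod f d), g (f^[i] d))
    (h' : ∑ d, g d ≤ a * ncyc f) (d : D) :
    ∑ i ∈ Finset.range (minimalPeriod f d), g (f^[i] d) = a := by
  classical
  haveI : Fintype (Quotient (Perm.SameCycle.setoid f)) := Fintype.ofFinite _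
  have h1 := Finset.sum_fiberwise (Finset.univ : Finset D)
    (fun x => (Quotient.mk (Perm.SameCycle.setoid f) x)) g
  rw [← h1] at h'
  have h2 : a * ncyc f = ∑ _q : Quotient (Perm.SameCycle.setoid f), a := by
    rw [Finset.sum_const, ncyc, Nat.card_eq_fintype_card, Finset.card_univ, nsmul_eq_mul, mul_comm]
  rw [h2] at h'
  have h3 : ∀ q ∈ (Finset.univ : Finset (Quotient (Perm.SameCycle.setoid f))),
      a ≤ ∑ x with (Quotient.mk (Perm.SameCycle.setoid f) x) = q, g x := by
    intro q _
    obtain ⟨e, rfl⟩ := Quotient.exists_rep q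
    rw [← cyc_fib g e]
    exact h e
  have h4 := (Finset.sum_eq_sum_iff_of_le h3).1 (le_antisymm (Finset.sum_le_sum h3) h')
  have h5 := h4 (Quotient.mk _ d) (Finset.mem_univ _)
  rw [cyc_fib g d]
  exact h5.symm

end TwoPl
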