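import Pool.Agent.H99.TP.FaceB
import Pool.Agent.H99.TP.Cyc

/-!
# CNT: counting darts, points and components
-/

namespace TwoPl

open Equiv Function

namespace Drawing

variable {V : Type} {G : SimpleGraph V} (H : Drawing G)

/-- the requests cancel (`α` is a bijection) -/
theorem sum_w : ∑ d, H.w d = 30 * (Fintype.card H.D : ℤ) + 18 * (Nat.card {d // H.R d} : ℤ) := by
  classical
  have h1 : ∑ d, H.r (H.α d) = ∑ d, H.r d := Equiv.sum_comp H.α H.r
  have h2 : ∑ d : H.D, (if H.R d then (18 : ℤ) else 0) = 18 * (Nat.card {d // H.R d} : ℤ) := by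
    rw [Finset.sum_ite, Finset.sum_const_zero, add_zero, Finset.sum_const, nsmul_eq_mul,
      Nat.card_eq_fintype_card, Fintype.card_subtype, mul_comm]
  have h3 : ∑ d : H.D, (30 : ℤ) = 30 * (Fintype.card H.D : ℤ) := by
    rw [Finset.sum_const, nsmul_eq_mul, mul_comm, Finset.card_univ]
  have h4 : ∑ d, H.w d = ∑ d : H.D, (30 : ℤ) + ∑ d : H.D, (if H.R d then (18 : ℤ) else 0)
      + ∑ d, H.r d - ∑ d, H.r (H.α d) := by
    rw [← Finset.sum_add_distrib, ← Finset.sum_add_distrib, ← Finset.sum_sub_distrib]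
    refine Finset.sum_congr rfl fun d _ => ?_
    rfl
  rw [h4, h1, h2, h3]
  ring

/-- Darts which start at a vertex correspond to the darts of `G` (`src`, `tgt`; `uniq`, `ex`);
`SimpleGraph.dart_card_eq_twice_card_edges`. -/
theorem card_R [Fintype V] : Nat.card {d // H.R d} = 2 * G.edgeSet.ncard := by
  classical
  have h1 : Nat.card {d // H.R d} = Nat.card G.Dart := by
    refine Nat.card_congr (Equiv.ofBijective
      (fun d : {d // H.R d} => (⟨(H.src d.1, H.tgt d.1), H.adj d.1⟩ : G.Dart)) ⟨?_, ?_⟩)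
    · intro d d' h
      have h2 : (H.src d.1, H.tgt d.1) = (H.src d'.1, H.tgt d'.1) :=
        congrArg SimpleGraph.Dart.toProd h
      rw [Prod.mk.injEq] at h2
      exact Subtype.ext (H.uniq d.1 d'.1 d.2 d'.2 h2.1 h2.2)
    · rintro ⟨⟨v, w⟩, h⟩
      obtain ⟨d, h1, h2⟩ := H.ex v w h
      refine ⟨⟨d, by unfold R; rw [h1]; simp⟩, ?_⟩
      apply SimpleGraph.Dart.ext
      simp only [Prod.mk.injEq]
      exact ⟨H.src_vtx _ _ h1, h2⟩
  rw [h1, Nat.card_eq_fintype_card, SimpleGraph.dart_card_eq_twice_card_edges,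
    Set.ncard_eq_toFinset_card']
  rfl

theorem card_CR : Fintype.card H.D = Nat.card {d // H.C d} + Nat.card {d // H.R d} := by
  classical
  rw [Nat.card_eq_fintype_card, Nat.card_eq_fintype_card, Fintype.card_subtype,
    Fintype.card_subtype, Finset.card_filter_add_card_filter_not, Finset.card_univ]

/-- `vtx` is constant on the cycles of `σ` -/
private theorem cnt_vtx_cycle {d d' : H.D} (h : H.σ.SameCycle d d') : H.vtx d = H.vtx d' := by
  have key : ∀ (n : ℕ) (d : H.D), H.vtx ((H.σ ^ n) d) = H.vtx d := by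
    intro n
    induction n with
    | zero => intro d; rfl
    | succ n ih => intro d; rw [pow_succ', Perm.mul_apply, H.vtx_σ, ih]
  obtain ⟨n, hn⟩ := Perm.SameCycle.exists_nat_pow_eq h
  rw [← hn, key]

/-- Points: cycles of `σ` consisting of darts which start at a vertex correspond to vertices
(`rot`); the other cycles have exactly four elements (`four`, `σ_ne`, `σσ_ne`). -/
theorem card_points [Fintype V] :
    4 * ncyc H.σ ≤ 4 * Nat.card {v // ∃ d, H.vtx d = some v} + Nat.card {d // H.C d} := by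
  classical
  let Q := Quotient (Equiv.Perm.SameCycle.setoid H.σ)
  have hQ : Finite Q := Quotient.finite _
  let _ : Fintype Q := Fintype.ofFinite Q
  have hout : ∀ q : Q, Quotient.mk (Equiv.Perm.SameCycle.setoid H.σ) q.out = q :=
    fun q => Quotient.out_eq q
  have h0 : ncyc H.σ = Nat.card {q : Q // H.vtx q.out = none} +
      Nat.card {q : Q // ¬ H.vtx q.out = none} := by
    rw [Nat.card_eq_fintype_card, Nat.card_eq_fintype_card, Fintype.card_subtype,
      Fintype.card_subtype, Finset.card_filter_add_card_filter_not, Finset.card_univ,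
      ← Nat.card_eq_fintype_card]
    rfl
  have h1 : Nat.card {q : Q // ¬ H.vtx q.out = none} ≤ Nat.card {v // ∃ d, H.vtx d = some v} := by
    have hs : ∀ d : H.D, ¬ H.vtx d = none → H.vtx d = some (H.src d) := by
      intro d hd
      obtain ⟨v, hv⟩ := Option.ne_none_iff_exists'.1 hd
      rw [hv, H.src_vtx _ _ hv]
    refine Nat.card_le_card_of_injective
      (fun q : {q : Q // ¬ H.vtx q.out = none} =>
        (⟨H.src q.1.out, q.1.out, hs _ q.2⟩ : {v // ∃ d, H.vtx d = some v})) ?_
    rintro ⟨q, hq⟩ ⟨q', hq'⟩ h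
    simp only [Subtype.mk.injEq] at h
    apply Subtype.ext
    change q = q'
    rw [← hout q, ← hout q']
    refine Quotient.sound ?_
    exact H.rot _ _ hq (by rw [hs _ hq, hs _ hq', h])
  have h2 : Nat.card ({q : Q // H.vtx q.out = none} × Fin 4) ≤ Nat.card {d // H.C d} := by
    have hC : ∀ (i : ℕ) (d : H.D), H.C d → H.C (H.σ^[i] d) := by
      intro i
      induction i with
      | zero => intro d hd; exact hd
      | succ i ih =>
        intro d hd
        rw [Function.iterate_succ_apply]
        exact ih _ (by unfold C; rw [H.vtx_σ]; exact hd)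
    have hsame : ∀ (i : ℕ) (d : H.D), H.σ.SameCycle d (H.σ^[i] d) := by
      intro i d
      refine ⟨(i : ℤ), ?_⟩
      rw [zpow_natCast, Perm.iterate_eq_pow]
    have hper : ∀ d : H.D, H.C d → minimalPeriod H.σ d = 4 := by
      intro d hd
      have e1 : minimalPeriod H.σ d ∣ 4 := by
        apply IsPeriodicPt.minimalPeriod_dvd
        exact H.four d hd
      have e2 : ¬ minimalPeriod H.σ d ∣ 2 := by
        intro h
        rw [← isPeriodicPt_iff_minimalPeriod_dvd] at h
        exact H.σσ_ne d hd h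
      have e3 : minimalPeriod H.σ d ≤ 4 := Nat.le_of_dvd (by norm_num) e1
      generalize minimalPeriod H.σ d = m at e1 e2 e3
      interval_cases m
      · omega
      · exact absurd (by norm_num) e2
      · exact absurd (by norm_num) e2
      · omega
      · rfl
    refine Nat.card_le_card_of_injective
      (fun p : {q : Q // H.vtx q.out = none} × Fin 4 =>
        (⟨H.σ^[p.2.1] p.1.1.out, hC _ _ p.1.2⟩ : {d // H.C d})) ?_
    rintro ⟨⟨q, hq⟩, i⟩ ⟨⟨q', hq'⟩, j⟩ h
    simp only [Subtype.mk.injEq] at h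
    have hqq : q = q' := by
      rw [← hout q, ← hout q']
      refine Quotient.sound ?_
      have a1 := hsame i.1 q.out
      rw [h] at a1
      exact a1.trans (hsame j.1 q'.out).symm
    subst hqq
    have hij : i.1 = j.1 := by
      refine iterate_injOn_Iio_minimalPeriod (f := H.σ) (x := q.out) ?_ ?_ h
      · rw [hper _ hq]; exact i.2
      · rw [hper _ hq]; exact j.2
    have : i = j := Fin.ext hij
    subst this
    rfl
  rw [Nat.card_prod, Nat.card_eq_fintype_card (α := Fin 4), Fintype.card_fin] at h2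
  omega

private theorem cnt_K2 {d : H.D} (h : H.K2 d) : H.σ d = d ∧ H.σ (H.α d) = H.α d := by
  obtain ⟨h1, h2, h3⟩ := h
  obtain ⟨v, hv⟩ := Option.ne_none_iff_exists'.1 h1
  have e1 : H.vtx (H.α (H.φ d)) = H.vtx d := by rw [← H.vtx_φ, h3]
  have e2 : H.φ d = H.α d := by
    refine H.eq_of _ _ h2 (H.vtx_φ d) ?_
    rw [H.tgt_α, ← H.src_α, H.src_vtx _ v hv, H.src_vtx _ v (e1.trans hv)]
  refine ⟨?_, e2⟩
  rw [e2, H.φ_α] at h3
  exact h3

/-- the component of a dart of type `K2` -/
private theorem cnt_K2_orbit {d d' : H.D} (h : H.K2 d)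
    (h' : MulAction.orbitRel (Subgroup.closure ({H.σ, H.α} : Set (Perm H.D))) H.D d' d) :
    d' = d ∨ d' = H.α d := by
  obtain ⟨s1, s2⟩ := H.cnt_K2 h
  obtain ⟨⟨g, hg⟩, hgd⟩ := h'
  have key : g d = d ∧ g (H.α d) = H.α d ∨ g d = H.α d ∧ g (H.α d) = d := by
    clear hgd
    induction hg using Subgroup.closure_induction with
    | mem x hx =>
      rcases hx with hx | hx
      · rw [hx]; exact Or.inl ⟨s1, s2⟩
      · rw [Set.mem_singleton_iff] at hx
        rw [hx]; exact Or.inr ⟨rfl, H.αα d⟩
    | one => exact Or.inl ⟨rfl, rfl⟩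
    | mul x y _ _ hx hy =>
      rw [Perm.mul_apply, Perm.mul_apply]
      rcases hx with hx | hx <;> rcases hy with hy | hy <;> rw [hy.1, hy.2] <;> tauto
    | inv x _ hx =>
      rw [Perm.inv_eq_iff_eq, Perm.inv_eq_iff_eq, Perm.inv_eq_iff_eq, Perm.inv_eq_iff_eq]
      rcases hx with hx | hx
      · exact Or.inl ⟨hx.1.symm, hx.2.symm⟩
      · exact Or.inr ⟨hx.2.symm, hx.1.symm⟩
  have h4 : g d = d' := hgd
  rw [← h4]
  rcases key with key | key
  · exact Or.inl key.1
  · exact Or.inr key.1

/-- For `K2 d`: `φ d = α d` by `eq_of`, so `σ (α d) = α d` and `σ d = d`, the component of `d` is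
`{d, α d}`. So every component contains at most two such darts. -/
theorem card_K2 : Nat.card {d // H.K2 d} ≤ 2 * ncomp H.σ H.α := by
  classical
  let Q := Quotient (MulAction.orbitRel (Subgroup.closure ({H.σ, H.α} : Set (Perm H.D))) H.D)
  let q : H.D → Q := fun d => Quotient.mk _ d
  have hout : ∀ d, H.K2 d → (q d).out = d ∨ (q d).out = H.α d := by
    intro d hd
    refine H.cnt_K2_orbit hd ?_
    exact Quotient.exact (Quotient.out_eq (q d))
  have : Finite Q := Quotient.finite _
  have h1 : Nat.card {d // H.K2 d} ≤ Nat.card (Q × Bool) := by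
    refine Nat.card_le_card_of_injective
      (fun d : {d // H.K2 d} => (q d.1, decide (d.1 = (q d.1).out))) ?_
    rintro ⟨d, hd⟩ ⟨d', hd'⟩ h
    simp only [Prod.mk.injEq, decide_eq_decide] at h
    obtain ⟨hq, hf⟩ := h
    apply Subtype.ext
    change d = d'
    by_cases hc : d = (q d).out
    · have hc' := hf.1 hc
      rw [hc, hc', hq]
    · have hc' : ¬ d' = (q d').out := fun hh => hc (hf.2 hh)
      have e1 : (q d).out = H.α d := (hout d hd).resolve_left fun hh => hc hh.symm
      have e2 : (q d').out = H.α d' := (hout d' hd').resolve_left fun hh => hc' hh.symm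
      apply H.α.injective
      rw [← e1, ← e2, hq]
  refine h1.trans (le_of_eq ?_)
  rw [Nat.card_prod, Nat.card_eq_fintype_card (α := Bool), Fintype.card_bool, mul_comm]
  rfl

/-- if there is a dart of type `K2` and only one component, there are only two vertices with
darts -/
theorem K2_small [Fintype V] (d : H.D) (h : H.K2 d) (hc : ncomp H.σ H.α = 1) :
    Nat.card {v // ∃ d, H.vtx d = some v} ≤ 2 := by
  classical
  have hall : ∀ d', d' = d ∨ d' = H.α d := by
    intro d'
    refine H.cnt_K2_orbit h ?_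
    have h1 : Subsingleton (Quotient (MulAction.orbitRel
        (Subgroup.closure ({H.σ, H.α} : Set (Perm H.D))) H.D)) :=
      (Nat.card_eq_one_iff_unique.1 hc).1
    exact Quotient.exact (h1.elim (Quotient.mk _ d') (Quotient.mk _ d))
  have h2 : {v | ∃ d, H.vtx d = some v} ⊆ {H.src d, H.src (H.α d)} := by
    rintro v ⟨d', hd'⟩
    have h3 := H.src_vtx _ _ hd'
    rcases hall d' with h4 | h4
    · left; rw [← h4, h3]
    · right; rw [Set.mem_singleton_iff, ← h4, h3]
  have h3 : Nat.card {v // ∃ d, H.vtx d = some v} = {v | ∃ d, H.vtx d = some v}.ncard := rfl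
  rw [h3]
  refine (Set.ncard_le_ncard h2 (Set.toFinite _)).trans ?_
  refine (Set.ncard_insert_le _ _).trans ?_
  rw [Set.ncard_singleton]

end Drawing

end TwoPl
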