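import Pool.Agent.H99.TP.Cnt

/-!
# EUL: the global inequality
-/

namespace TwoPl

open Equiv Function

namespace Drawing

variable {V : Type} {G : SimpleGraph V} (H : Drawing G)

/-- Put `g d = w d + 12` for `K2 d` and `g d = w d` otherwise: all cycle sums of `g` are at least
`120` (`S_ge`, `S_K2`), so by `cyc_le`, `sum_w`, `card_K2`: `120 F ≤ 30 |D| + 18 |R| + 24 c`.
`Sph`, `card_points`, `card_CR`, `card_R` give `5 n' + c ≥ m + 10 c` for the number `n'` of vertices
with darts. -/
theorem bound [Fintype V] (hs : H.Sph) (hG : H.Good) (h2 : H.TwoPlanar) :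
    G.edgeSet.ncard + 9 * ncomp H.σ H.α ≤ 5 * Nat.card {v // ∃ d, H.vtx d = some v} := by
  classical
  let k : H.D → ℤ := fun d => if H.K2 d then 12 else 0
  have hk0 : ∀ d, 0 ≤ k d := by
    intro d
    show (0 : ℤ) ≤ if _ then _ else _
    split_ifs <;> norm_num
  have hsum : ∀ d, (120 : ℤ) ≤ ∑ i ∈ Finset.range (minimalPeriod H.φ d),
      (fun d => H.w d + k d) (H.φ^[i] d) := by
    intro d
    have e1 : ∑ i ∈ Finset.range (minimalPeriod H.φ d), (fun d => H.w d + k d) (H.φ^[i] d) =
        H.S d + ∑ i ∈ Finset.range (minimalPeriod H.φ d), k (H.φ^[i] d) := by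
      rw [S, ← Finset.sum_add_distrib]
    rw [e1]
    by_cases hK : H.K2 d
    · rw [H.S_K2 d hK]
      have hp : 2 ≤ minimalPeriod H.φ d := by
        have h1 := H.period_pos d
        have h3 := H.period_ne_one d
        omega
      have h4 : ∑ i ∈ Finset.range 2, k (H.φ^[i] d) ≤
          ∑ i ∈ Finset.range (minimalPeriod H.φ d), k (H.φ^[i] d) :=
        Finset.sum_le_sum_of_subset_of_nonneg (Finset.range_mono hp) (fun i _ _ => hk0 _)
      have hK' : H.K2 (H.φ d) := ⟨hK.2.1, by rw [hK.2.2]; exact hK.1, by rw [hK.2.2]⟩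
      have h5 : ∑ i ∈ Finset.range 2, k (H.φ^[i] d) = 24 := by
        rw [Finset.sum_range_succ, Finset.sum_range_one]
        show (if H.K2 d then (12 : ℤ) else 0) + (if H.K2 (H.φ d) then (12 : ℤ) else 0) = 24
        rw [if_pos hK, if_pos hK']
        norm_num
      linarith
    · have h1 := (H.S_ge hG h2 d hK).1
      have h3 : 0 ≤ ∑ i ∈ Finset.range (minimalPeriod H.φ d), k (H.φ^[i] d) :=
        Finset.sum_nonneg (fun i _ => hk0 _)
      linarith
  have h1 := cyc_le H.φ (fun d => H.w d + k d) 120 hsum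
  rw [Finset.sum_add_distrib, H.sum_w] at h1
  have hk : ∑ d, k d = 12 * (Nat.card {d // H.K2 d} : ℤ) := by
    show ∑ d, (if H.K2 d then (12 : ℤ) else 0) = _
    rw [← Finset.sum_filter, Finset.sum_const, Nat.card_eq_fintype_card, Fintype.card_subtype]
    simp [mul_comm]
  rw [hk] at h1
  have h3 := H.card_K2
  have h4 := H.card_points
  have h5 := H.card_CR
  have h6 := H.card_R
  unfold Sph at hs
  omega

/-- From `bound`: one component, all vertices have darts; so there is no `K2` (`K2_small`), and the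
inequalities are equalities: `cyc_eq` for `g = w`. -/
theorem all_eq [Fintype V] (hs : H.Sph) (hG : H.Good) (h2 : H.TwoPlanar)
    (hn : 3 ≤ Fintype.card V) (hm : G.edgeSet.ncard = 5 * Fintype.card V - 10) :
    (∀ d, H.Ty d) ∧ ncomp H.σ H.α = 1 ∧ ∀ v, ∃ d, H.vtx d = some v := by
  classical
  have hb := H.bound hs hG h2
  have hn' : Nat.card {v // ∃ d, H.vtx d = some v} ≤ Fintype.card V := by
    rw [Nat.card_eq_fintype_card]
    exact Fintype.card_subtype_le _
  have hc0 : ncomp H.σ H.α ≠ 0 := by
    intro h0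
    have hE : IsEmpty H.D := by
      by_contra hne
      rw [not_isEmpty_iff] at hne
      obtain ⟨d⟩ := hne
      have : 0 < ncomp H.σ H.α := by
        unfold ncomp
        haveI : Nonempty (Quotient (MulAction.orbitRel
          (Subgroup.closure ({H.σ, H.α} : Set (Perm H.D))) H.D)) := ⟨Quotient.mk _ d⟩
        exact Nat.card_pos
      omega
    have h6 := H.card_R
    have h7 : Nat.card {d // H.R d} = 0 := by
      rw [Nat.card_eq_zero]
      left
      exact ⟨fun x => hE.false x.1⟩
    omega
  have hc : ncomp H.σ H.α = 1 := by omega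
  have hnn : Nat.card {v // ∃ d, H.vtx d = some v} = Fintype.card V := by omega
  have hall : ∀ v, ∃ d, H.vtx d = some v := by
    intro v
    by_contra hv
    have : Fintype.card {v // ∃ d, H.vtx d = some v} < Fintype.card V :=
      Fintype.card_subtype_lt hv
    rw [Nat.card_eq_fintype_card] at hnn
    omega
  have hK : ∀ d, ¬ H.K2 d := by
    intro d hd
    have := H.K2_small d hd hc
    omega
  refine ⟨fun d => ?_, hc, hall⟩
  have h1 : H.S d = 120 := by
    refine cyc_eq H.φ H.w 120 (fun d => (H.S_ge hG h2 d (hK d)).1) ?_ d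
    rw [H.sum_w]
    have h4 := H.card_points
    have h5 := H.card_CR
    have h6 := H.card_R
    unfold Sph at hs
    omega
  exact (H.S_ge hG h2 d (hK d)).2 h1

end Drawing

end TwoPl
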