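import Pool.Agent.H99.TP.Req

/-!
# FACE: every face has final weight at least 120
-/

namespace TwoPl

open Equiv Function

namespace Drawing

variable {V : Type} {G : SimpleGraph V} (H : Drawing G)

/-- total final weight of the face of `d` -/
noncomputable def S (d : H.D) : ℤ := ∑ i ∈ Finset.range (minimalPeriod H.φ d), H.w (H.φ^[i] d)

/-- the component is a single edge -/
def K2 (d : H.D) : Prop := H.R d ∧ H.R (H.φ d) ∧ H.φ (H.φ d) = d

/-- a pentagon with five crossings, `d` borders on a triangle with one vertex -/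
def P5 (d : H.D) : Prop :=
  H.C d ∧ H.C (H.φ d) ∧ H.C (H.φ (H.φ d)) ∧ H.C (H.φ (H.φ (H.φ d))) ∧
    H.C (H.φ (H.φ (H.φ (H.φ d)))) ∧ H.φ (H.φ (H.φ (H.φ (H.φ d)))) = d ∧ H.Tc (H.α d)

/-- a triangle with two vertices; `d` joins them -/
def U1 (d : H.D) : Prop :=
  H.R d ∧ H.R (H.φ d) ∧ H.C (H.φ (H.φ d)) ∧ H.φ (H.φ (H.φ d)) = d

/-- a triangle with two vertices; `d` goes to the crossing and borders on a triangle with one
vertex -/
def U2 (d : H.D) : Prop :=
  H.R d ∧ H.C (H.φ d) ∧ H.R (H.φ (H.φ d)) ∧ H.φ (H.φ (H.φ d)) = d ∧ H.Te (H.α d)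

def U3 (d : H.D) : Prop :=
  H.C d ∧ H.R (H.φ d) ∧ H.R (H.φ (H.φ d)) ∧ H.φ (H.φ (H.φ d)) = d ∧ H.Ts (H.α d)

/-- the face types of final weight exactly 120 -/
def Ty (d : H.D) : Prop :=
  H.D0 d ∨ H.T0 d ∨ H.Tc d ∨ H.Ts d ∨ H.Te d ∨ H.Q0 d ∨ H.P5 d ∨ H.U1 d ∨ H.U2 d ∨ H.U3 d

theorem period_pos (d : H.D) : 0 < minimalPeriod H.φ d :=
  minimalPeriod_pos_of_mem_periodicPts (H.φ.injective.mem_periodicPts d)

/-- `φ^[k] d = d` for the period `k` -/
theorem iterate_period (d : H.D) : H.φ^[minimalPeriod H.φ d] d = d := iterate_minimalPeriod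

/-- the period is not one -/
theorem period_ne_one (d : H.D) : minimalPeriod H.φ d ≠ 1 := by
  intro h
  rw [minimalPeriod_eq_one_iff_isFixedPt] at h
  exact H.φ_ne d h

/-- amount which a dart passes to the next dart of its face -/
noncomputable def sh (d : H.D) : ℤ := open Classical in if H.R d then H.w d - 24 else 0

noncomputable def w' (d : H.D) : ℤ := H.w d + H.sh (H.φ.symm d) - H.sh d

/-- telescoping along the cycle of `d` -/
theorem S_eq_w' (d : H.D) :
    H.S d = ∑ i ∈ Finset.range (minimalPeriod H.φ d), H.w' (H.φ^[i] d) := by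
  unfold S
  have h1 : ∀ k : ℕ, ∑ i ∈ Finset.range k, H.w' (H.φ^[i] d) =
      ∑ i ∈ Finset.range k, H.w (H.φ^[i] d) + H.sh (H.φ.symm d) -
        H.sh (H.φ.symm (H.φ^[k] d)) := by
    intro k
    induction k with
    | zero => simp
    | succ k ih =>
      rw [Finset.sum_range_succ, ih, Finset.sum_range_succ, iterate_succ_apply',
        Equiv.symm_apply_apply]
      unfold w'
      ring
  rw [h1, H.iterate_period d]
  ring

theorem FACE_wR {g : H.D} (h : H.R g) : H.w g = 48 + H.r g - H.r (H.α g) := by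
  unfold w
  rw [if_pos h]
  ring

theorem FACE_wC {g : H.D} (h : H.C g) : H.w g = 30 + H.r g - H.r (H.α g) := by
  unfold w
  rw [if_neg (fun h' : H.R g => h' h)]
  ring

theorem FACE_R {g : H.D} (h : H.R g) : 45 ≤ H.w g := by
  have h2 := H.r_nonneg g
  rw [H.FACE_wR h]
  by_cases h' : H.C (H.φ g)
  · have h1 := H.r_RC g h h'
    linarith
  · have h1 := H.r_RR g h h'
    linarith

theorem FACE_RCC (t : H.TwoPlanar) {g : H.D} (h : H.R g) (h' : H.C (H.φ g))
    (h'' : H.C (H.φ (H.φ g))) : 48 ≤ H.w g := by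
  have h1 := H.r_RCC t g h h' h''
  have h2 := H.r_nonneg g
  rw [H.FACE_wR h]
  linarith

theorem FACE_CR {g : H.D} (h : H.C g) (h' : H.R (H.φ g)) : 27 ≤ H.w g := by
  have h1 := H.r_CR g h h'
  have h2 := H.r_nonneg g
  rw [H.FACE_wC h]
  linarith

theorem FACE_CC (t : H.TwoPlanar) {g : H.D} (h : H.C g) (h' : H.C (H.φ g)) : 0 ≤ H.w g := by
  have h1 := H.r_CC t g h h'
  have h2 := H.r_nonneg g
  rw [H.FACE_wC h]
  linarith

theorem FACE_CC6 (t : H.TwoPlanar) {g : H.D} (h : H.C g) (h' : H.C (H.φ g))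
    (h'' : H.C (H.φ.symm g) ∨ H.C (H.φ (H.φ g))) : 24 ≤ H.w g := by
  have h1 := H.r_CC6 t g h h' h''
  have h2 := H.r_nonneg g
  rw [H.FACE_wC h]
  linarith

theorem FACE_shR {g : H.D} (h : H.R g) : H.sh g = H.w g - 24 := by
  unfold sh
  rw [if_pos h]

theorem FACE_shC {g : H.D} (h : H.C g) : H.sh g = 0 := by
  unfold sh
  rw [if_neg (fun h' : H.R g => h' h)]

theorem FACE_sh_nonneg (g : H.D) : 0 ≤ H.sh g := by
  by_cases h : H.C g
  · rw [H.FACE_shC h]
  · rw [H.FACE_shR h]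
    have := H.FACE_R h
    linarith

/-- `w' d ≥ 24` if the face of `d` is not of one of the requesting types. Cases: `R d`:
`w' d = 24 + sh (φ⁻¹ d)` and `sh ≥ 0` as `w ≥ 45` for darts which start at a vertex. `C d` and
`C (φ⁻¹ d)`: `w d ≥ 24` by `r_CC6`, `r_CR`. `C d`, `R (φ⁻¹ d)`: `w (φ⁻¹ d) + w d ≥ 48` by
`r_RCC`, `r_CC`, if `C (φ d)`, and by `r_RC`, `r_CR` if `R (φ d)`. -/
theorem w'_ge (h2 : H.TwoPlanar) (d : H.D) : 24 ≤ H.w' d := by
  unfold w'
  by_cases hd : H.C d
  · rw [H.FACE_shC hd]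
    by_cases hp : H.C (H.φ.symm d)
    · rw [H.FACE_shC hp]
      by_cases hn : H.C (H.φ d)
      · have := H.FACE_CC6 h2 hd hn (Or.inl hp)
        linarith
      · have := H.FACE_CR hd hn
        linarith
    · rw [H.FACE_shR hp]
      by_cases hn : H.C (H.φ d)
      · have h3 := H.FACE_RCC h2 hp (by rw [Equiv.apply_symm_apply]; exact hd)
          (by rw [Equiv.apply_symm_apply]; exact hn)
        have h4 := H.FACE_CC h2 hd hn
        linarith
      · have h3 := H.FACE_R hp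
        have h4 := H.FACE_CR hd hn
        linarith
  · rw [H.FACE_shR hd]
    have := H.FACE_sh_nonneg (H.φ.symm d)
    linarith

/-- If `R d` then `w' d ≥ 27` (if `R (φ⁻¹ d)`) or `w' (φ⁻¹ d) ≥ 27` (if `C (φ⁻¹ d)`). -/
theorem w'_strict (h2 : H.TwoPlanar) (d : H.D) (h : H.R d) :
    27 ≤ H.w' d ∨ 27 ≤ H.w' (H.φ.symm d) := by
  by_cases hp : H.C (H.φ.symm d)
  · right
    unfold w'
    rw [H.FACE_shC hp]
    have h3 := H.FACE_CR hp (by rw [Equiv.apply_symm_apply]; exact h)
    have h4 := H.FACE_sh_nonneg (H.φ.symm (H.φ.symm d))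
    linarith
  · left
    unfold w'
    rw [H.FACE_shR h, H.FACE_shR hp]
    have h3 := H.FACE_R hp
    linarith

/-- Faces of length at least five: `S ≥ 24 k`, and `S ≥ 24 k + 3` if there is a vertex. So `S = 120`
implies `k = 5` and all corners are crossings, `w = 24` for all darts, `r = 0` (`r_eq_zero`), so
`r (α d) = 6` and `Tc (α d)` by `Tc_of_r`. -/
theorem S_five (h2 : H.TwoPlanar) (d : H.D) (hk : 5 ≤ minimalPeriod H.φ d) :
    120 ≤ H.S d ∧ (H.S d = 120 → H.P5 d) := by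
  have h24 : (24 : ℤ) * minimalPeriod H.φ d ≤ H.S d := by
    rw [H.S_eq_w' d]
    have h3 := Finset.card_nsmul_le_sum (Finset.range (minimalPeriod H.φ d))
      (fun i => H.w' (H.φ^[i] d)) 24 (fun i _ => H.w'_ge h2 _)
    rw [Finset.card_range, nsmul_eq_mul] at h3
    linarith
  have hk' : (5 : ℤ) ≤ minimalPeriod H.φ d := by exact_mod_cast hk
  refine ⟨by linarith, fun he => ?_⟩
  have hk5 : minimalPeriod H.φ d = 5 := by
    have : (minimalPeriod H.φ d : ℤ) ≤ 5 := by linarith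
    have : minimalPeriod H.φ d ≤ 5 := by exact_mod_cast this
    omega
  have hp : H.φ (H.φ (H.φ (H.φ (H.φ d)))) = d := by
    have := H.iterate_period d
    rw [hk5] at this
    exact this
  rw [H.S_eq_w' d, hk5] at he
  simp only [Finset.sum_range_succ, Finset.sum_range_zero, zero_add, iterate_zero, id_eq,
    iterate_succ_apply'] at he
  have g0 := H.w'_ge h2 d
  have g1 := H.w'_ge h2 (H.φ d)
  have g2 := H.w'_ge h2 (H.φ (H.φ d))
  have g3 := H.w'_ge h2 (H.φ (H.φ (H.φ d)))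
  have g4 := H.w'_ge h2 (H.φ (H.φ (H.φ (H.φ d))))
  have hs : H.φ.symm d = H.φ (H.φ (H.φ (H.φ d))) := by
    rw [Equiv.symm_apply_eq, hp]
  have c0 : H.C d := by
    by_contra h
    rcases H.w'_strict h2 _ h with h3 | h3
    · linarith
    · rw [hs] at h3
      linarith
  have c1 : H.C (H.φ d) := by
    by_contra h
    rcases H.w'_strict h2 _ h with h3 | h3
    · linarith
    · rw [Equiv.symm_apply_apply] at h3
      linarith
  have c2 : H.C (H.φ (H.φ d)) := by
    by_contra h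
    rcases H.w'_strict h2 _ h with h3 | h3
    · linarith
    · rw [Equiv.symm_apply_apply] at h3
      linarith
  have c3 : H.C (H.φ (H.φ (H.φ d))) := by
    by_contra h
    rcases H.w'_strict h2 _ h with h3 | h3
    · linarith
    · rw [Equiv.symm_apply_apply] at h3
      linarith
  have c4 : H.C (H.φ (H.φ (H.φ (H.φ d)))) := by
    by_contra h
    rcases H.w'_strict h2 _ h with h3 | h3
    · linarith
    · rw [Equiv.symm_apply_apply] at h3
      linarith
  have hw : H.w d = 24 := by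
    have h3 : H.w' d = 24 := by linarith
    unfold w' at h3
    rw [H.FACE_shC c0, hs, H.FACE_shC c4] at h3
    linarith
  rw [H.FACE_wC c0] at hw
  have h5 := H.r_nonneg d
  have h6 := H.r_CC6 h2 d c0 c1 (Or.inr c2)
  exact ⟨c0, c1, c2, c3, c4, hp, H.Tc_of_r h2 d c0 c1 (Or.inr c2) (by linarith)⟩

end Drawing

end TwoPl
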