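import Pool.Agent.H99.TP.Face

/-!
# FACEB: faces of length at most four

`S d` is an explicit sum of two, three or four terms. Sort by the corners.
-/

namespace TwoPl

open Equiv Function

namespace Drawing

variable {V : Type} {G : SimpleGraph V} (H : Drawing G)

theorem FACEB_S2 (d : H.D) (hk : minimalPeriod H.φ d = 2) :
    H.S d = H.w d + H.w (H.φ d) := by
  unfold S
  rw [hk]
  simp [Finset.sum_range_succ]

theorem FACEB_S3 (d : H.D) (hk : minimalPeriod H.φ d = 3) :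
    H.S d = H.w d + H.w (H.φ d) + H.w (H.φ (H.φ d)) := by
  unfold S
  rw [hk]
  simp [Finset.sum_range_succ]

theorem FACEB_S4 (d : H.D) (hk : minimalPeriod H.φ d = 4) :
    H.S d = H.w d + H.w (H.φ d) + H.w (H.φ (H.φ d)) + H.w (H.φ (H.φ (H.φ d))) := by
  unfold S
  rw [hk]
  simp [Finset.sum_range_succ]

theorem FACEB_wR {g : H.D} (h : H.R g) : H.w g = 48 + H.r g - H.r (H.α g) := by
  unfold w
  rw [if_pos h]
  ring

theorem FACEB_wC {g : H.D} (h : H.C g) : H.w g = 30 + H.r g - H.r (H.α g) := by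
  unfold w
  rw [if_neg (fun h' : H.R g => h' h)]
  ring

theorem FACEB_RR {g : H.D} (h : H.R g) (h' : H.R (H.φ g)) : 48 ≤ H.w g := by
  have h1 := H.r_RR g h h'
  have h2 := H.r_nonneg g
  rw [H.FACEB_wR h]
  linarith

theorem FACEB_RC {g : H.D} (h : H.R g) (h' : H.C (H.φ g)) : 45 ≤ H.w g := by
  have h1 := H.r_RC g h h'
  have h2 := H.r_nonneg g
  rw [H.FACEB_wR h]
  linarith

theorem FACEB_RCC (t : H.TwoPlanar) {g : H.D} (h : H.R g) (h' : H.C (H.φ g))
    (h'' : H.C (H.φ (H.φ g))) : 48 ≤ H.w g := by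
  have h1 := H.r_RCC t g h h' h''
  have h2 := H.r_nonneg g
  rw [H.FACEB_wR h]
  linarith

theorem FACEB_CR {g : H.D} (h : H.C g) (h' : H.R (H.φ g)) : 27 ≤ H.w g := by
  have h1 := H.r_CR g h h'
  have h2 := H.r_nonneg g
  rw [H.FACEB_wC h]
  linarith

theorem FACEB_CCR (t : H.TwoPlanar) {g : H.D} (h : H.C g) (h' : H.R (H.φ g))
    (h'' : H.C (H.φ.symm g)) : 30 ≤ H.w g := by
  have h1 := H.r_CCR t g h h' h''
  have h2 := H.r_nonneg g
  rw [H.FACEB_wC h]
  linarith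

theorem FACEB_CC (t : H.TwoPlanar) {g : H.D} (h : H.C g) (h' : H.C (H.φ g)) : 0 ≤ H.w g := by
  have h1 := H.r_CC t g h h'
  have h2 := H.r_nonneg g
  rw [H.FACEB_wC h]
  linarith

theorem FACEB_CC6 (t : H.TwoPlanar) {g : H.D} (h : H.C g) (h' : H.C (H.φ g))
    (h'' : H.C (H.φ.symm g) ∨ H.C (H.φ (H.φ g))) : 24 ≤ H.w g := by
  have h1 := H.r_CC6 t g h h' h''
  have h2 := H.r_nonneg g
  rw [H.FACEB_wC h]
  linarith

open Classical in
/-- lower bound for the weight in terms of the kinds of four consecutive corners -/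
noncomputable def FACEB_lb (p g n m : Prop) : ℤ :=
  if g then (if n then (if p ∨ m then 24 else 0) else (if p then 30 else 27))
  else (if n then (if m then 48 else 45) else 48)

theorem FACEB_lb_le (t : H.TwoPlanar) (g : H.D) :
    FACEB_lb (H.C (H.φ.symm g)) (H.C g) (H.C (H.φ g)) (H.C (H.φ (H.φ g))) ≤ H.w g := by
  unfold FACEB_lb
  split_ifs with h1 h2 h3 h4 h5 h6
  · exact H.FACEB_CC6 t h1 h2 h3
  · exact H.FACEB_CC t h1 h2
  · exact H.FACEB_CCR t h1 h2 h4
  · exact H.FACEB_CR h1 h2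
  · exact H.FACEB_RCC t h1 h5 h6
  · exact H.FACEB_RC h1 h5
  · exact H.FACEB_RR h1 h5

/-- `w = 48 + r d - r (α d)`, all requests are zero by `r_RR` (`r d = 0` by `r_eq_zero`) -/
theorem S_K2 (d : H.D) (h : H.K2 d) : H.S d = 96 := by
  obtain ⟨h1, h2, h3⟩ := h
  have hk : minimalPeriod H.φ d = 2 := by
    have h4 : IsPeriodicPt H.φ 2 d := h3
    rcases (Nat.dvd_prime Nat.prime_two).1 h4.minimalPeriod_dvd with h5 | h5
    · exact absurd h5 (H.period_ne_one d)
    · exact h5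
  have key : ∀ g : H.D, H.R g → H.R (H.φ g) → H.w g = 48 := by
    intro g hg hg'
    have h4 := H.r_RR g hg hg'
    have h5 : H.R (H.α g) := by
      intro h6
      exact hg' ((H.vtx_φ g).trans h6)
    have h6 : H.R (H.φ (H.α g)) := by
      intro h7
      exact hg ((H.vtx_φ_α g).symm.trans h7)
    have h7 := H.r_RR (H.α g) h5 h6
    rw [H.αα] at h7
    rw [H.FACEB_wR hg, h4, h7]
    norm_num
  rw [H.FACEB_S2 d hk, key d h1 h2, key (H.φ d) h2 (by rw [h3]; exact h1)]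
  norm_num

/-- Length two: `R R` is `K2`, `R C` is excluded by `Good`, `C C` is `D0`: `S = 120` by `r_D0` and
`r_α_D0`. -/
theorem S_two (hG : H.Good) (h2 : H.TwoPlanar) (d : H.D) (hk : minimalPeriod H.φ d = 2)
    (hK : ¬ H.K2 d) : 120 ≤ H.S d ∧ (H.S d = 120 → H.Ty d) := by
  have hp : H.φ (H.φ d) = d := by
    have := H.iterate_period d
    rw [hk] at this
    exact this
  by_cases c0 : H.C d
  · by_cases c1 : H.C (H.φ d)
    · have hD : H.D0 d := ⟨c0, c1, hp⟩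
      have hD' : H.D0 (H.φ d) := D0.next H hD
      have e : H.S d = 120 := by
        rw [H.FACEB_S2 d hk, H.FACEB_wC c0, H.FACEB_wC c1, H.r_D0 hD, H.r_D0 hD',
          H.r_α_D0 h2 d hD, H.r_α_D0 h2 _ hD']
        norm_num
      exact ⟨e.ge, fun _ => Or.inl hD⟩
    · exfalso
      exact hG.1 (H.φ d) c1 (by rw [hp]; exact c0) (by rw [hp])
  · by_cases c1 : H.C (H.φ d)
    · exact absurd hp (hG.1 d c0 c1)
    · exact absurd ⟨c0, c1, hp⟩ hK

/-- the sum over a triangle with one vertex -/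
theorem FACEB_Ts (hG : H.Good) (h2 : H.TwoPlanar) (d : H.D) (h : H.Ts d) :
    H.w d = 51 ∧ H.w (H.φ d) = 36 ∧ H.w (H.φ (H.φ d)) = 33 := by
  have ht := Ts.next H h
  have ht2 := Tc.next H ht
  have h' := h
  obtain ⟨h3, h4, h5, h6⟩ := h'
  refine ⟨?_, ?_, ?_⟩
  · rw [H.FACEB_wR h3, H.r_Ts h, H.r_RCC h2 d h3 h4 h5]
    norm_num
  · rw [H.FACEB_wC h4, H.r_Tc ht, H.r_α_Tc hG h2 _ ht]
    norm_num
  · rw [H.FACEB_wC h5, H.r_Te ht2, H.r_CCR h2 _ h5 (by rw [h6]; exact h3)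
      (by rw [Equiv.symm_apply_apply]; exact h4)]
    norm_num

/-- the sum over a triangle with two vertices -/
theorem FACEB_U (d : H.D) (h1 : H.R d) (h3 : H.R (H.φ d)) (h4 : H.C (H.φ (H.φ d)))
    (hp : H.φ (H.φ (H.φ d)) = d) :
    120 ≤ H.w d + H.w (H.φ d) + H.w (H.φ (H.φ d)) ∧
      (H.w d + H.w (H.φ d) + H.w (H.φ (H.φ d)) = 120 →
        H.Te (H.α (H.φ d)) ∧ H.Ts (H.α (H.φ (H.φ d)))) := by
  have a1 := H.r_RR d h1 h3
  have a2 := H.r_RC (H.φ d) h3 h4
  have a3 := H.r_CR (H.φ (H.φ d)) h4 (by rw [hp]; exact h1)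
  have b1 := H.r_nonneg d
  have b2 := H.r_nonneg (H.φ d)
  have b3 := H.r_nonneg (H.φ (H.φ d))
  rw [H.FACEB_wR h1, H.FACEB_wR h3, H.FACEB_wC h4]
  refine ⟨by linarith, fun he => ⟨H.Te_of_r _ h3 h4 (by linarith),
    H.Ts_of_r _ h4 (by rw [hp]; exact h1) (by linarith)⟩⟩

/-- Length three: `CCC` (`T0`): 120; `RCC` and rotations (`Ts, Tc, Te`): `138 + 12 - 0 - 30 = 120`,
precisely `48 + 30 + 30 + 3 + 6 + 3 = 120`; `RRC` and rotations: `126 - r - r'` with `r, r' ≤ 3`, and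
equality gives `U1, U2, U3` (`Te_of_r`, `Ts_of_r`); `RRR`: `144`. -/
theorem S_three (hG : H.Good) (h2 : H.TwoPlanar) (d : H.D) (hk : minimalPeriod H.φ d = 3) :
    120 ≤ H.S d ∧ (H.S d = 120 → H.Ty d) := by
  have hp : H.φ (H.φ (H.φ d)) = d := by
    have := H.iterate_period d
    rw [hk] at this
    exact this
  rw [H.FACEB_S3 d hk]
  by_cases c0 : H.C d
  · by_cases c1 : H.C (H.φ d)
    · by_cases c2 : H.C (H.φ (H.φ d))
      · have hT : H.T0 d := ⟨c0, c1, c2, hp⟩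
        have hT1 := T0.next H hT
        have hT2 := T0.next H hT1
        have e : H.w d + H.w (H.φ d) + H.w (H.φ (H.φ d)) = 120 := by
          rw [H.FACEB_wC c0, H.FACEB_wC c1, H.FACEB_wC c2, H.r_T0 hT, H.r_T0 hT1, H.r_T0 hT2,
            H.r_α_T0 hG h2 _ hT, H.r_α_T0 hG h2 _ hT1, H.r_α_T0 hG h2 _ hT2]
          norm_num
        exact ⟨e.ge, fun _ => Or.inr (Or.inl hT)⟩
      · -- CCR
        have hT : H.Ts (H.φ (H.φ d)) := ⟨c2, by rw [hp]; exact c0, by rw [hp]; exact c1, by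
          rw [hp]⟩
        obtain ⟨e1, e2, e3⟩ := H.FACEB_Ts hG h2 _ hT
        rw [hp] at e2 e3
        rw [e1, e2, e3]
        refine ⟨by norm_num, fun _ => ?_⟩
        unfold Ty
        exact Or.inr (Or.inr (Or.inl ⟨c0, c1, c2, hp⟩))
    · by_cases c2 : H.C (H.φ (H.φ d))
      · -- CRC
        have hT : H.Ts (H.φ d) := ⟨c1, c2, by rw [hp]; exact c0, by rw [hp]⟩
        obtain ⟨e1, e2, e3⟩ := H.FACEB_Ts hG h2 _ hT
        rw [hp] at e3
        rw [e1, e2, e3]
        refine ⟨by norm_num, fun _ => ?_⟩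
        unfold Ty
        exact Or.inr (Or.inr (Or.inr (Or.inr (Or.inl ⟨c0, c1, c2, hp⟩))))
      · -- CRR
        have hU := H.FACEB_U (H.φ d) c1 c2 (by rw [hp]; exact c0) (by rw [hp])
        rw [hp] at hU
        refine ⟨by linarith [hU.1], fun he => ?_⟩
        have h7 := hU.2 (by linarith)
        unfold Ty
        have : H.U3 d := ⟨c0, c1, c2, hp, h7.2⟩
        tauto
  · by_cases c1 : H.C (H.φ d)
    · by_cases c2 : H.C (H.φ (H.φ d))
      · -- RCC
        have hT : H.Ts d := ⟨c0, c1, c2, hp⟩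
        obtain ⟨e1, e2, e3⟩ := H.FACEB_Ts hG h2 _ hT
        rw [e1, e2, e3]
        refine ⟨by norm_num, fun _ => ?_⟩
        unfold Ty
        tauto
      · -- RCR
        have hU := H.FACEB_U (H.φ (H.φ d)) c2 (by rw [hp]; exact c0) (by rw [hp]; exact c1)
          (by rw [hp])
        rw [hp] at hU
        refine ⟨by linarith [hU.1], fun he => ?_⟩
        have h7 := hU.2 (by linarith)
        unfold Ty
        have : H.U2 d := ⟨c0, c1, c2, hp, h7.1⟩
        tauto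
    · by_cases c2 : H.C (H.φ (H.φ d))
      · -- RRC
        have hU := H.FACEB_U d c0 c1 c2 hp
        refine ⟨by linarith [hU.1], fun he => ?_⟩
        unfold Ty
        have : H.U1 d := ⟨c0, c1, c2, hp⟩
        tauto
      · -- RRR
        have a1 := H.FACEB_RR c0 c1
        have a2 := H.FACEB_RR c1 c2
        have a3 := H.FACEB_RR c2 (by rw [hp]; exact c0)
        exact ⟨by linarith, fun he => by exfalso; linarith⟩

theorem FACEB_four (a b c d : Prop) (h : ¬ (a ∧ b ∧ c ∧ d)) :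
    120 < FACEB_lb d a b c + FACEB_lb a b c d + FACEB_lb b c d a + FACEB_lb c d a b := by
  unfold FACEB_lb
  by_cases ha : a <;> by_cases hb : b <;> by_cases hc : c <;> by_cases hd : d <;>
    simp only [ha, hb, hc, hd, not_true, not_false_eq_true, and_true, true_and, and_false,
      false_and, or_true, true_or, or_false, false_or, or_self, if_true, if_false] at h ⊢ <;>
    first | exact absurd trivial h | norm_num

/-- Length four: `CCCC` (`Q0`): 120 by `r_Q0`; `RCCC`: at least `138 - 12 = 126` (`r_RCC`, `r_CCR`,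
`r_CC6`); `RRCC`: at least `156 - 30`; `RCRC`: at least `156 - 12`; `RRRC`: at least `174 - 6`;
`RRRR`: `192`. -/
theorem S_four (hG : H.Good) (h2 : H.TwoPlanar) (d : H.D) (hk : minimalPeriod H.φ d = 4) :
    120 ≤ H.S d ∧ (H.S d = 120 → H.Ty d) := by
  have hp : H.φ (H.φ (H.φ (H.φ d))) = d := by
    have := H.iterate_period d
    rw [hk] at this
    exact this
  have hne : H.φ (H.φ d) ≠ d := by
    intro h3
    have h4 : IsPeriodicPt H.φ 2 d := h3
    have h5 := h4.minimalPeriod_dvd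
    rw [hk] at h5
    omega
  rw [H.FACEB_S4 d hk]
  by_cases hc : H.C d ∧ H.C (H.φ d) ∧ H.C (H.φ (H.φ d)) ∧ H.C (H.φ (H.φ (H.φ d)))
  · obtain ⟨c0, c1, c2, c3⟩ := hc
    have hQ : H.Q0 d := ⟨c0, c1, c2, c3, hp, hne⟩
    have hQ1 := Q0.next H hQ
    have hQ2 := Q0.next H hQ1
    have hQ3 := Q0.next H hQ2
    have a0 := H.r_Q0 h2 d hQ
    have a1 := H.r_Q0 h2 _ hQ1
    have a2 := H.r_Q0 h2 _ hQ2
    have a3 := H.r_Q0 h2 _ hQ3
    rw [hp] at a2 a3
    have e : H.w d + H.w (H.φ d) + H.w (H.φ (H.φ d)) + H.w (H.φ (H.φ (H.φ d))) = 120 := by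
      rw [H.FACEB_wC c0, H.FACEB_wC c1, H.FACEB_wC c2, H.FACEB_wC c3]
      linarith
    refine ⟨e.ge, fun _ => ?_⟩
    unfold Ty
    tauto
  · have l0 := H.FACEB_lb_le h2 d
    have l1 := H.FACEB_lb_le h2 (H.φ d)
    have l2 := H.FACEB_lb_le h2 (H.φ (H.φ d))
    have l3 := H.FACEB_lb_le h2 (H.φ (H.φ (H.φ d)))
    have hs : H.φ.symm d = H.φ (H.φ (H.φ d)) := by
      rw [Equiv.symm_apply_eq, hp]
    rw [hs] at l0
    rw [Equiv.symm_apply_apply] at l1 l2 l3
    rw [hp] at l2 l3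
    have := FACEB_four _ _ _ _ hc
    exact ⟨by linarith, fun he => by exfalso; linarith⟩

theorem S_ge (hG : H.Good) (h2 : H.TwoPlanar) (d : H.D) (hK : ¬ H.K2 d) :
    120 ≤ H.S d ∧ (H.S d = 120 → H.Ty d) := by
  have h1 := H.period_pos d
  have h3 := H.period_ne_one d
  rcases Nat.lt_or_ge (minimalPeriod H.φ d) 5 with h | h
  · have h4 : minimalPeriod H.φ d = 2 ∨ minimalPeriod H.φ d = 3 ∨ minimalPeriod H.φ d = 4 := by
      omega
    rcases h4 with h4 | h4 | h4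
    · exact H.S_two hG h2 d h4 hK
    · exact H.S_three hG h2 d h4
    · exact H.S_four hG h2 d h4
  · obtain ⟨h5, h6⟩ := H.S_five h2 d h
    refine ⟨h5, fun h7 => ?_⟩
    have := h6 h7
    unfold Ty
    tauto

end Drawing

end TwoPl
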