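import Mathlib

/-!
# Topological graphs on the sphere as combinatorial maps

A topological graph (drawing) with underlying graph `G` on the sphere: vertices are points, edges
are Jordan arcs which do not pass through other vertices, two edges meet in finitely many points,
each a common endpoint or a proper crossing. Several edges may cross in one point. It is given by
its planarization: the crossing points become additional points, the edges are cut into segments.
The planarization is a combinatorial map: `D` is the set of darts (segments with a direction), `α`
reverses a dart, `σ` is the clockwise rotation of the darts which start at the same point. The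
cycles of `σ` are the points, the cycles of `φ = σ α` are the boundary walks of the faces.
-/

namespace TwoPl

open Equiv

/-- number of cycles of a permutation (fixed points are cycles) -/
noncomputable def numCycles {D : Type} (f : Perm D) : ℕ :=
  Nat.card (Quotient (Equiv.Perm.SameCycle.setoid f))

/-- number of connected components of the combinatorial map `(σ, α)` -/
noncomputable def numComps {D : Type} (σ α : Perm D) : ℕ :=
  Nat.card (Quotient (MulAction.orbitRel (Subgroup.closure ({σ, α} : Set (Perm D))) D))

/-- A topological graph with underlying graph `G` on a closed oriented surface, given by its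
planarization. -/
structure TopGraph {V : Type} (G : SimpleGraph V) where
  /-- the darts: the segments of the edges between consecutive points, with a direction -/
  D : Type
  fin : Fintype D
  /-- the same segment with the other direction -/
  α : Perm D
  /-- the next dart (clockwise) which starts at the same point -/
  σ : Perm D
  /-- the vertex at which the dart starts; `none` if it starts at a crossing point -/
  vtx : D → Option V
  /-- the dart is a part of the edge from `src d` to `tgt d`, in this direction -/
  src : D → V
  tgt : D → V
  /-- the number of edges which pass through the crossing point at which the dart starts -/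
  mul : D → ℕ
  /-- the number of crossings on the edge from `src d` to `tgt d` before the segment `d`: a
  crossing point of `m` edges counts `m - 1` times, once for every other edge through it -/
  pos : D → ℕ
  α_α : ∀ d, α (α d) = d
  vtx_σ : ∀ d, vtx (σ d) = vtx d
  mul_σ : ∀ d, mul (σ d) = mul d
  /-- every vertex is one point -/
  rot : ∀ d d', vtx d ≠ none → vtx d = vtx d' → σ.SameCycle d d'
  two_le : ∀ d, vtx d = none → 2 ≤ mul d
  /-- a crossing point of `m` edges is a point of degree `2 m` -/
  deg : ∀ d, vtx d = none → (σ ^ (2 * mul d)) d = d
  src_α : ∀ d, src (α d) = tgt d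
  adj : ∀ d, G.Adj (src d) (tgt d)
  src_vtx : ∀ d v, vtx d = some v → src d = v
  /-- every edge is drawn once -/
  uniq : ∀ d d', vtx d ≠ none → vtx d' ≠ none → src d = src d' → tgt d = tgt d' → d = d'
  ex : ∀ v w, G.Adj v w → ∃ d, vtx d = some v ∧ tgt d = w
  /-- Opposite darts at a crossing point belong to the same edge, which passes straight through it:
  any two edges which meet there cross properly. -/
  straight : ∀ d, vtx d = none → src ((σ ^ mul d) d) = tgt d ∧ tgt ((σ ^ mul d) d) = src d
  /-- the `m` edges through a crossing point are different -/
  transv : ∀ d j, vtx d = none → 0 < j → j < mul d →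
    s(src ((σ ^ j) d), tgt ((σ ^ j) d)) ≠ s(src d, tgt d)
  pos_real : ∀ d, vtx d ≠ none → pos d = 0
  pos_step : ∀ d, vtx (α d) = none → pos ((σ ^ mul (α d)) (α d)) = pos d + (mul (α d) - 1)

namespace TopGraph

variable {V : Type} {G : SimpleGraph V} (H : TopGraph G)

instance : Fintype H.D := H.fin

/-- the face permutation -/
def φ : Perm H.D := H.σ * H.α

/-- The surface is a sphere (a disjoint union of spheres, if the planarization is not connected):
Euler's formula `P - S + F = 2 C`, where `2 S` is the number of darts. -/
def Spherical : Prop :=
  2 * numCycles H.σ + 2 * numCycles H.φ = Fintype.card H.D + 4 * numComps H.σ H.α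

/-- every edge is crossed at most twice -/
def TwoPlanar : Prop := ∀ d, H.pos d ≤ 2

/-- the dart is an uncrossed edge -/
def Unc (d : H.D) : Prop := H.vtx d ≠ none ∧ H.vtx (H.α d) ≠ none

/-- `d'` is the first uncrossed edge after `d` in the clockwise rotation -/
def NextUnc (d d' : H.D) : Prop :=
  ∃ k : ℕ, 0 < k ∧ (H.σ ^ k) d = d' ∧ H.Unc d' ∧ ∀ j, 0 < j → j < k → ¬ H.Unc ((H.σ ^ j) d)

/-- the edges `u v` and `w z` cross: they pass through a common crossing point -/
def Crosses (u v w z : V) : Prop :=
  s(u, v) ≠ s(w, z) ∧ ∃ (d : H.D) (j : ℕ), H.vtx d = none ∧ s(H.src d, H.tgt d) = s(u, v) ∧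
    s(H.src ((H.σ ^ j) d), H.tgt ((H.σ ^ j) d)) = s(w, z)

/-- The pentagon structure: the uncrossed edges form a connected spanning plane graph `U`, every
face of `U` has length five, and its interior contains five mutually crossing edges: the five
chords of the pentagon, drawn inside the face as a pentagram. -/
structure PentagonStructure : Prop where
  /-- every vertex is incident with an uncrossed edge -/
  spans : ∀ v, ∃ d, H.vtx d = some v ∧ H.Unc d
  /-- the uncrossed edges form a connected graph -/
  conn : ∀ v w, Relation.ReflTransGen
    (fun x y => ∃ d, H.vtx d = some x ∧ H.vtx (H.α d) = some y) v w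
  /-- no three edges cross in one point -/
  simple : ∀ d, H.vtx d = none → H.mul d = 2
  /-- The face of `U` to the side of the uncrossed edge `d`: its boundary walk is
  `b 0 = d, b 1, ..., b 4` through the five different vertices `v 0, ..., v 4`; in the corner of the
  face at `v (i + 1)` there are exactly two further darts `x i`, `y i`, which belong to the chords to
  `v (i + 4)` and `v (i + 3)`; the chord `v i, v (i + 2)` crosses the chords `v (i + 1), v (i + 3)` and
  `v (i + 1), v (i + 4)`. -/
  face : ∀ d, H.Unc d → ∃ (v : Fin 5 → V) (b x y : Fin 5 → H.D), b 0 = d ∧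
    Function.Injective v ∧
    (∀ i, H.Unc (b i) ∧ H.src (b i) = v i ∧ H.tgt (b i) = v (i + 1)) ∧
    (∀ i, H.NextUnc (H.α (b i)) (b (i + 1))) ∧
    (∀ i, x i = H.σ (H.α (b i)) ∧ y i = H.σ (x i) ∧ H.σ (y i) = b (i + 1)) ∧
    (∀ i, ¬ H.Unc (x i) ∧ H.tgt (x i) = v (i + 4)) ∧
    (∀ i, ¬ H.Unc (y i) ∧ H.tgt (y i) = v (i + 3)) ∧
    (∀ i, H.Crosses (v i) (v (i + 2)) (v (i + 1)) (v (i + 3)) ∧
      H.Crosses (v i) (v (i + 2)) (v (i + 1)) (v (i + 4)))

end TopGraph

end TwoPl
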