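import Pool.Agent.H99.TP.Pen

/-!
# PENB: the pentagon structure
-/

namespace TwoPl

open Equiv Function

namespace Drawing

variable {V : Type} {G : SimpleGraph V} (H : Drawing G)

/-- the five uncrossed darts -/
def pb (d : H.D) (i : Fin 5) : H.D := H.nU^[i.val] d

theorem pb_succ (h2 : H.TwoPlanar) (hT : H.Tight) (d : H.D) (hd : H.Unc d) (i : Fin 5) :
    H.pb d (i + 1) = H.nU (H.pb d i) := by
  fin_cases i
  · rfl
  · rfl
  · rfl
  · rfl
  · exact (H.nU_five h2 hT d hd).symm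

theorem unc_iter (h2 : H.TwoPlanar) (hT : H.Tight) (d : H.D) (hd : H.Unc d) (n : ℕ) :
    H.Unc (H.nU^[n] d) := by
  induction n with
  | zero => exact hd
  | succ n ih =>
    rw [Function.iterate_succ_apply']
    exact H.unc_nU h2 hT _ ih

theorem unc_pb (h2 : H.TwoPlanar) (hT : H.Tight) (d : H.D) (hd : H.Unc d) (i : Fin 5) :
    H.Unc (H.pb d i) := H.unc_iter h2 hT d hd _

theorem tgt_pb (h2 : H.TwoPlanar) (hT : H.Tight) (d : H.D) (hd : H.Unc d) (i : Fin 5) :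
    H.tgt (H.pb d i) = H.src (H.pb d (i + 1)) := by
  rw [H.pb_succ h2 hT d hd i]
  exact (H.src_nU _ (H.unc_pb h2 hT d hd i)).2.2.symm

theorem src_px_pb (h2 : H.TwoPlanar) (hT : H.Tight) (d : H.D) (hd : H.Unc d) (i : Fin 5) :
    H.src (H.px (H.pb d i)) = H.src (H.pb d (i + 1)) := by
  rw [← H.tgt_pb h2 hT d hd i]
  exact (H.src_nU _ (H.unc_pb h2 hT d hd i)).1

theorem src_py_pb (h2 : H.TwoPlanar) (hT : H.Tight) (d : H.D) (hd : H.Unc d) (i : Fin 5) :
    H.src (H.py (H.pb d i)) = H.src (H.pb d (i + 1)) := by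
  rw [← H.tgt_pb h2 hT d hd i]
  exact (H.src_nU _ (H.unc_pb h2 hT d hd i)).2.1

theorem pb_two (h2 : H.TwoPlanar) (hT : H.Tight) (d : H.D) (hd : H.Unc d) (i : Fin 5) :
    H.pb d (i + 2) = H.nU (H.nU (H.pb d i)) := by
  rw [← H.pb_succ h2 hT d hd i, ← H.pb_succ h2 hT d hd (i + 1), add_assoc]
  rfl

theorem tgt_px_pb (h2 : H.TwoPlanar) (hT : H.Tight) (d : H.D) (hd : H.Unc d) (i : Fin 5) :
    H.tgt (H.px (H.pb d (i + 2))) = H.src (H.pb d (i + 1)) := by
  rw [← H.src_py_pb h2 hT d hd i, H.pb_two h2 hT d hd i]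
  exact (H.pen_lab h2 hT _ (H.unc_pb h2 hT d hd i)).1

theorem tgt_py_pb (h2 : H.TwoPlanar) (hT : H.Tight) (d : H.D) (hd : H.Unc d) (i : Fin 5) :
    H.tgt (H.py (H.pb d i)) = H.src (H.pb d (i + 3)) := by
  rw [(H.pen_lab h2 hT _ (H.unc_pb h2 hT d hd i)).2.1, ← H.pb_two h2 hT d hd i,
    H.src_px_pb h2 hT d hd (i + 2), add_assoc]
  rfl

theorem src_pg_pb (h2 : H.TwoPlanar) (hT : H.Tight) (d : H.D) (hd : H.Unc d) (i : Fin 5) :
    H.src (H.pg (H.pb d (i + 1))) = H.src (H.pb d (i + 3)) := by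
  rw [H.pb_succ h2 hT d hd i, (H.pen_lab h2 hT _ (H.unc_pb h2 hT d hd i)).2.2.1,
    ← H.pb_two h2 hT d hd i, H.src_px_pb h2 hT d hd (i + 2), add_assoc]
  rfl

theorem tgt_pg_pb (h2 : H.TwoPlanar) (hT : H.Tight) (d : H.D) (hd : H.Unc d) (i : Fin 5) :
    H.tgt (H.pg (H.pb d (i + 1))) = H.src (H.pb d (i + 1)) := by
  rw [← H.src_py_pb h2 hT d hd i, H.pb_succ h2 hT d hd i]
  exact (H.pen_lab h2 hT _ (H.unc_pb h2 hT d hd i)).2.2.2

theorem C_α_py (h2 : H.TwoPlanar) (hT : H.Tight) (b : H.D) (hb : H.Unc b) : H.C (H.α (H.py b)) := by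
  have h3 := (H.pen2 h2 hT b hb).2.1
  have h4 := (H.pen2 h2 hT b hb).2.2.2.2
  rw [← h3] at h4
  unfold C at h4 ⊢
  rwa [H.vtx_σ] at h4

theorem C_α_px (h2 : H.TwoPlanar) (hT : H.Tight) (b : H.D) (hb : H.Unc b) :
    H.C (H.α (H.px (H.nU b))) := by
  have h3 := (H.pen2 h2 hT b hb).1
  have h4 := H.C_α_py h2 hT b hb
  rw [← h3] at h4
  unfold C at h4 ⊢
  rwa [H.vtx_σ] at h4

/-- `b i = nU^[i] d`, `v i = src (b i)`, `x i = px (b i)`, `y i = py (b i)` for `i : Fin 5`; write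
`nU_five` as `b (i + 1) = nU (b i)` for all `i : Fin 5`. Crossings: `α (py (b (i - 1)))` and the next
dart `pg (b (i - 1))` for `v i, v (i + 2)` and `v (i + 1), v (i + 4)`; `α (px (b (i + 1)))` and the next
dart `α (py (b i))` for the other pair (`pen2`, `pen_lab`). The vertices are different since any two of
them are joined by an edge. -/
theorem pen_face (h2 : H.TwoPlanar) (hT : H.Tight) (d : H.D) (hd : H.Unc d) :
    ∃ (v : Fin 5 → V) (b x y : Fin 5 → H.D), b 0 = d ∧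
    Function.Injective v ∧
    (∀ i, H.Unc (b i) ∧ H.src (b i) = v i ∧ H.tgt (b i) = v (i + 1)) ∧
    (∀ i, H.NextUnc (H.α (b i)) (b (i + 1))) ∧
    (∀ i, x i = H.σ (H.α (b i)) ∧ y i = H.σ (x i) ∧ H.σ (y i) = b (i + 1)) ∧
    (∀ i, ¬ H.Unc (x i) ∧ H.tgt (x i) = v (i + 4)) ∧
    (∀ i, ¬ H.Unc (y i) ∧ H.tgt (y i) = v (i + 3)) ∧
    (∀ i, H.Crosses (v i) (v (i + 2)) (v (i + 1)) (v (i + 3)) ∧
      H.Crosses (v i) (v (i + 2)) (v (i + 1)) (v (i + 4))) := by
  have e4 : ∀ i : Fin 5, i + 4 + 1 = i := by decide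
  have e3 : ∀ i : Fin 5, i + 3 + 2 = i := by decide
  have e31 : ∀ i : Fin 5, i + 3 + 1 = i + 4 := by decide
  have e43 : ∀ i : Fin 5, i + 4 + 3 = i + 2 := by decide
  have e33 : ∀ i : Fin 5, i + 3 + 3 = i + 1 := by decide
  have e42 : ∀ i : Fin 5, i + 4 + 2 = i + 1 := by decide
  have e12 : ∀ i : Fin 5, i + 1 + 1 = i + 2 := by decide
  have e13 : ∀ i : Fin 5, i + 1 + 2 = i + 3 := by decide
  refine ⟨fun i => H.src (H.pb d i), H.pb d, fun i => H.px (H.pb d i), fun i => H.py (H.pb d i),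
    rfl, ?_, ?_, ?_, ?_, ?_, ?_, ?_⟩
  · have k1 : ∀ i, H.src (H.pb d i) ≠ H.src (H.pb d (i + 1)) := by
      intro i
      rw [← H.tgt_pb h2 hT d hd i]
      exact H.src_ne_tgt _
    have k2 : ∀ i, H.src (H.pb d i) ≠ H.src (H.pb d (i + 2)) := by
      intro i
      have h3 := H.src_ne_tgt (H.py (H.pb d (i + 4)))
      rw [H.src_py_pb h2 hT d hd, H.tgt_py_pb h2 hT d hd, e4, e43] at h3
      exact h3
    intro i j hij
    by_contra hne
    have hall : ∀ i j : Fin 5, i ≠ j → j = i + 1 ∨ j = i + 2 ∨ i = j + 1 ∨ i = j + 2 := by decide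
    rcases hall i j hne with h | h | h | h
    · exact k1 i (by rw [← h]; exact hij)
    · exact k2 i (by rw [← h]; exact hij)
    · exact k1 j (by rw [← h]; exact hij.symm)
    · exact k2 j (by rw [← h]; exact hij.symm)
  · intro i
    exact ⟨H.unc_pb h2 hT d hd i, rfl, H.tgt_pb h2 hT d hd i⟩
  · intro i
    have hn := H.not_unc h2 hT _ (H.unc_pb h2 hT d hd i)
    refine ⟨3, by norm_num, ?_, H.unc_pb h2 hT d hd (i + 1), ?_⟩
    · rw [H.pb_succ h2 hT d hd i]
      rfl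
    · intro j hj1 hj2
      have : j = 1 ∨ j = 2 := by omega
      rcases this with rfl | rfl
      · exact hn.1
      · exact hn.2
  · intro i
    refine ⟨rfl, rfl, ?_⟩
    rw [H.pb_succ h2 hT d hd i]
    rfl
  · intro i
    refine ⟨(H.not_unc h2 hT _ (H.unc_pb h2 hT d hd i)).1, ?_⟩
    have h3 := H.tgt_px_pb h2 hT d hd (i + 3)
    rw [e3, e31] at h3
    exact h3
  · intro i
    exact ⟨(H.not_unc h2 hT _ (H.unc_pb h2 hT d hd i)).2, H.tgt_py_pb h2 hT d hd i⟩
  · intro i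
    constructor
    · refine ⟨H.α (H.px (H.pb d (i + 1))), ?_, ?_, ?_⟩
      · rw [H.pb_succ h2 hT d hd i]
        exact H.C_α_px h2 hT _ (H.unc_pb h2 hT d hd i)
      · have h3 := H.tgt_px_pb h2 hT d hd (i + 4)
        rw [e42, e4] at h3
        rw [H.src_α, tgt_α, h3, H.src_px_pb h2 hT d hd, e12]
      · have h3 : H.σ (H.α (H.px (H.pb d (i + 1)))) = H.α (H.py (H.pb d i)) := by
          rw [H.pb_succ h2 hT d hd i]
          exact (H.pen2 h2 hT _ (H.unc_pb h2 hT d hd i)).1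
        rw [h3, H.src_α, tgt_α, H.src_py_pb h2 hT d hd, H.tgt_py_pb h2 hT d hd]
        exact Sym2.eq_swap
    · refine ⟨H.α (H.py (H.pb d (i + 4))), ?_, ?_, ?_⟩
      · exact H.C_α_py h2 hT _ (H.unc_pb h2 hT d hd _)
      · rw [H.src_α, tgt_α, H.src_py_pb h2 hT d hd, H.tgt_py_pb h2 hT d hd, e4, e43]
        exact Sym2.eq_swap
      · rw [(H.pen2 h2 hT _ (H.unc_pb h2 hT d hd _)).2.1]
        have h3 := H.src_pg_pb h2 hT d hd (i + 3)
        have h4 := H.tgt_pg_pb h2 hT d hd (i + 3)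
        rw [e31] at h3 h4
        rw [h3, h4, e33]

/-- type `T1`: the dart before `d` in the rotation -/
theorem pen_py (h2 : H.TwoPlanar) (hT : H.Tight) (d : H.D) (hd : H.R d) (h3 : H.C (H.φ d))
    (h4 : H.C (H.φ (H.φ d))) : ∃ b, H.Unc b ∧ d = H.py b := by
  have e1 : H.φ (H.φ (H.φ d)) = d := hT.rc d hd h3
  have e2 : H.φ.symm d = H.φ (H.φ d) := by rw [Equiv.symm_apply_eq, e1]
  have e3 : H.α (H.φ (H.φ d)) = H.σ.symm d := by rw [← e2, α_φ_symm]
  have r1 : H.R (H.φ (H.φ (H.σ.symm d))) := by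
    rw [← e3]
    exact H.fr h2 _ (by rw [Equiv.symm_apply_apply]; exact h3) h4
  have r2 : H.R (H.σ.symm d) := by
    unfold R
    rw [vtx_σs]
    exact hd
  have c2 : H.C (H.φ (H.σ.symm d)) := by
    unfold C
    rw [vtx_φ, ← e3, αα]
    exact h4
  have e5 : H.φ (H.φ (H.φ (H.σ.symm d))) = H.σ.symm d := hT.rc _ r2 c2
  refine ⟨H.φ (H.φ (H.σ.symm d)), ⟨r1, ?_⟩, ?_⟩
  · rw [← vtx_φ, e5]
    exact r2
  · unfold py
    rw [px_eq, e5, Equiv.apply_symm_apply]

/-- Every vertex with a dart has an uncrossed dart: for `R d` one of `d`, `α (φ (φ d))`, `σ d` is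
uncrossed (`rc`, `t2`, `fl`). -/
theorem pen_spans (h2 : H.TwoPlanar) (hT : H.Tight) (d : H.D) (hd : H.R d) :
    ∃ d', H.vtx d' = H.vtx d ∧ H.Unc d' := by
  by_cases h3 : H.C (H.φ d)
  · have e1 : H.φ (H.φ (H.φ d)) = d := hT.rc d hd h3
    by_cases h4 : H.C (H.φ (H.φ d))
    · have c1 : H.C (H.α d) := by
        unfold C at h3 ⊢
        rwa [vtx_φ] at h3
      have r1 := H.fl h2 d h3 h4
      have r2 : H.R (H.φ (H.α d)) := by
        unfold R
        rw [vtx_φ_α]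
        exact hd
      have e2 := hT.cr _ c1 r2
      have e3 : H.φ.symm (H.α d) = H.φ (H.φ (H.α d)) := by rw [Equiv.symm_apply_eq, e2]
      rw [e3] at r1
      refine ⟨H.φ (H.α d), H.vtx_φ_α d, r2, ?_⟩
      unfold R at r1
      rwa [vtx_φ] at r1
    · refine ⟨H.α (H.φ (H.φ d)), ?_, ?_, ?_⟩
      · rw [← vtx_φ, e1]
      · rw [← vtx_φ, e1]
        exact hd
      · rw [αα]
        exact h4
  · refine ⟨d, rfl, hd, ?_⟩
    rw [← vtx_φ]
    exact h3

theorem pen_coverR (h2 : H.TwoPlanar) (hT : H.Tight) (d : H.D) (hd : H.R d) : ∃ b, H.Unc b ∧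
    (d = b ∨ d = H.px b ∨ d = H.py b) := by
  by_cases h3 : H.C (H.φ d)
  · have e1 : H.φ (H.φ (H.φ d)) = d := hT.rc d hd h3
    by_cases h4 : H.C (H.φ (H.φ d))
    · obtain ⟨b, hb, e⟩ := H.pen_py h2 hT d hd h3 h4
      exact ⟨b, hb, Or.inr (Or.inr e)⟩
    · refine ⟨H.φ (H.φ d), ⟨h4, ?_⟩, ?_⟩
      · rw [← vtx_φ, e1]
        exact hd
      · right; left
        rw [px_eq, e1]
  · refine ⟨d, ⟨hd, ?_⟩, Or.inl rfl⟩
    rw [← vtx_φ]
    exact h3

theorem pen_coverC (h2 : H.TwoPlanar) (hT : H.Tight) (d : H.D) (hd : H.C d) (hd' : H.C (H.φ d))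
    (h3 : H.R (H.φ (H.φ d))) : ∃ b, H.Unc b ∧ d = H.pg b := by
  have e1 := (hT.cc3 d hd hd' h3).1
  obtain ⟨b, hb, e⟩ := H.pen_py h2 hT (H.φ (H.φ d)) h3 (by rw [e1]; exact hd)
    (by rw [e1]; exact hd')
  refine ⟨b, hb, ?_⟩
  unfold pg
  rw [← e, e1]

/-- Every dart or its reverse is one of `b`, `px b`, `py b`, `pg b` for an uncrossed `b`. -/
theorem pen_cover (h2 : H.TwoPlanar) (hT : H.Tight) (d : H.D) : ∃ b, H.Unc b ∧
    ((d = b ∨ d = H.px b ∨ d = H.py b ∨ d = H.pg b) ∨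
      (H.α d = b ∨ H.α d = H.px b ∨ H.α d = H.py b ∨ H.α d = H.pg b)) := by
  by_cases h1 : H.C d
  · by_cases h3 : H.C (H.φ d)
    · by_cases h4 : H.C (H.φ (H.φ d))
      · have h5 := (hT.cc5 d h1 h3 h4).2.2.2
        have c1 : H.C (H.α d) := by
          unfold C at h3 ⊢
          rwa [vtx_φ] at h3
        have c2 : H.C (H.φ (H.α d)) := by
          unfold C at h1 ⊢
          rwa [vtx_φ_α]
        obtain ⟨b, hb, e⟩ := H.pen_coverC h2 hT _ c1 c2 h5
        exact ⟨b, hb, Or.inr (Or.inr (Or.inr (Or.inr e)))⟩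
      · obtain ⟨b, hb, e⟩ := H.pen_coverC h2 hT d h1 h3 h4
        exact ⟨b, hb, Or.inl (Or.inr (Or.inr (Or.inr e)))⟩
    · have r1 : H.R (H.α d) := by
        unfold R
        rw [← vtx_φ]
        exact h3
      obtain ⟨b, hb, e⟩ := H.pen_coverR h2 hT _ r1
      refine ⟨b, hb, Or.inr ?_⟩
      rcases e with e | e | e
      · exact Or.inl e
      · exact Or.inr (Or.inl e)
      · exact Or.inr (Or.inr (Or.inl e))
  · obtain ⟨b, hb, e⟩ := H.pen_coverR h2 hT d h1
    refine ⟨b, hb, Or.inl ?_⟩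
    rcases e with e | e | e
    · exact Or.inl e
    · exact Or.inr (Or.inl e)
    · exact Or.inr (Or.inr (Or.inl e))

/-- connected by uncrossed edges -/
def Con : V → V → Prop :=
  Relation.ReflTransGen (fun x y => ∃ d, H.vtx d = some x ∧ H.vtx (H.α d) = some y)

theorem Con.symm {x y : V} (h : H.Con x y) : H.Con y x := by
  unfold Con at h ⊢
  induction h with
  | refl => exact Relation.ReflTransGen.refl
  | tail _ hbc ih =>
    obtain ⟨d, h1, h2⟩ := hbc
    exact Relation.ReflTransGen.head ⟨H.α d, h2, by rw [αα]; exact h1⟩ ih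

theorem Con.trans {x y z : V} (h : H.Con x y) (h' : H.Con y z) : H.Con x z :=
  Relation.ReflTransGen.trans h h'

theorem con_unc (b : H.D) (hb : H.Unc b) : H.Con (H.src b) (H.tgt b) := by
  apply Relation.ReflTransGen.single
  obtain ⟨v, hv⟩ := Option.ne_none_iff_exists'.1 hb.1
  obtain ⟨w, hw⟩ := Option.ne_none_iff_exists'.1 hb.2
  refine ⟨b, ?_, ?_⟩
  · rw [hv, H.src_vtx _ _ hv]
  · rw [hw, ← H.src_α, H.src_vtx _ _ hw]

/-- all the labels of the pentagon of `b` are connected with `src b` -/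
theorem con_pen (h2 : H.TwoPlanar) (hT : H.Tight) (d : H.D) (hd : H.Unc d) (i : Fin 5) :
    H.Con (H.src d) (H.src (H.pb d i)) := by
  have step : ∀ i : Fin 5, H.Con (H.src (H.pb d i)) (H.src (H.pb d (i + 1))) := by
    intro i
    rw [← H.tgt_pb h2 hT d hd i]
    exact H.con_unc _ (H.unc_pb h2 hT d hd i)
  have k0 : H.Con (H.src d) (H.src (H.pb d 0)) := Relation.ReflTransGen.refl
  have k1 := Con.trans H k0 (step 0)
  have k2 := Con.trans H k1 (step 1)
  have k3 := Con.trans H k2 (step 2)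
  have k4 := Con.trans H k3 (step 3)
  fin_cases i
  · exact k0
  · exact k1
  · exact k2
  · exact k3
  · exact k4

theorem con_all (h2 : H.TwoPlanar) (hT : H.Tight) (b : H.D) (hb : H.Unc b) :
    (H.Con (H.src b) (H.tgt b)) ∧
    (H.Con (H.src b) (H.src (H.px b)) ∧ H.Con (H.src b) (H.tgt (H.px b))) ∧
    (H.Con (H.src b) (H.src (H.py b)) ∧ H.Con (H.src b) (H.tgt (H.py b))) ∧
    (H.Con (H.src b) (H.src (H.pg b)) ∧ H.Con (H.src b) (H.tgt (H.pg b))) := by
  have key := H.con_pen h2 hT b hb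
  have e0 : H.pb b 0 = b := rfl
  have f1 := H.src_px_pb h2 hT b hb 0
  have f2 := H.tgt_px_pb h2 hT b hb 3
  have f3 := H.src_py_pb h2 hT b hb 0
  have f4 := H.tgt_py_pb h2 hT b hb 0
  have f5 := H.src_pg_pb h2 hT b hb 4
  have f6 := H.tgt_pg_pb h2 hT b hb 4
  rw [show (3 : Fin 5) + 2 = 0 from rfl] at f2
  rw [show (4 : Fin 5) + 1 = 0 from rfl] at f5 f6
  rw [e0] at f1 f2 f3 f4 f5 f6
  rw [f1, f2, f3, f4, f5, f6]
  exact ⟨H.con_unc b hb, ⟨key _, key _⟩, ⟨key _, key _⟩, key _, key 0⟩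

theorem con_dart (h2 : H.TwoPlanar) (hT : H.Tight) (d : H.D) : H.Con (H.src d) (H.tgt d) := by
  have key : ∀ (b : H.D) (_ : H.Unc b) (e : H.D),
      (e = b ∨ e = H.px b ∨ e = H.py b ∨ e = H.pg b) → H.Con (H.src e) (H.tgt e) := by
    intro b hb e he
    obtain ⟨g1, ⟨g2, g3⟩, ⟨g4, g5⟩, g6, g7⟩ := H.con_all h2 hT b hb
    rcases he with rfl | rfl | rfl | rfl
    · exact g1
    · exact Con.trans H (Con.symm H g2) g3
    · exact Con.trans H (Con.symm H g4) g5
    · exact Con.trans H (Con.symm H g6) g7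
  obtain ⟨b, hb, h | h⟩ := H.pen_cover h2 hT d
  · exact key b hb d h
  · have := key b hb _ h
    rw [H.src_α, tgt_α] at this
    exact Con.symm H this

theorem exists_prev (h2 : H.TwoPlanar) (hT : H.Tight) (b : H.D) (hb : H.Unc b) :
    ∃ b', H.Unc b' ∧ H.nU b' = b :=
  ⟨H.nU (H.nU (H.nU (H.nU b))), H.unc_iter h2 hT b hb 4, H.nU_five h2 hT b hb⟩

theorem con_σ (h2 : H.TwoPlanar) (hT : H.Tight) (d : H.D) :
    H.Con (H.src d) (H.src (H.σ d)) := by
  by_cases hd : H.C d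
  · obtain ⟨b, hb, h⟩ := H.pen_cover h2 hT d
    have g := H.con_all h2 hT b hb
    have p1 := (H.pen1 h2 hT b hb).1.1
    have p2 := (H.pen1 h2 hT b hb).2.1.1
    rcases h with (h | h | h | h) | h | h | h | h
    · rw [h] at hd
      exact absurd hd hb.1
    · rw [h] at hd
      exact absurd hd p1
    · rw [h] at hd
      exact absurd hd p2
    · rw [h, (H.pen2 h2 hT b hb).2.2.1, H.src_α]
      have hb1 := H.unc_nU h2 hT b hb
      have g' := H.con_all h2 hT _ hb1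
      have e1 : H.Con (H.src b) (H.src (H.nU b)) := by
        rw [(H.src_nU b hb).2.2]
        exact g.1
      exact Con.trans H (Con.symm H g.2.2.2.1) (Con.trans H e1 g'.2.2.2.2)
    · have h5 := congrArg H.α h
      rw [αα] at h5
      rw [h5] at hd
      exact absurd hd hb.2
    · have h5 := congrArg H.α h
      rw [αα] at h5
      obtain ⟨b', hb', e⟩ := H.exists_prev h2 hT b hb
      have g' := H.con_all h2 hT b' hb'
      have e1 : H.Con (H.src b') (H.src b) := by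
        rw [← e, (H.src_nU b' hb').2.2]
        exact g'.1
      have h6 := (H.pen2 h2 hT b' hb').1
      rw [e] at h6
      rw [h5, h6, H.src_α, H.src_α]
      exact Con.trans H (Con.symm H (Con.trans H e1 g.2.1.2)) g'.2.2.1.2
    · have h5 := congrArg H.α h
      rw [αα] at h5
      rw [h5, (H.pen2 h2 hT b hb).2.1, H.src_α]
      exact Con.trans H (Con.symm H g.2.2.1.2) g.2.2.2.1
    · have h5 := congrArg H.α h
      rw [αα] at h5
      obtain ⟨b', hb', e⟩ := H.exists_prev h2 hT b hb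
      have h6 := (H.pen2 h2 hT b' hb').2.2.2.1
      rw [e] at h6
      rw [h5, h6, H.src_α, H.src_α]
      exact Con.trans H (Con.symm H g.2.2.2.2) g.2.1.2
  · obtain ⟨v, hv⟩ := Option.ne_none_iff_exists'.1 hd
    have hv' : H.vtx (H.σ d) = some v := by rw [H.vtx_σ, hv]
    rw [H.src_vtx _ _ hv, H.src_vtx _ _ hv']
    exact Relation.ReflTransGen.refl

/-- Let `x ~ y` if `x` and `y` are connected by uncrossed edges (an equivalence relation). Then
`src d ~ tgt d` and `src (σ d) ~ src d` for all darts (`pen_cover`, `pen_lab`), so `src d ~ src d'` for all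
darts of a component. -/
theorem pen_conn (h2 : H.TwoPlanar) (hT : H.Tight) (hc : ncomp H.σ H.α = 1)
    (hv : ∀ v, ∃ d, H.vtx d = some v) (v w : V) :
    Relation.ReflTransGen (fun x y => ∃ d, H.vtx d = some x ∧ H.vtx (H.α d) = some y) v w := by
  change H.Con v w
  obtain ⟨d, hd⟩ := hv v
  obtain ⟨d', hd'⟩ := hv w
  rw [← H.src_vtx _ _ hd, ← H.src_vtx _ _ hd']
  have hs := (Nat.card_eq_one_iff_unique.1 hc).1
  have hq := hs.elim (Quotient.mk _ d) (Quotient.mk _ d')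
  have ho : (MulAction.orbitRel (Subgroup.closure ({H.σ, H.α} : Set (Perm H.D))) H.D) d d' :=
    Quotient.exact hq
  rw [MulAction.orbitRel_apply] at ho
  obtain ⟨⟨g, hg⟩, hgd⟩ := ho
  have key : ∀ g ∈ Subgroup.closure ({H.σ, H.α} : Set (Perm H.D)), ∀ e : H.D,
      H.Con (H.src e) (H.src (g e)) := by
    intro g hg
    induction hg using Subgroup.closure_induction with
    | mem x hx =>
      intro e
      rcases hx with rfl | hx
      · exact H.con_σ h2 hT e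
      · rw [Set.mem_singleton_iff] at hx
        rw [hx, H.src_α]
        exact H.con_dart h2 hT e
    | one => exact fun e => Relation.ReflTransGen.refl
    | mul x y _ _ hx hy => exact fun e => Con.trans H (hy e) (hx (y e))
    | inv x _ hx =>
      intro e
      have := hx (x⁻¹ e)
      rw [show x (x⁻¹ e) = e from Equiv.apply_symm_apply x e] at this
      exact Con.symm H this
  have h3 := key g hg d'
  have h4 : g d' = d := hgd
  rw [h4] at h3
  exact Con.symm H h3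

theorem pentagon_of_tight (h2 : H.TwoPlanar) (hT : H.Tight) (hc : ncomp H.σ H.α = 1)
    (hv : ∀ v, ∃ d, H.vtx d = some v) : H.PentagonStructure where
  spans := by
    intro v
    obtain ⟨d, hd⟩ := hv v
    obtain ⟨d', h1, h3⟩ := H.pen_spans h2 hT d (by rw [R, hd]; exact Option.some_ne_none v)
    exact ⟨d', h1.trans hd, h3⟩
  conn := H.pen_conn h2 hT hc hv
  face := H.pen_face h2 hT

end Drawing

end TwoPl
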