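import Pool.Agent.H99.TP.Smo

/-!
# SMOC: components after smoothing
-/

namespace TwoPl

open Equiv Function

variable {D : Type} [DecidableEq D]

theorem smoC_three {σ α : Perm D} {a : D} (h : Smo σ α a) : σ (σ (σ a)) ≠ a := by
  intro h'
  have h1 := h.four
  rw [h'] at h1
  exact h.n1 h1

theorem smoC_ρ1 (σ : Perm D) (a : D) : sρ σ a a = σ (σ (σ a)) := by
  unfold sρ
  rw [if_pos rfl]

theorem smoC_ρ2 {σ α : Perm D} {a : D} (h : Smo σ α a) : sρ σ a (σ a) = σ (σ a) := by
  unfold sρ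
  rw [if_neg h.n1, if_neg, if_pos rfl]
  intro h'
  exact h.n2 (σ.injective h').symm

/-- representative outside `S` -/
def smoC_rep {σ α : Perm D} {a : D} (h : Smo σ α a) (y : D) : sD σ a :=
  if hy : y ∈ sS σ a then ⟨α y, h.out y hy⟩ else ⟨y, hy⟩

theorem smoC_rep_pos {σ α : Perm D} {a : D} (h : Smo σ α a) {y : D} (hy : y ∈ sS σ a) :
    smoC_rep h y = ⟨α y, h.out y hy⟩ := by
  unfold smoC_rep
  rw [dif_pos hy]

theorem smoC_rep_neg {σ α : Perm D} {a : D} (h : Smo σ α a) {y : D} (hy : y ∉ sS σ a) :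
    smoC_rep h y = ⟨y, hy⟩ := by
  unfold smoC_rep
  rw [dif_neg hy]

/-- Components: if `α a` and `α (σ a)` are connected in the new map, the map which replaces `s ∈ S`
by `α s` and fixes the other darts maps connected darts to connected darts. -/
theorem ncomp_le [Fintype D] {σ α : Perm D} {a : D} (h : Smo σ α a) (h1 : α a ∉ sS σ a)
    (h2 : α (σ a) ∉ sS σ a)
    (hc : (⟨α a, h1⟩ : sD σ a) ∈ MulAction.orbit (Subgroup.closure ({sσ h, sα h} : Set (Perm (sD σ a))))
      (⟨α (σ a), h2⟩ : sD σ a)) :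
    ncomp (sσ h) (sα h) ≤ ncomp σ α := by
  classical
  unfold ncomp
  set Γ' := Subgroup.closure ({sσ h, sα h} : Set (Perm (sD σ a))) with hΓ'
  set Γ := Subgroup.closure ({σ, α} : Set (Perm D)) with hΓ
  let m : sD σ a → Quotient (MulAction.orbitRel Γ' (sD σ a)) := Quotient.mk _
  have mσ : ∀ y, m (sσ h y) = m y := by
    intro y
    refine Quotient.sound ?_
    show sσ h y ∈ MulAction.orbit Γ' y
    exact ⟨⟨sσ h, Subgroup.subset_closure (by simp)⟩, rfl⟩
  have mα : ∀ y, m (sα h y) = m y := by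
    intro y
    refine Quotient.sound ?_
    show sα h y ∈ MulAction.orbit Γ' y
    exact ⟨⟨sα h, Subgroup.subset_closure (by simp)⟩, rfl⟩
  have mc : m ⟨α a, h1⟩ = m ⟨α (σ a), h2⟩ := Quotient.sound hc
  have s0 : a ∈ sS σ a := mem_sS.2 (Or.inl rfl)
  have s1 : σ a ∈ sS σ a := mem_sS.2 (Or.inr (Or.inl rfl))
  have s2 : σ (σ a) ∈ sS σ a := mem_sS.2 (Or.inr (Or.inr (Or.inl rfl)))
  have s3 : σ (σ (σ a)) ∈ sS σ a := mem_sS.2 (Or.inr (Or.inr (Or.inr rfl)))
  have m3 : m ⟨α (σ (σ (σ a))), h.out _ s3⟩ = m ⟨α a, h1⟩ := by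
    have e : sα h ⟨α a, h1⟩ = ⟨α (σ (σ (σ a))), h.out _ s3⟩ := by
      refine Subtype.ext ?_
      show sαf σ α a (α a) = _
      unfold sαf
      rw [h.αα, if_pos s0, smoC_ρ1]
    rw [← e, mα]
  have m2 : m ⟨α (σ (σ a)), h.out _ s2⟩ = m ⟨α (σ a), h2⟩ := by
    have e : sα h ⟨α (σ a), h2⟩ = ⟨α (σ (σ a)), h.out _ s2⟩ := by
      refine Subtype.ext ?_
      show sαf σ α a (α (σ a)) = _
      unfold sαf
      rw [h.αα, if_pos s1, smoC_ρ2 h]
    rw [← e, mα]
  have mS : ∀ (s : D) (hs : s ∈ sS σ a), m ⟨α s, h.out s hs⟩ = m ⟨α a, h1⟩ := by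
    intro s hs
    rcases mem_sS.1 hs with rfl | rfl | rfl | rfl
    · rfl
    · exact mc.symm
    · rw [m2]
      exact mc.symm
    · exact m3
  have rσ : ∀ y, m (smoC_rep h (σ y)) = m (smoC_rep h y) := by
    intro y
    by_cases hy : y ∈ sS σ a
    · have hy' := (sS_σ h y).2 hy
      rw [smoC_rep_pos h hy, smoC_rep_pos h hy', mS _ hy, mS _ hy']
    · have hy' : σ y ∉ sS σ a := fun hc => hy ((sS_σ h y).1 hc)
      rw [smoC_rep_neg h hy, smoC_rep_neg h hy']
      exact mσ ⟨y, hy⟩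
  have rα : ∀ y, m (smoC_rep h (α y)) = m (smoC_rep h y) := by
    intro y
    by_cases hy : y ∈ sS σ a
    · rw [smoC_rep_pos h hy, smoC_rep_neg h (h.out y hy)]
    · rw [smoC_rep_neg h hy]
      by_cases hy' : α y ∈ sS σ a
      · rw [smoC_rep_pos h hy']
        congr 1
        exact Subtype.ext (h.αα y)
      · rw [smoC_rep_neg h hy']
        have e : sα h ⟨y, hy⟩ = ⟨α y, hy'⟩ := by
          refine Subtype.ext ?_
          show sαf σ α a y = _
          unfold sαf
          rw [if_neg hy']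
        rw [← e, mα]
  have rg : ∀ g ∈ Γ, ∀ y, m (smoC_rep h (g y)) = m (smoC_rep h y) := by
    intro g hg
    induction hg using Subgroup.closure_induction with
    | mem x hx =>
      rcases hx with rfl | hx
      · exact rσ
      · rw [Set.mem_singleton_iff.1 hx]
        exact rα
    | one => intro y; rfl
    | mul x y _ _ hx hy =>
      intro z
      rw [Perm.mul_apply, hx, hy]
    | inv x _ hx =>
      intro z
      have := hx (x⁻¹ z)
      rw [← Perm.mul_apply, mul_inv_cancel, Perm.one_apply] at this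
      exact this.symm
  let F : Quotient (MulAction.orbitRel Γ D) → Quotient (MulAction.orbitRel Γ' (sD σ a)) :=
    Quotient.lift (fun y => m (smoC_rep h y)) (by
      rintro y z ⟨⟨g, hg⟩, hgz⟩
      have : g z = y := hgz
      show m (smoC_rep h y) = m (smoC_rep h z)
      rw [← this]
      exact rg g hg z)
  refine Nat.card_le_card_of_surjective F ?_
  intro q
  obtain ⟨y, rfl⟩ := Quotient.exists_rep q
  refine ⟨Quotient.mk _ (y : D), ?_⟩
  show m (smoC_rep h (y : D)) = m y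
  rw [smoC_rep_neg h y.2]

end TwoPl
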