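import Pool.Agent.H99.TP.SmoF
import Pool.Agent.H99.TP.SmoC

/-!
# SMOS: Euler's inequality is preserved by smoothing
-/

namespace TwoPl

open Equiv Function

variable {D : Type} [DecidableEq D]

theorem smo_sph [Fintype D] {σ α : Perm D} {a : D} (h : Smo σ α a) (h1 : α a ∉ sS σ a)
    (h2 : α (σ a) ∉ sS σ a)
    (hc : (⟨α a, h1⟩ : sD σ a) ∈ MulAction.orbit (Subgroup.closure ({sσ h, sα h} : Set (Perm (sD σ a))))
      (⟨α (σ a), h2⟩ : sD σ a))
    (hs : Fintype.card D + 4 * ncomp σ α ≤ 2 * ncyc σ + 2 * ncyc (σ * α)) :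
    Fintype.card (sD σ a) + 4 * ncomp (sσ h) (sα h) ≤
      2 * ncyc (sσ h) + 2 * ncyc (sσ h * sα h) := by
  have e1 := card_sD h
  have e2 := ncyc_σ h
  have e3 := ncyc_φ h
  have e4 := ncomp_le h h1 h2 hc
  omega

end TwoPl
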