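import Pool.Agent.H99.TP.Req
import Pool.Agent.H99.TP.SmoS

/-!
# SMB: a triangle with three crossings next to a triangle with one vertex

`T0 g` with corners `x, y, z` (`g : x → y`, `φ g : y → z`, `φ² g : z → x`), `Tc (α g)`:
`α g : y → x`, `σ g = φ (α g) : x → v`, `k = φ² (α g) : v → y`, `φ k = α g`.
The edge `e` through `x`: `p0 = α (σ g) : v → x`, `p1 = σ³ g = α (φ² g) : x → z`, then `d`.
The edge `f` through `y`: `q0 = k : v → y`, `q1 = φ g : y → z`, then `c`.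
At `z`: `a = α (φ g)`, `b = σ a = φ² g`, `c = σ² a`, `d = σ³ a`. Both edges have exactly two crossings
(`cc_real`), so `α c`, `α d` start at vertices. Smoothing `z`: `α' q1 = α d`, `α' p1 = α c`.

The new drawing has the darts `sD H.σ a`, `σ' = sσ`, `α' = sα`, `vtx' = vtx`,
`tgt' = tgt (α d)`-side: `tgt' p0 = tgt' p1 = tgt q0`, `tgt' q0 = tgt' q1 = tgt p0`,
`src' (α p0) = tgt q0`, `src' (α q0) = tgt p0`, `src'`, `tgt'` unchanged otherwise,
`pos' (α p0) = pos' (α q0) = 1`, `pos'` unchanged otherwise.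
* `tgt p0 ≠ tgt q0` by `transv` at `z`; the edge of `g` is different from `e` and `f` (`transv` at `x`
  and `y`), this gives `transv` of the new drawing at `x` and `y`.
* connectivity: `q1 ~ α q0 ~ q0 ~ p0 ~ α p0 ~ p1` (`rot` for `q0`, `p0`).
* the new edge with the initial segment `p0` has exactly one crossing.
-/

namespace TwoPl

open Equiv Function

namespace Drawing

variable {V : Type} {G : SimpleGraph V} (H : Drawing G)

/-- The configuration. -/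
structure SmBCfg (p0 p1 q0 q1 a b c d : H.D) (v te tf : V) : Prop where
  σp0 : H.σ p0 = q0
  ssp0 : H.σ (H.σ (H.α p0)) = p1
  ssp1 : H.σ (H.σ p1) = H.α p0
  ssq0 : H.σ (H.σ (H.α q0)) = q1
  ssq1 : H.σ (H.σ q1) = H.α q0
  αq1 : H.α q1 = a
  αp1 : H.α p1 = b
  σa : H.σ a = b
  σb : H.σ b = c
  σc : H.σ c = d
  σd : H.σ d = a
  Rp0 : H.R p0
  Rq0 : H.R q0
  Cαp0 : H.C (H.α p0)
  Cαq0 : H.C (H.α q0)
  Cp1 : H.C p1
  Cq1 : H.C q1
  Ca : H.C a
  Cb : H.C b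
  Cc : H.C c
  Cd : H.C d
  Rαc : H.R (H.α c)
  Rαd : H.R (H.α d)
  vp0 : H.src p0 = v ∧ H.tgt p0 = te ∧ H.pos p0 = 0
  vp1 : H.src p1 = v ∧ H.tgt p1 = te ∧ H.pos p1 = 1
  vd : H.src d = v ∧ H.tgt d = te ∧ H.pos d = 2
  vαp0 : H.src (H.α p0) = te ∧ H.tgt (H.α p0) = v ∧ H.pos (H.α p0) = 2
  vb : H.src b = te ∧ H.tgt b = v ∧ H.pos b = 1
  vαd : H.src (H.α d) = te ∧ H.tgt (H.α d) = v ∧ H.pos (H.α d) = 0
  vq0 : H.src q0 = v ∧ H.tgt q0 = tf ∧ H.pos q0 = 0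
  vq1 : H.src q1 = v ∧ H.tgt q1 = tf ∧ H.pos q1 = 1
  vc : H.src c = v ∧ H.tgt c = tf ∧ H.pos c = 2
  vαq0 : H.src (H.α q0) = tf ∧ H.tgt (H.α q0) = v ∧ H.pos (H.α q0) = 2
  va : H.src a = tf ∧ H.tgt a = v ∧ H.pos a = 1
  vαc : H.src (H.α c) = tf ∧ H.tgt (H.α c) = v ∧ H.pos (H.α c) = 0
  ne : te ≠ tf
  nev : v ≠ te
  nfv : v ≠ tf
  lp1 : s(H.src (H.σ p1), H.tgt (H.σ p1)) ≠ s(v, tf)
  lαp0 : s(H.src (H.σ (H.α p0)), H.tgt (H.σ (H.α p0))) ≠ s(v, tf)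
  lq1 : s(H.src (H.σ q1), H.tgt (H.σ q1)) ≠ s(v, te)
  lαq0 : s(H.src (H.σ (H.α q0)), H.tgt (H.σ (H.α q0))) ≠ s(v, te)

theorem smB_cfg (h2 : H.TwoPlanar) (g : H.D) (h : H.T0 g) (h' : H.Tc (H.α g)) :
    ∃ p0 p1 q0 q1 a b c d v te tf, H.SmBCfg p0 p1 q0 q1 a b c d v te tf := by
  obtain ⟨t1, t2, t3, t4⟩ := h
  obtain ⟨u1, u2, u3, u4⟩ := h'
  -- names
  have e1 : H.φ (H.α g) = H.σ g := H.φ_α g
  rw [e1] at u2 u3 u4
  obtain ⟨p0, hp0⟩ : ∃ p0, p0 = H.α (H.σ g) := ⟨_, rfl⟩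
  obtain ⟨q0, hq0⟩ : ∃ q0, q0 = H.φ (H.σ g) := ⟨_, rfl⟩
  have αp0 : H.α p0 = H.σ g := by rw [hp0, αα]
  have σp0 : H.σ p0 = q0 := by rw [hp0, hq0, φ_apply]
  rw [← hq0] at u3 u4
  obtain ⟨q1, hq1⟩ : ∃ q1, q1 = H.φ g := ⟨_, rfl⟩
  obtain ⟨b, hb⟩ : ∃ b, b = H.φ (H.φ g) := ⟨_, rfl⟩
  obtain ⟨a, ha⟩ : ∃ a, a = H.α q1 := ⟨_, rfl⟩
  obtain ⟨p1, hp1⟩ : ∃ p1, p1 = H.α b := ⟨_, rfl⟩
  rw [← hb] at t3 t4
  rw [← hq1] at hb t2
  have σa : H.σ a = b := by rw [ha, hb, φ_apply]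
  have αp1 : H.α p1 = b := by rw [hp1, αα]
  have σp1 : H.σ p1 = g := by rw [hp1, ← φ_apply, t4]
  have four_g := H.four g t1
  have Cb : H.C b := t3
  have Ca : H.C a := by
    have := H.vtx_σ a
    rw [σa] at this
    exact this.symm.trans Cb
  have Cp1 : H.C p1 := by
    have := H.vtx_σ p1
    rw [σp1] at this
    exact this.symm.trans t1
  have Cq1 : H.C q1 := t2
  have Cαp0 : H.C (H.α p0) := by
    rw [αp0]
    exact (H.vtx_σ g).trans t1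
  have σαq0 : H.σ (H.α q0) = H.α g := by rw [← φ_apply, u4]
  have Cαq0 : H.C (H.α q0) := by
    have := H.vtx_σ (H.α q0)
    rw [σαq0] at this
    exact this.symm.trans u1
  have σαg : H.σ (H.α g) = q1 := by rw [hq1, φ_apply]
  have ssq0 : H.σ (H.σ (H.α q0)) = q1 := by rw [σαq0, σαg]
  have ssp1 : H.σ (H.σ p1) = H.α p0 := by rw [σp1, αp0]
  have ssp0 : H.σ (H.σ (H.α p0)) = p1 := by
    rw [← ssp1]
    exact H.four p1 Cp1
  have ssq1 : H.σ (H.σ q1) = H.α q0 := by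
    rw [← ssq0]
    exact H.four _ Cαq0
  obtain ⟨c, hc⟩ : ∃ c, c = H.σ b := ⟨_, rfl⟩
  obtain ⟨d, hd⟩ : ∃ d, d = H.σ c := ⟨_, rfl⟩
  have σd : H.σ d = a := by
    rw [hd, hc, ← σa]
    exact H.four a Ca
  have Cc : H.C c := by rw [hc]; exact (H.vtx_σ b).trans Cb
  have Cd : H.C d := by rw [hd]; exact (H.vtx_σ c).trans Cc
  have Rq0 : H.R q0 := u3
  have Rp0 : H.R p0 := by
    intro hcon
    apply Rq0
    rw [← σp0]
    exact (H.vtx_σ p0).trans hcon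
  -- values on the first edge
  have ssb : H.σ (H.σ (H.α p1)) = d := by rw [αp1, ← hc, ← hd]
  have ssd : H.σ (H.σ d) = b := by rw [σd, σa]
  have sp1 := H.cont p0 Cαp0
  rw [ssp0] at sp1
  have pp0 := H.pos_real p0 Rp0
  have pp1 := H.pos_step p0 Cαp0
  rw [ssp0, pp0] at pp1
  have Cαp1 : H.C (H.α p1) := by rw [αp1]; exact Cb
  have sd := H.cont p1 Cαp1
  have pd := H.pos_step p1 Cαp1
  rw [ssb] at sd pd
  rw [pp1] at pd
  have Rαd : H.R (H.α d) := by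
    intro hcon
    have h5 := H.pos_step d hcon
    have h6 := h2 (H.σ (H.σ (H.α d)))
    omega
  have pαd := H.pos_real _ Rαd
  have pb := H.pos_step (H.α d) (by rw [αα]; exact Cd)
  rw [αα, ssd, pαd] at pb
  have pαp0 := H.pos_step b (by rw [hp1] at Cp1; exact Cp1)
  rw [← hp1, ssp1, pb] at pαp0
  -- values on the second edge
  have ssa : H.σ (H.σ (H.α q1)) = c := by rw [← ha, σa, ← hc]
  have ssc : H.σ (H.σ c) = a := by rw [← hd, σd]
  have sq1 := H.cont q0 Cαq0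
  rw [ssq0] at sq1
  have pq0 := H.pos_real q0 Rq0
  have pq1 := H.pos_step q0 Cαq0
  rw [ssq0, pq0] at pq1
  have Cαq1 : H.C (H.α q1) := by rw [← ha]; exact Ca
  have sc := H.cont q1 Cαq1
  have pc := H.pos_step q1 Cαq1
  rw [ssa] at sc pc
  rw [pq1] at pc
  have Rαc : H.R (H.α c) := by
    intro hcon
    have h5 := H.pos_step c hcon
    have h6 := h2 (H.σ (H.σ (H.α c)))
    omega
  have pαc := H.pos_real _ Rαc
  have pa := H.pos_step (H.α c) (by rw [αα]; exact Cc)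
  rw [αα, ssc, pαc] at pa
  have αa : H.α a = q1 := by rw [ha, αα]
  have pαq0 := H.pos_step a (by rw [αa]; exact Cq1)
  rw [αa, ssq1, pa] at pαq0
  -- the common vertex
  have hv : H.src q0 = H.src p0 := by
    obtain ⟨w, hw⟩ := Option.ne_none_iff_exists'.1 Rp0
    have hw2 : H.vtx q0 = some w := by rw [← σp0, H.vtx_σ]; exact hw
    rw [H.src_vtx _ _ hw, H.src_vtx _ _ hw2]
  have srcb : H.src b = H.tgt p0 := by rw [← αp1, src_α, sp1.2]
  have tgtb : H.tgt b = H.src p0 := by rw [← αp1, tgt_α, sp1.1]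
  have srca : H.src a = H.tgt q0 := by rw [ha, src_α, sq1.2]
  have tgta : H.tgt a = H.src p0 := by rw [ha, tgt_α, sq1.1, hv]
  have hne : H.tgt p0 ≠ H.tgt q0 := by
    intro hcon
    have h7 := H.transv a Ca
    rw [σa, srcb, tgtb, srca, tgta, hcon] at h7
    exact h7 rfl
  -- labels
  have lg : s(H.src (H.α g), H.tgt (H.α g)) = s(H.src g, H.tgt g) := by
    rw [src_α, tgt_α, Sym2.eq_swap]
  have lgg : s(H.src (H.σ (H.σ g)), H.tgt (H.σ (H.σ g))) = s(H.src g, H.tgt g) := by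
    obtain ⟨x1, x2⟩ := H.straight g t1
    rw [x1, x2, Sym2.eq_swap]
  have lagg : s(H.src (H.σ (H.σ (H.α g))), H.tgt (H.σ (H.σ (H.α g)))) =
      s(H.src g, H.tgt g) := by
    obtain ⟨x1, x2⟩ := H.straight (H.α g) u1
    rw [x1, x2, tgt_α, src_α]
  have tx : s(H.src p0, H.tgt p0) ≠ s(H.src g, H.tgt g) := by
    have h7 := H.transv g t1
    rw [← αp0, src_α, tgt_α, Sym2.eq_swap] at h7
    exact h7
  have ty : s(H.src p0, H.tgt q0) ≠ s(H.src g, H.tgt g) := by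
    have h7 := H.transv (H.α g) u1
    rw [σαg, sq1.1, sq1.2, hv, lg] at h7
    exact h7
  refine ⟨p0, p1, q0, q1, a, b, c, d, H.src p0, H.tgt p0, H.tgt q0, ?_⟩
  exact
    { σp0 := σp0
      ssp0 := ssp0
      ssp1 := ssp1
      ssq0 := ssq0
      ssq1 := ssq1
      αq1 := ha.symm
      αp1 := αp1
      σa := σa
      σb := hc.symm
      σc := hd.symm
      σd := σd
      Rp0 := Rp0
      Rq0 := Rq0
      Cαp0 := Cαp0
      Cαq0 := Cαq0
      Cp1 := Cp1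
      Cq1 := Cq1
      Ca := Ca
      Cb := Cb
      Cc := Cc
      Cd := Cd
      Rαc := Rαc
      Rαd := Rαd
      vp0 := ⟨rfl, rfl, pp0⟩
      vp1 := ⟨sp1.1, sp1.2, pp1⟩
      vd := ⟨sd.1.trans sp1.1, sd.2.trans sp1.2, pd⟩
      vαp0 := ⟨H.src_α p0, H.tgt_α p0, pαp0⟩
      vb := ⟨srcb, tgtb, pb⟩
      vαd := ⟨(H.src_α d).trans (sd.2.trans sp1.2), (H.tgt_α d).trans (sd.1.trans sp1.1), pαd⟩
      vq0 := ⟨hv, rfl, pq0⟩
      vq1 := ⟨sq1.1.trans hv, sq1.2, pq1⟩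
      vc := ⟨sc.1.trans (sq1.1.trans hv), sc.2.trans sq1.2, pc⟩
      vαq0 := ⟨H.src_α q0, (H.tgt_α q0).trans hv, pαq0⟩
      va := ⟨srca, tgta, pa⟩
      vαc := ⟨(H.src_α c).trans (sc.2.trans sq1.2), (H.tgt_α c).trans (sc.1.trans (sq1.1.trans hv)), pαc⟩
      ne := hne
      nev := H.src_ne_tgt p0
      nfv := by rw [← hv]; exact H.src_ne_tgt q0
      lp1 := by rw [σp1]; exact ty.symm
      lαp0 := by rw [αp0, lgg]; exact ty.symm
      lq1 := by rw [← σαg, lagg]; exact tx.symm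
      lαq0 := by rw [σαq0, lg]; exact tx.symm }

section New

variable {H} {p0 p1 q0 q1 a b c d : H.D} {v te tf : V}

variable (p0 p1 q0 q1 te tf) in
/-- the new target -/
def smBT (y : H.D) : V :=
  if y = p0 ∨ y = p1 then tf else if y = q0 ∨ y = q1 then te else H.tgt y

variable (p0 q0 te tf) in
/-- the new source -/
def smBS (y : H.D) : V := if y = H.α p0 then tf else if y = H.α q0 then te else H.src y

variable (p0 q0) in
/-- the new position -/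
def smBP (y : H.D) : ℕ := if y = H.α p0 ∨ y = H.α q0 then 1 else H.pos y

namespace SmBCfg

theorem T_p0 : smBT p0 p1 q0 q1 te tf p0 = tf := by
  unfold smBT
  rw [if_pos (Or.inl rfl)]

theorem T_p1 : smBT p0 p1 q0 q1 te tf p1 = tf := by
  unfold smBT
  rw [if_pos (Or.inr rfl)]

theorem T_q0 (K : H.SmBCfg p0 p1 q0 q1 a b c d v te tf) :
    smBT p0 p1 q0 q1 te tf q0 = te := by
  unfold smBT
  rw [if_neg, if_pos (Or.inl rfl)]
  rintro (h | h)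
  · have := K.vq0.2.1
    rw [h, K.vp0.2.1] at this
    exact K.ne this
  · have := K.vq0.2.1
    rw [h, K.vp1.2.1] at this
    exact K.ne this

theorem T_q1 (K : H.SmBCfg p0 p1 q0 q1 a b c d v te tf) :
    smBT p0 p1 q0 q1 te tf q1 = te := by
  unfold smBT
  rw [if_neg, if_pos (Or.inr rfl)]
  rintro (h | h)
  · have := K.vq1.2.1
    rw [h, K.vp0.2.1] at this
    exact K.ne this
  · have := K.vq1.2.1
    rw [h, K.vp1.2.1] at this
    exact K.ne this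

theorem T_ne {y : H.D} (h1 : y ≠ p0) (h2 : y ≠ p1) (h3 : y ≠ q0) (h4 : y ≠ q1) :
    smBT p0 p1 q0 q1 te tf y = H.tgt y := by
  unfold smBT
  rw [if_neg (by rintro (h | h) <;> contradiction), if_neg (by rintro (h | h) <;> contradiction)]

/-- darts which end at `v` -/
theorem T_v (K : H.SmBCfg p0 p1 q0 q1 a b c d v te tf) {y : H.D} (h : H.tgt y = v) :
    smBT p0 p1 q0 q1 te tf y = v := by
  rw [T_ne, h]
  · rintro rfl; exact K.nev (h.symm.trans K.vp0.2.1)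
  · rintro rfl; exact K.nev (h.symm.trans K.vp1.2.1)
  · rintro rfl; exact K.nfv (h.symm.trans K.vq0.2.1)
  · rintro rfl; exact K.nfv (h.symm.trans K.vq1.2.1)

theorem S_αp0 : smBS p0 q0 te tf (H.α p0) = tf := by
  unfold smBS
  rw [if_pos rfl]

theorem S_αq0 (K : H.SmBCfg p0 p1 q0 q1 a b c d v te tf) :
    smBS p0 q0 te tf (H.α q0) = te := by
  unfold smBS
  rw [if_neg, if_pos rfl]
  intro h
  have := K.vαq0.1
  rw [h, K.vαp0.1] at this
  exact K.ne this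

theorem S_ne {y : H.D} (h1 : y ≠ H.α p0) (h2 : y ≠ H.α q0) :
    smBS p0 q0 te tf y = H.src y := by
  unfold smBS
  rw [if_neg h1, if_neg h2]

/-- darts which start at `v` -/
theorem S_v (K : H.SmBCfg p0 p1 q0 q1 a b c d v te tf) {y : H.D} (h : H.src y = v) :
    smBS p0 q0 te tf y = v := by
  rw [S_ne, h]
  · rintro rfl; exact K.nev (h.symm.trans K.vαp0.1)
  · rintro rfl; exact K.nfv (h.symm.trans K.vαq0.1)

/-- vertices -/
theorem S_R (K : H.SmBCfg p0 p1 q0 q1 a b c d v te tf) {y : H.D} (h : H.R y) :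
    smBS p0 q0 te tf y = H.src y := by
  apply S_ne
  · rintro rfl; exact h K.Cαp0
  · rintro rfl; exact h K.Cαq0

theorem P_αp0 : smBP p0 q0 (H.α p0) = 1 := by
  unfold smBP
  rw [if_pos (Or.inl rfl)]

theorem P_αq0 : smBP p0 q0 (H.α q0) = 1 := by
  unfold smBP
  rw [if_pos (Or.inr rfl)]

theorem P_ne {y : H.D} (h1 : y ≠ H.α p0) (h2 : y ≠ H.α q0) :
    smBP p0 q0 y = H.pos y := by
  unfold smBP
  rw [if_neg (by rintro (h | h) <;> contradiction)]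

theorem P_R (K : H.SmBCfg p0 p1 q0 q1 a b c d v te tf) {y : H.D} (h : H.R y) :
    smBP p0 q0 y = 0 := by
  rw [P_ne, H.pos_real y h]
  · rintro rfl; exact h K.Cαp0
  · rintro rfl; exact h K.Cαq0

theorem mem (K : H.SmBCfg p0 p1 q0 q1 a b c d v te tf) (y : H.D) :
    y ∈ sS H.σ a ↔ y = a ∨ y = b ∨ y = c ∨ y = d := by
  rw [mem_sS, K.σa, K.σb, K.σc]

theorem C_of_mem (K : H.SmBCfg p0 p1 q0 q1 a b c d v te tf) {y : H.D}
    (hy : y ∈ sS H.σ a) : H.C y := by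
  rw [K.mem] at hy
  rcases hy with rfl | rfl | rfl | rfl
  · exact K.Ca
  · exact K.Cb
  · exact K.Cc
  · exact K.Cd

theorem notMem_R (K : H.SmBCfg p0 p1 q0 q1 a b c d v te tf) {y : H.D} (h : H.R y) :
    y ∉ sS H.σ a := fun hy => h (K.C_of_mem hy)

theorem p1_notMem (K : H.SmBCfg p0 p1 q0 q1 a b c d v te tf) : p1 ∉ sS H.σ a := by
  rw [K.mem]
  obtain ⟨x1, x2, x3⟩ := K.vp1
  rintro (h | h | h | h)
  · rw [h, K.va.2.1] at x2; exact K.nev x2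
  · rw [h, K.vb.2.1] at x2; exact K.nev x2
  · rw [h, K.vc.2.1] at x2; exact K.ne x2.symm
  · rw [h, K.vd.2.2] at x3; omega

theorem q1_notMem (K : H.SmBCfg p0 p1 q0 q1 a b c d v te tf) : q1 ∉ sS H.σ a := by
  rw [K.mem]
  obtain ⟨x1, x2, x3⟩ := K.vq1
  rintro (h | h | h | h)
  · rw [h, K.va.2.1] at x2; exact K.nfv x2
  · rw [h, K.vb.2.1] at x2; exact K.nfv x2
  · rw [h, K.vc.2.2] at x3; omega
  · rw [h, K.vd.2.1] at x2; exact K.ne x2

theorem αa (K : H.SmBCfg p0 p1 q0 q1 a b c d v te tf) : H.α a = q1 := by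
  rw [← K.αq1, αα]

theorem αb (K : H.SmBCfg p0 p1 q0 q1 a b c d v te tf) : H.α b = p1 := by
  rw [← K.αp1, αα]

theorem smo (K : H.SmBCfg p0 p1 q0 q1 a b c d v te tf) : Smo H.σ H.α a where
  αα := H.α_α
  four := H.four a K.Ca
  n1 := H.σ_ne a K.Ca
  n2 := H.σσ_ne a K.Ca
  out := by
    intro s hs
    rw [K.mem] at hs
    rcases hs with rfl | rfl | rfl | rfl
    · rw [K.αa]; exact K.q1_notMem
    · rw [K.αb]; exact K.p1_notMem
    · exact K.notMem_R K.Rαc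
    · exact K.notMem_R K.Rαd

theorem ab (K : H.SmBCfg p0 p1 q0 q1 a b c d v te tf) : a ≠ b := by
  rintro rfl
  exact H.σ_ne a K.Ca K.σa

theorem ac (K : H.SmBCfg p0 p1 q0 q1 a b c d v te tf) : a ≠ c := by
  intro h
  refine H.σσ_ne a K.Ca ?_
  rw [K.σa, K.σb, h]

theorem ad (K : H.SmBCfg p0 p1 q0 q1 a b c d v te tf) : a ≠ d := by
  intro h
  refine H.σ_ne d K.Cd ?_
  rw [K.σd, h]

theorem bc (K : H.SmBCfg p0 p1 q0 q1 a b c d v te tf) : b ≠ c := by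
  intro h
  refine H.σ_ne b K.Cb ?_
  rw [K.σb, h]

theorem bd (K : H.SmBCfg p0 p1 q0 q1 a b c d v te tf) : b ≠ d := by
  intro h
  refine H.σσ_ne b K.Cb ?_
  rw [K.σb, K.σc, h]

theorem cd (K : H.SmBCfg p0 p1 q0 q1 a b c d v te tf) : c ≠ d := by
  intro h
  refine H.σ_ne c K.Cc ?_
  rw [K.σc, h]

theorem ρa (K : H.SmBCfg p0 p1 q0 q1 a b c d v te tf) : sρ H.σ a a = d := by
  unfold sρ
  rw [if_pos rfl, K.σa, K.σb, K.σc]

theorem ρd (K : H.SmBCfg p0 p1 q0 q1 a b c d v te tf) : sρ H.σ a d = a := by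
  unfold sρ
  rw [if_neg K.ad.symm, if_pos (by rw [K.σa, K.σb, K.σc])]

theorem ρb (K : H.SmBCfg p0 p1 q0 q1 a b c d v te tf) : sρ H.σ a b = c := by
  unfold sρ
  rw [if_neg K.ab.symm, if_neg (by rw [K.σa, K.σb, K.σc]; exact K.bd), if_pos K.σa.symm, K.σa,
    K.σb]

theorem ρc (K : H.SmBCfg p0 p1 q0 q1 a b c d v te tf) : sρ H.σ a c = b := by
  unfold sρ
  rw [if_neg K.ac.symm, if_neg (by rw [K.σa, K.σb, K.σc]; exact K.cd),
    if_neg (by rw [K.σa]; exact K.bc.symm), if_pos (by rw [K.σa, K.σb]), K.σa]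

/-- the new reversal -/
theorem αf_q1 (K : H.SmBCfg p0 p1 q0 q1 a b c d v te tf) : sαf H.σ H.α a q1 = H.α d := by
  unfold sαf
  rw [K.αq1, if_pos (by rw [K.mem]; simp), K.ρa]

theorem αf_p1 (K : H.SmBCfg p0 p1 q0 q1 a b c d v te tf) : sαf H.σ H.α a p1 = H.α c := by
  unfold sαf
  rw [K.αp1, if_pos (by rw [K.mem]; simp), K.ρb]

theorem αf_αc (K : H.SmBCfg p0 p1 q0 q1 a b c d v te tf) :
    sαf H.σ H.α a (H.α c) = p1 := by
  unfold sαf
  rw [αα, if_pos (by rw [K.mem]; simp), K.ρc, K.αb]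

theorem αf_αd (K : H.SmBCfg p0 p1 q0 q1 a b c d v te tf) :
    sαf H.σ H.α a (H.α d) = q1 := by
  unfold sαf
  rw [αα, if_pos (by rw [K.mem]; simp), K.ρd, K.αa]

theorem αf_ne {y : H.D} (h : H.α y ∉ sS H.σ a) : sαf H.σ H.α a y = H.α y := by
  unfold sαf
  rw [if_neg h]

/-- the cases for a dart of the new drawing -/
theorem cases (K : H.SmBCfg p0 p1 q0 q1 a b c d v te tf) (y : H.D) :
    y = q1 ∨ y = p1 ∨ y = H.α c ∨ y = H.α d ∨
      (H.α y ∉ sS H.σ a ∧ y ≠ q1 ∧ y ≠ p1) := by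
  by_cases h : H.α y ∈ sS H.σ a
  · rw [K.mem] at h
    rcases h with h | h | h | h
    · left
      rw [← K.αa, ← h, αα]
    · right; left
      rw [← K.αb, ← h, αα]
    · right; right; left
      rw [← h, αα]
    · right; right; right; left
      rw [← h, αα]
  · right; right; right; right
    refine ⟨h, ?_, ?_⟩
    · rintro rfl
      apply h
      rw [K.αq1, K.mem]; simp
    · rintro rfl
      apply h
      rw [K.αp1, K.mem]; simp

theorem src_α' (K : H.SmBCfg p0 p1 q0 q1 a b c d v te tf) (y : H.D) :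
    smBS p0 q0 te tf (sαf H.σ H.α a y) = smBT p0 p1 q0 q1 te tf y := by
  rcases K.cases y with rfl | rfl | rfl | rfl | ⟨h1, h2, h3⟩
  · rw [K.αf_q1, K.T_q1, K.S_R K.Rαd, K.vαd.1]
  · rw [K.αf_p1, T_p1, K.S_R K.Rαc, K.vαc.1]
  · rw [K.αf_αc, K.S_v K.vp1.1, K.T_v K.vαc.2.1]
  · rw [K.αf_αd, K.S_v K.vq1.1, K.T_v K.vαd.2.1]
  · rw [αf_ne h1]
    by_cases h4 : y = p0
    · subst h4
      rw [S_αp0, T_p0]
    · by_cases h5 : y = q0
      · subst h5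
        rw [K.S_αq0, K.T_q0]
      · rw [T_ne h4 h3 h5 h2, S_ne, H.src_α]
        · intro h6; exact h4 (H.α.injective h6)
        · intro h6; exact h5 (H.α.injective h6)

theorem adj' (K : H.SmBCfg p0 p1 q0 q1 a b c d v te tf) (y : H.D) :
    G.Adj (smBS p0 q0 te tf y) (smBT p0 p1 q0 q1 te tf y) := by
  have e1 : G.Adj v tf := by
    have := H.adj q0
    rwa [K.vq0.1, K.vq0.2.1] at this
  have e2 : G.Adj v te := by
    have := H.adj p0
    rwa [K.vp0.1, K.vp0.2.1] at this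
  by_cases h1 : y = p0
  · subst h1; rw [K.S_v K.vp0.1, T_p0]; exact e1
  by_cases h2 : y = p1
  · subst h2; rw [K.S_v K.vp1.1, T_p1]; exact e1
  by_cases h3 : y = q0
  · subst h3; rw [K.S_v K.vq0.1, K.T_q0]; exact e2
  by_cases h4 : y = q1
  · subst h4; rw [K.S_v K.vq1.1, K.T_q1]; exact e2
  by_cases h5 : y = H.α p0
  · subst h5; rw [S_αp0, K.T_v K.vαp0.2.1]; exact e1.symm
  by_cases h6 : y = H.α q0
  · subst h6; rw [K.S_αq0, K.T_v K.vαq0.2.1]; exact e2.symm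
  rw [T_ne h1 h2 h3 h4, S_ne h5 h6]
  exact H.adj y

theorem T_R (K : H.SmBCfg p0 p1 q0 q1 a b c d v te tf) {y : H.D} (h : H.R y)
    (h1 : y ≠ p0) (h2 : y ≠ q0) : smBT p0 p1 q0 q1 te tf y = H.tgt y := by
  apply T_ne h1 _ h2
  · rintro rfl; exact h K.Cq1
  · rintro rfl; exact h K.Cp1

theorem uniq' (K : H.SmBCfg p0 p1 q0 q1 a b c d v te tf) (y z : H.D) (hy : H.R y)
    (hz : H.R z) (hs : smBS p0 q0 te tf y = smBS p0 q0 te tf z)
    (ht : smBT p0 p1 q0 q1 te tf y = smBT p0 p1 q0 q1 te tf z) : y = z := by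
  rw [K.S_R hy, K.S_R hz] at hs
  have key : ∀ y z : H.D, H.R y → H.R z → H.src y = H.src z →
      smBT p0 p1 q0 q1 te tf y = smBT p0 p1 q0 q1 te tf z → y = p0 → z = p0 := by
    intro y z hy hz hs ht h1
    subst h1
    by_contra h2
    rw [T_p0] at ht
    by_cases h3 : z = q0
    · subst h3; rw [K.T_q0] at ht; exact K.ne ht.symm
    · rw [K.T_R hz h2 h3] at ht
      apply h3
      refine H.uniq z q0 hz K.Rq0 ?_ ?_
      · rw [← hs, K.vp0.1, K.vq0.1]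
      · rw [← ht, K.vq0.2.1]
  have key2 : ∀ y z : H.D, H.R y → H.R z → H.src y = H.src z →
      smBT p0 p1 q0 q1 te tf y = smBT p0 p1 q0 q1 te tf z → y = q0 → z = q0 := by
    intro y z hy hz hs ht h1
    subst h1
    by_contra h2
    rw [K.T_q0] at ht
    by_cases h3 : z = p0
    · subst h3; rw [T_p0] at ht; exact K.ne ht
    · rw [K.T_R hz h3 h2] at ht
      apply h3
      refine H.uniq z p0 hz K.Rp0 ?_ ?_
      · rw [← hs, K.vp0.1, K.vq0.1]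
      · rw [← ht, K.vp0.2.1]
  by_cases h1 : y = p0
  · rw [key y z hy hz hs ht h1, h1]
  by_cases h2 : z = p0
  · rw [key z y hz hy hs.symm ht.symm h2, h2]
  by_cases h3 : y = q0
  · rw [key2 y z hy hz hs ht h3, h3]
  by_cases h4 : z = q0
  · rw [key2 z y hz hy hs.symm ht.symm h4, h4]
  rw [K.T_R hy h1 h3, K.T_R hz h2 h4] at ht
  exact H.uniq y z hy hz hs ht

theorem ex' (K : H.SmBCfg p0 p1 q0 q1 a b c d v te tf) (x w : V) (hxw : G.Adj x w) :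
    ∃ y, y ∉ sS H.σ a ∧ H.vtx y = some x ∧ smBT p0 p1 q0 q1 te tf y = w := by
  obtain ⟨y, hy, hw⟩ := H.ex x w hxw
  have hR : H.R y := by
    intro h
    have h' : H.vtx y = none := h
    rw [h'] at hy
    simp at hy
  have hv : H.vtx q0 = H.vtx p0 := by rw [← K.σp0, H.vtx_σ]
  by_cases h1 : y = p0
  · subst h1
    refine ⟨q0, K.notMem_R K.Rq0, hv.trans hy, ?_⟩
    rw [K.T_q0, ← hw, K.vp0.2.1]
  by_cases h2 : y = q0
  · subst h2
    refine ⟨p0, K.notMem_R K.Rp0, hv.symm.trans hy, ?_⟩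
    rw [T_p0, ← hw, K.vq0.2.1]
  exact ⟨y, K.notMem_R hR, hy, (K.T_R hR h1 h2).trans hw⟩

theorem straight' (K : H.SmBCfg p0 p1 q0 q1 a b c d v te tf) (y : H.D) (hy : H.C y) :
    smBS p0 q0 te tf (H.σ (H.σ y)) = smBT p0 p1 q0 q1 te tf y ∧
      smBT p0 p1 q0 q1 te tf (H.σ (H.σ y)) = smBS p0 q0 te tf y := by
  have hf := H.four y hy
  by_cases h1 : y = p1
  · subst h1
    rw [K.ssp1, S_αp0, T_p1, K.T_v K.vαp0.2.1, K.S_v K.vp1.1]
    exact ⟨rfl, rfl⟩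
  by_cases h2 : y = q1
  · subst h2
    rw [K.ssq1, K.S_αq0, K.T_q1, K.T_v K.vαq0.2.1, K.S_v K.vq1.1]
    exact ⟨rfl, rfl⟩
  by_cases h3 : y = H.α p0
  · subst h3
    rw [K.ssp0, S_αp0, T_p1, K.T_v K.vαp0.2.1, K.S_v K.vp1.1]
    exact ⟨rfl, rfl⟩
  by_cases h4 : y = H.α q0
  · subst h4
    rw [K.ssq0, K.S_αq0, K.T_q1, K.T_v K.vαq0.2.1, K.S_v K.vq1.1]
    exact ⟨rfl, rfl⟩
  obtain ⟨e1, e2⟩ := H.straight y hy
  have hyp0 : y ≠ p0 := by rintro rfl; exact K.Rp0 hy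
  have hyq0 : y ≠ q0 := by rintro rfl; exact K.Rq0 hy
  have hC : H.C (H.σ (H.σ y)) := ((H.vtx_σ _).trans (H.vtx_σ _)).trans hy
  have n1 : H.σ (H.σ y) ≠ H.α p0 := by
    intro h; rw [h, K.ssp0] at hf; exact h1 hf.symm
  have n2 : H.σ (H.σ y) ≠ H.α q0 := by
    intro h; rw [h, K.ssq0] at hf; exact h2 hf.symm
  have n3 : H.σ (H.σ y) ≠ p1 := by
    intro h; rw [h, K.ssp1] at hf; exact h3 hf.symm
  have n4 : H.σ (H.σ y) ≠ q1 := by
    intro h; rw [h, K.ssq1] at hf; exact h4 hf.symm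
  have n5 : H.σ (H.σ y) ≠ p0 := by intro h; rw [h] at hC; exact K.Rp0 hC
  have n6 : H.σ (H.σ y) ≠ q0 := by intro h; rw [h] at hC; exact K.Rq0 hC
  rw [S_ne n1 n2, S_ne h3 h4, T_ne hyp0 h1 hyq0 h2, T_ne n5 n3 n6 n4]
  exact ⟨e1, e2⟩

/-- label of a dart at a crossing -/
theorem label_ne (K : H.SmBCfg p0 p1 q0 q1 a b c d v te tf) {y : H.D} (hy : H.C y)
    (h1 : y ≠ p1) (h2 : y ≠ q1) (h3 : y ≠ H.α p0) (h4 : y ≠ H.α q0) :
    s(smBS p0 q0 te tf y, smBT p0 p1 q0 q1 te tf y) = s(H.src y, H.tgt y) := by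
  rw [S_ne h3 h4, T_ne _ h1 _ h2]
  · rintro rfl; exact K.Rp0 hy
  · rintro rfl; exact K.Rq0 hy

theorem label_p1 (K : H.SmBCfg p0 p1 q0 q1 a b c d v te tf) :
    s(smBS p0 q0 te tf p1, smBT p0 p1 q0 q1 te tf p1) = s(v, tf) := by
  rw [K.S_v K.vp1.1, T_p1]

theorem label_q1 (K : H.SmBCfg p0 p1 q0 q1 a b c d v te tf) :
    s(smBS p0 q0 te tf q1, smBT p0 p1 q0 q1 te tf q1) = s(v, te) := by
  rw [K.S_v K.vq1.1, K.T_q1]

theorem label_αp0 (K : H.SmBCfg p0 p1 q0 q1 a b c d v te tf) :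
    s(smBS p0 q0 te tf (H.α p0), smBT p0 p1 q0 q1 te tf (H.α p0)) = s(v, tf) := by
  rw [S_αp0, K.T_v K.vαp0.2.1, Sym2.eq_swap]

theorem label_αq0 (K : H.SmBCfg p0 p1 q0 q1 a b c d v te tf) :
    s(smBS p0 q0 te tf (H.α q0), smBT p0 p1 q0 q1 te tf (H.α q0)) = s(v, te) := by
  rw [K.S_αq0, K.T_v K.vαq0.2.1, Sym2.eq_swap]

/-- a dart whose label is neither `v te` nor `v tf` -/
theorem label_of (K : H.SmBCfg p0 p1 q0 q1 a b c d v te tf) {y : H.D} (hy : H.C y)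
    (h1 : s(H.src y, H.tgt y) ≠ s(v, te)) (h2 : s(H.src y, H.tgt y) ≠ s(v, tf)) :
    s(smBS p0 q0 te tf y, smBT p0 p1 q0 q1 te tf y) = s(H.src y, H.tgt y) := by
  apply K.label_ne hy
  · rintro rfl; exact h1 (by rw [K.vp1.1, K.vp1.2.1])
  · rintro rfl; exact h2 (by rw [K.vq1.1, K.vq1.2.1])
  · rintro rfl; exact h1 (by rw [K.vαp0.1, K.vαp0.2.1, Sym2.eq_swap])
  · rintro rfl; exact h2 (by rw [K.vαq0.1, K.vαq0.2.1, Sym2.eq_swap])

theorem transv' (K : H.SmBCfg p0 p1 q0 q1 a b c d v te tf) (y : H.D) (hy : H.C y) :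
    s(smBS p0 q0 te tf (H.σ y), smBT p0 p1 q0 q1 te tf (H.σ y)) ≠
      s(smBS p0 q0 te tf y, smBT p0 p1 q0 q1 te tf y) := by
  have ht := H.transv y hy
  have hC : H.C (H.σ y) := (H.vtx_σ y).trans hy
  by_cases h1 : y = p1
  · subst h1
    rw [K.vp1.1, K.vp1.2.1] at ht
    rw [K.label_p1, K.label_of hC ht K.lp1]
    exact K.lp1
  by_cases h2 : y = q1
  · subst h2
    rw [K.vq1.1, K.vq1.2.1] at ht
    rw [K.label_q1, K.label_of hC K.lq1 ht]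
    exact K.lq1
  by_cases h3 : y = H.α p0
  · subst h3
    rw [K.vαp0.1, K.vαp0.2.1, Sym2.eq_swap (a := te)] at ht
    rw [K.label_αp0, K.label_of hC ht K.lαp0]
    exact K.lαp0
  by_cases h4 : y = H.α q0
  · subst h4
    rw [K.vαq0.1, K.vαq0.2.1, Sym2.eq_swap (a := tf)] at ht
    rw [K.label_αq0, K.label_of hC K.lαq0 ht]
    exact K.lαq0
  rw [K.label_ne hy h1 h2 h3 h4]
  have hf := H.four y hy
  by_cases n1 : H.σ y = p1
  · rw [n1, K.label_p1]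
    rw [n1, K.ssp1] at hf
    rw [← hf]
    exact K.lαp0.symm
  by_cases n2 : H.σ y = q1
  · rw [n2, K.label_q1]
    rw [n2, K.ssq1] at hf
    rw [← hf]
    exact K.lαq0.symm
  by_cases n3 : H.σ y = H.α p0
  · rw [n3, K.label_αp0]
    rw [n3, K.ssp0] at hf
    rw [← hf]
    exact K.lp1.symm
  by_cases n4 : H.σ y = H.α q0
  · rw [n4, K.label_αq0]
    rw [n4, K.ssq0] at hf
    rw [← hf]
    exact K.lq1.symm
  rw [K.label_ne hC n1 n2 n3 n4]
  exact ht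

theorem pos_step' (K : H.SmBCfg p0 p1 q0 q1 a b c d v te tf) (y : H.D) (hyS : y ∉ sS H.σ a)
    (hy : H.C (sαf H.σ H.α a y)) :
    smBP p0 q0 (H.σ (H.σ (sαf H.σ H.α a y))) = smBP p0 q0 y + 1 := by
  rcases K.cases y with rfl | rfl | rfl | rfl | ⟨h1, h2, h3⟩
  · rw [K.αf_q1] at hy; exact absurd hy K.Rαd
  · rw [K.αf_p1] at hy; exact absurd hy K.Rαc
  · rw [K.αf_αc, K.ssp1, P_αp0, K.P_R K.Rαc]
  · rw [K.αf_αd, K.ssq1, P_αq0, K.P_R K.Rαd]
  · rw [αf_ne h1] at hy ⊢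
    have hf := H.four _ hy
    have n1 : H.σ (H.σ (H.α y)) ≠ H.α p0 := by
      intro h
      rw [h, K.ssp0] at hf
      apply hyS
      rw [K.mem]
      right; left
      rw [← K.αp1, hf, αα]
    have n2 : H.σ (H.σ (H.α y)) ≠ H.α q0 := by
      intro h
      rw [h, K.ssq0] at hf
      apply hyS
      rw [K.mem]
      left
      rw [← K.αq1, hf, αα]
    have n3 : y ≠ H.α p0 := by
      rintro rfl
      rw [αα] at hy
      exact K.Rp0 hy
    have n4 : y ≠ H.α q0 := by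
      rintro rfl
      rw [αα] at hy
      exact K.Rq0 hy
    rw [P_ne n1 n2, P_ne n3 n4]
    exact H.pos_step y hy

/-- The new drawing. -/
def new (K : H.SmBCfg p0 p1 q0 q1 a b c d v te tf) : Drawing G where
  D := sD H.σ a
  fin := inferInstance
  dec := inferInstance
  α := sα K.smo
  σ := sσ K.smo
  vtx y := H.vtx y
  src y := smBS p0 q0 te tf (y : H.D)
  tgt y := smBT p0 p1 q0 q1 te tf (y : H.D)
  pos y := smBP p0 q0 (y : H.D)
  α_α y := Subtype.ext (sαf_sαf K.smo y)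
  vtx_σ y := H.vtx_σ y
  rot y z hy hz := by
    have h := H.rot y z hy hz
    exact Equiv.Perm.sameCycle_subtypePerm.2 h
  four y hy := Subtype.ext (H.four y hy)
  src_α y := K.src_α' y
  adj y := K.adj' y
  src_vtx y w h := by
    have hR : H.R y := by
      intro h1
      have h2 : H.vtx y = none := h1
      rw [h2] at h
      simp at h
    rw [K.S_R hR]
    exact H.src_vtx y w h
  uniq y z hy hz hs ht := Subtype.ext (K.uniq' y z hy hz hs ht)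
  ex x w hxw := by
    obtain ⟨y, h1, h2, h3⟩ := K.ex' x w hxw
    exact ⟨⟨y, h1⟩, h2, h3⟩
  straight y hy := K.straight' y hy
  transv y hy := K.transv' y hy
  pos_real y hy := K.P_R hy
  pos_step y hy := K.pos_step' y y.2 hy

theorem new_twoPlanar (K : H.SmBCfg p0 p1 q0 q1 a b c d v te tf) (h2 : H.TwoPlanar) :
    K.new.TwoPlanar := by
  rintro ⟨y, hy⟩
  show smBP p0 q0 y ≤ 2
  unfold smBP
  split_ifs
  · norm_num
  · exact h2 y

theorem new_sph (K : H.SmBCfg p0 p1 q0 q1 a b c d v te tf) (hs : H.Sph) : K.new.Sph := by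
  have hα : ∀ (z : sD H.σ a) (y : H.D) (hy : y ∉ sS H.σ a), sαf H.σ H.α a z = y →
      (⟨y, hy⟩ : sD H.σ a) ∈ MulAction.orbit
        (Subgroup.closure ({sσ K.smo, sα K.smo} : Set (Perm (sD H.σ a)))) z := by
    intro z y hy h
    refine ⟨⟨sα K.smo, Subgroup.subset_closure (by simp)⟩, ?_⟩
    exact Subtype.ext h
  have hσ : ∀ (z : sD H.σ a) (y : H.D) (hy : y ∉ sS H.σ a), H.σ z = y →
      (⟨y, hy⟩ : sD H.σ a) ∈ MulAction.orbit
        (Subgroup.closure ({sσ K.smo, sα K.smo} : Set (Perm (sD H.σ a)))) z := by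
    intro z y hy h
    refine ⟨⟨sσ K.smo, Subgroup.subset_closure (by simp)⟩, ?_⟩
    exact Subtype.ext h
  have htr : ∀ x y z : sD H.σ a, y ∈ MulAction.orbit
        (Subgroup.closure ({sσ K.smo, sα K.smo} : Set (Perm (sD H.σ a)))) x →
      z ∈ MulAction.orbit
        (Subgroup.closure ({sσ K.smo, sα K.smo} : Set (Perm (sD H.σ a)))) y →
      z ∈ MulAction.orbit
        (Subgroup.closure ({sσ K.smo, sα K.smo} : Set (Perm (sD H.σ a)))) x := by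
    intro x y z h1 h2
    rw [← MulAction.orbit_eq_iff] at h1 h2
    rw [← MulAction.orbit_eq_iff, h2, h1]
  have hsy : ∀ x y : sD H.σ a, y ∈ MulAction.orbit
        (Subgroup.closure ({sσ K.smo, sα K.smo} : Set (Perm (sD H.σ a)))) x →
      x ∈ MulAction.orbit
        (Subgroup.closure ({sσ K.smo, sα K.smo} : Set (Perm (sD H.σ a)))) y := by
    intro x y h1
    rwa [MulAction.mem_orbit_symm]
  have mp0 := K.notMem_R K.Rp0
  have mq0 := K.notMem_R K.Rq0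
  have mp1 := K.p1_notMem
  have mq1 := K.q1_notMem
  have hmσ : ∀ y, y ∉ sS H.σ a → H.σ y ∉ sS H.σ a := fun y hy h => hy ((sS_σ K.smo y).1 h)
  have mαp0 : H.α p0 ∉ sS H.σ a := by
    rw [← K.ssp1]
    exact hmσ _ (hmσ _ mp1)
  have mαq0 : H.α q0 ∉ sS H.σ a := by
    rw [← K.ssq1]
    exact hmσ _ (hmσ _ mq1)
  -- p1 from p0
  have c1 := hα ⟨p0, mp0⟩ (H.α p0) mαp0 (αf_ne mαp0)
  have c2 := hσ ⟨H.α p0, mαp0⟩ _ (hmσ _ mαp0) rfl
  have c3 := hσ ⟨H.σ (H.α p0), hmσ _ mαp0⟩ p1 mp1 K.ssp0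
  have d0 := hσ ⟨p0, mp0⟩ q0 mq0 K.σp0
  have d1 := hα ⟨q0, mq0⟩ (H.α q0) mαq0 (αf_ne mαq0)
  have d2 := hσ ⟨H.α q0, mαq0⟩ _ (hmσ _ mαq0) rfl
  have d3 := hσ ⟨H.σ (H.α q0), hmσ _ mαq0⟩ q1 mq1 K.ssq0
  have hp : (⟨p1, mp1⟩ : sD H.σ a) ∈ MulAction.orbit
      (Subgroup.closure ({sσ K.smo, sα K.smo} : Set (Perm (sD H.σ a)))) ⟨p0, mp0⟩ :=
    htr _ _ _ (htr _ _ _ c1 c2) c3
  have hq : (⟨q1, mq1⟩ : sD H.σ a) ∈ MulAction.orbit
      (Subgroup.closure ({sσ K.smo, sα K.smo} : Set (Perm (sD H.σ a)))) ⟨p0, mp0⟩ :=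
    htr _ _ _ (htr _ _ _ (htr _ _ _ d0 d1) d2) d3
  have hpq := htr _ _ _ (hsy _ _ hp) hq
  have e1 : H.α a = q1 := K.αa
  have e2 : H.α (H.σ a) = p1 := by rw [K.σa, K.αb]
  have h1 : H.α a ∉ sS H.σ a := by rw [e1]; exact mq1
  have h2 : H.α (H.σ a) ∉ sS H.σ a := by rw [e2]; exact mp1
  refine smo_sph K.smo h1 h2 ?_ hs
  have f1 : (⟨H.α a, h1⟩ : sD H.σ a) = ⟨q1, mq1⟩ := Subtype.ext e1
  have f2 : (⟨H.α (H.σ a), h2⟩ : sD H.σ a) = ⟨p1, mp1⟩ := Subtype.ext e2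
  rw [f1, f2]
  exact hpq

end SmBCfg

end New

theorem btwo (hs : H.Sph) (h2 : H.TwoPlanar) (g : H.D) (h : H.T0 g) (h' : H.Tc (H.α g)) :
    ∃ H' : Drawing G, Fintype.card H'.D < Fintype.card H.D ∧ H'.Sph ∧ H'.TwoPlanar ∧
      ∃ B : H'.D, H'.R B ∧ H'.C (H'.α B) ∧ H'.R (H'.α (H'.σ (H'.σ (H'.α B)))) := by
  obtain ⟨p0, p1, q0, q1, a, b, c, d, v, te, tf, K⟩ := H.smB_cfg h2 g h h'
  refine ⟨K.new, ?_, K.new_sph hs, K.new_twoPlanar h2, ?_⟩
  · have h1 := card_sD K.smo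
    show Fintype.card (sD H.σ a) < Fintype.card H.D
    omega
  · have mαp0 : H.α p0 ∉ sS H.σ a := by
      intro hm
      have h3 : H.α p0 ∈ sS H.σ a ↔ _ := K.mem _
      rw [← K.ssp1, sS_σ K.smo, sS_σ K.smo] at hm
      exact K.p1_notMem hm
    have e1 : sαf H.σ H.α a p0 = H.α p0 := SmBCfg.αf_ne mαp0
    refine ⟨⟨p0, K.notMem_R K.Rp0⟩, K.Rp0, ?_, ?_⟩
    · show H.vtx (sαf H.σ H.α a p0) = none
      rw [e1]
      exact K.Cαp0
    · show H.vtx (sαf H.σ H.α a (H.σ (H.σ (sαf H.σ H.α a p0)))) ≠ none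
      rw [e1, K.ssp0, K.αf_p1]
      exact K.Rαc

end Drawing

end TwoPl
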