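import Pool.Agent.H99.TP.Bas
import Pool.Agent.H99.TP.SmoS

/-!
# SMD: removing a digon with one vertex and one crossing

`A` starts at a vertex `v`, `φ A` at a crossing, `φ (φ A) = A`. Put `a = α A`, `b = σ a = φ A`,
`c = σ² a`, `d = σ³ a`, `B = α b`; then `σ B = A`. The edges of `A` and `B` cross in the point of `a`
and both start at `v`. Smoothing this crossing exchanges their initial segments:
`α' A = α d`, `α' B = α c`.

The new drawing `H'` has the darts `sD H.σ a`, `σ' = sσ`, `α' = sα`, `vtx' = vtx`, `src' = src`,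
`tgt' A = tgt B`, `tgt' B = tgt A`, `tgt' = tgt` for the other darts, `pos' y = 1` for `y = σ² (α c)`
and `y = σ² (α d)` if these darts start at a crossing, `pos' = pos` otherwise.
* `Smo`: `α a = A`, `α b = B` start at a vertex; `α c ≠ d` by `transv`.
* `pos_step`: `y = A`: `α' A = α d`. `y = α c`, `α d`: `α' y` starts at a vertex. Other `y`: `α' y = α y`;
  `y = σ² (α c)` ends at a vertex by `cc_real`.
* connectivity: `σ B = A`.
-/

namespace TwoPl

open Equiv Function

namespace Drawing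

variable {V : Type} {G : SimpleGraph V} (H : Drawing G)

/-- the data of the digon -/
structure Dig (A : H.D) : Prop where
  R : H.R A
  C : H.C (H.φ A)
  φφ : H.φ (H.φ A) = A

namespace Dig

variable {H} {A : H.D}

theorem Ca (h : H.Dig A) : H.C (H.α A) := by
  have := h.C
  unfold Drawing.C at this ⊢
  rwa [vtx_φ] at this

theorem Cb (h : H.Dig A) : H.C (H.σ (H.α A)) := by
  have := h.Ca
  unfold Drawing.C at this ⊢
  rwa [H.vtx_σ]

theorem Cc (h : H.Dig A) : H.C (H.σ (H.σ (H.α A))) := by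
  have := h.Cb
  unfold Drawing.C at this ⊢
  rwa [H.vtx_σ]

theorem Cd (h : H.Dig A) : H.C (H.σ (H.σ (H.σ (H.α A)))) := by
  have := h.Cc
  unfold Drawing.C at this ⊢
  rwa [H.vtx_σ]

theorem σB (h : H.Dig A) : H.σ (H.α (H.σ (H.α A))) = A := h.φφ

theorem vtxB (h : H.Dig A) : H.vtx (H.α (H.σ (H.α A))) = H.vtx A := by
  have := H.vtx_σ (H.α (H.σ (H.α A)))
  rw [h.σB] at this
  exact this.symm

theorem RB (h : H.Dig A) : H.R (H.α (H.σ (H.α A))) := by
  have := h.R
  unfold Drawing.R at this ⊢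
  rwa [h.vtxB]

theorem C_of_mem (h : H.Dig A) {y : H.D} (hy : y ∈ sS H.σ (H.α A)) : H.C y := by
  rw [mem_sS] at hy
  rcases hy with rfl | rfl | rfl | rfl
  · exact h.Ca
  · exact h.Cb
  · exact h.Cc
  · exact h.Cd

theorem notMem_of_R (h : H.Dig A) {y : H.D} (hy : H.R y) : y ∉ sS H.σ (H.α A) :=
  fun h' => hy (h.C_of_mem h')

theorem srcB (h : H.Dig A) : H.src (H.α (H.σ (H.α A))) = H.src A := by
  obtain ⟨v, hv⟩ := Option.ne_none_iff_exists'.1 h.R
  rw [H.src_vtx _ _ (h.vtxB.trans hv), H.src_vtx _ _ hv]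

theorem src_c (h : H.Dig A) : H.src (H.σ (H.σ (H.α A))) = H.src A := by
  rw [(H.straight _ h.Ca).1, tgt_α]

theorem tgt_c (h : H.Dig A) : H.tgt (H.σ (H.σ (H.α A))) = H.tgt A := by
  rw [(H.straight _ h.Ca).2, H.src_α]

theorem src_d (h : H.Dig A) : H.src (H.σ (H.σ (H.σ (H.α A)))) = H.src A := by
  rw [(H.straight _ h.Cb).1, ← H.src_α, h.srcB]

theorem tgt_d (h : H.Dig A) :
    H.tgt (H.σ (H.σ (H.σ (H.α A)))) = H.tgt (H.α (H.σ (H.α A))) := by
  rw [(H.straight _ h.Cb).2, tgt_α]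

theorem αc_ne (h : H.Dig A) : H.α (H.σ (H.σ (H.α A))) ≠ H.σ (H.σ (H.σ (H.α A))) := by
  intro h'
  have h1 := H.transv _ h.Cc
  rw [← h', H.src_α, tgt_α] at h1
  exact h1 Sym2.eq_swap

theorem αd_ne (h : H.Dig A) : H.α (H.σ (H.σ (H.σ (H.α A)))) ≠ H.σ (H.σ (H.α A)) := by
  intro h'
  apply h.αc_ne
  have h3 := congrArg H.α h'
  rw [αα] at h3
  exact h3.symm

theorem αc_notMem (h : H.Dig A) : H.α (H.σ (H.σ (H.α A))) ∉ sS H.σ (H.α A) := by
  intro h'
  rw [mem_sS] at h'
  rcases h' with h' | h' | h' | h'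
  · have h1 := H.α.injective h'
    have h2 := h.Cc
    rw [h1] at h2
    exact h.R h2
  · have h1 := congrArg H.α h'
    rw [αα] at h1
    have h2 := h.Cc
    rw [h1] at h2
    exact h.RB h2
  · exact H.α_ne _ h'
  · exact h.αc_ne h'

theorem αd_notMem (h : H.Dig A) : H.α (H.σ (H.σ (H.σ (H.α A)))) ∉ sS H.σ (H.α A) := by
  intro h'
  rw [mem_sS] at h'
  rcases h' with h' | h' | h' | h'
  · have h1 := H.α.injective h'
    have h2 := h.Cd
    rw [h1] at h2
    exact h.R h2
  · have h1 := congrArg H.α h'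
    rw [αα] at h1
    have h2 := h.Cd
    rw [h1] at h2
    exact h.RB h2
  · exact h.αd_ne h'
  · exact H.α_ne _ h'

theorem smo (h : H.Dig A) : Smo H.σ H.α (H.α A) where
  αα := H.α_α
  four := H.four _ h.Ca
  n1 := H.σ_ne _ h.Ca
  n2 := H.σσ_ne _ h.Ca
  out := by
    intro s hs
    rw [mem_sS] at hs
    rcases hs with rfl | rfl | rfl | rfl
    · rw [αα]
      exact h.notMem_of_R h.R
    · exact h.notMem_of_R h.RB
    · exact h.αc_notMem
    · exact h.αd_notMem

theorem ne_AB (h : H.Dig A) : A ≠ H.α (H.σ (H.α A)) := by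
  intro h'
  have h1 := congrArg H.α h'
  rw [αα] at h1
  exact H.σ_ne _ h.Ca h1.symm

theorem tgt_ne (h : H.Dig A) : H.tgt A ≠ H.tgt (H.α (H.σ (H.α A))) := by
  intro h'
  exact h.ne_AB (H.uniq _ _ h.R h.RB h.srcB.symm h')

/-- the new reversal -/
theorem sαf_A (_ : H.Dig A) : sαf H.σ H.α (H.α A) A = H.α (H.σ (H.σ (H.σ (H.α A)))) := by
  rw [sαf, if_pos (by rw [mem_sS]; left; rfl), sρ, if_pos rfl]

theorem c_ne_a (h : H.Dig A) : H.σ (H.σ (H.α A)) ≠ H.α A := H.σσ_ne _ h.Ca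

theorem b_ne_a (h : H.Dig A) : H.σ (H.α A) ≠ H.α A := H.σ_ne _ h.Ca

theorem b_ne_d (h : H.Dig A) : H.σ (H.α A) ≠ H.σ (H.σ (H.σ (H.α A))) := by
  intro h'
  exact h.c_ne_a (H.σ.injective h').symm

theorem c_ne_b (h : H.Dig A) : H.σ (H.σ (H.α A)) ≠ H.σ (H.α A) := by
  intro h'
  exact h.b_ne_a (H.σ.injective h')

theorem c_ne_d (h : H.Dig A) : H.σ (H.σ (H.α A)) ≠ H.σ (H.σ (H.σ (H.α A))) := by
  intro h'
  exact h.c_ne_b (H.σ.injective h').symm

theorem d_ne_a (h : H.Dig A) : H.σ (H.σ (H.σ (H.α A))) ≠ H.α A := by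
  intro h'
  have := H.four _ h.Ca
  rw [h'] at this
  exact h.b_ne_a this

theorem sαf_B (h : H.Dig A) : sαf H.σ H.α (H.α A) (H.α (H.σ (H.α A))) =
    H.α (H.σ (H.σ (H.α A))) := by
  rw [sαf, αα, if_pos (by rw [mem_sS]; right; left; rfl), sρ, if_neg h.b_ne_a, if_neg h.b_ne_d,
    if_pos rfl]

theorem sαf_αc (h : H.Dig A) : sαf H.σ H.α (H.α A) (H.α (H.σ (H.σ (H.α A)))) =
    H.α (H.σ (H.α A)) := by
  rw [sαf, αα, if_pos (by rw [mem_sS]; right; right; left; rfl), sρ, if_neg h.c_ne_a,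
    if_neg h.c_ne_d, if_neg h.c_ne_b, if_pos rfl]

theorem sαf_αd (h : H.Dig A) : sαf H.σ H.α (H.α A) (H.α (H.σ (H.σ (H.σ (H.α A))))) = A := by
  rw [sαf, αα, if_pos (by rw [mem_sS]; right; right; right; rfl), sρ, if_neg h.d_ne_a,
    if_pos rfl, αα]

/-- the four special darts and the others -/
theorem cases (h : H.Dig A) (y : H.D) : y = A ∨ y = H.α (H.σ (H.α A)) ∨
    y = H.α (H.σ (H.σ (H.α A))) ∨ y = H.α (H.σ (H.σ (H.σ (H.α A)))) ∨
    (y ≠ A ∧ y ≠ H.α (H.σ (H.α A)) ∧ sαf H.σ H.α (H.α A) y = H.α y) := by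
  have key : ∀ s, H.α y = s → y = H.α s := by
    rintro s rfl
    rw [αα]
  by_cases hy : H.α y ∈ sS H.σ (H.α A)
  · rw [mem_sS] at hy
    rcases hy with hy | hy | hy | hy
    · left
      rw [key _ hy, αα]
    · right; left
      exact key _ hy
    · right; right; left
      exact key _ hy
    · right; right; right; left
      exact key _ hy
  · right; right; right; right
    refine ⟨?_, ?_, ?_⟩
    · rintro rfl
      apply hy
      rw [mem_sS]
      left
      rfl
    · rintro rfl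
      apply hy
      rw [mem_sS, αα]
      right; left
      rfl
    · rw [sαf, if_neg hy]

/-- the new labels -/
def tg (A y : H.D) : V :=
  if y = A then H.tgt (H.α (H.σ (H.α A))) else if y = H.α (H.σ (H.α A)) then H.tgt A else H.tgt y

theorem tg_A : tg A A = H.tgt (H.α (H.σ (H.α A))) := by rw [tg, if_pos rfl]

theorem tg_B (h : H.Dig A) : tg A (H.α (H.σ (H.α A))) = H.tgt A := by
  rw [tg, if_neg h.ne_AB.symm, if_pos rfl]

theorem tg_of_ne {y : H.D} (h1 : y ≠ A) (h2 : y ≠ H.α (H.σ (H.α A))) : tg A y = H.tgt y := by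
  rw [tg, if_neg h1, if_neg h2]

theorem tg_of_C (h : H.Dig A) {y : H.D} (hy : H.C y) : tg A y = H.tgt y := by
  apply tg_of_ne
  · rintro rfl
    exact h.R hy
  · rintro rfl
    exact h.RB hy

/-- the new positions -/
noncomputable def ps (A y : H.D) : ℕ := by
  classical
  exact if H.vtx y = none ∧ (y = H.σ (H.σ (H.α (H.σ (H.σ (H.α A))))) ∨
    y = H.σ (H.σ (H.α (H.σ (H.σ (H.σ (H.α A))))))) then 1 else H.pos y

theorem ps_of_R {y : H.D} (hy : H.R y) : ps A y = 0 := by
  rw [ps, if_neg (fun h' => hy h'.1), H.pos_real y hy]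

theorem ps_of_ne {y : H.D} (h1 : y ≠ H.σ (H.σ (H.α (H.σ (H.σ (H.α A))))))
    (h2 : y ≠ H.σ (H.σ (H.α (H.σ (H.σ (H.σ (H.α A))))))) : ps A y = H.pos y := by
  rw [ps, if_neg]
  rintro ⟨-, h' | h'⟩
  · exact h1 h'
  · exact h2 h'

theorem ps_c (hc : H.C (H.α (H.σ (H.σ (H.α A))))) :
    ps A (H.σ (H.σ (H.α (H.σ (H.σ (H.α A)))))) = 1 := by
  rw [ps, if_pos]
  refine ⟨?_, Or.inl rfl⟩
  rw [H.vtx_σ, H.vtx_σ]
  exact hc

theorem ps_d (hc : H.C (H.α (H.σ (H.σ (H.σ (H.α A)))))) :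
    ps A (H.σ (H.σ (H.α (H.σ (H.σ (H.σ (H.α A))))))) = 1 := by
  rw [ps, if_pos]
  refine ⟨?_, Or.inr rfl⟩
  rw [H.vtx_σ, H.vtx_σ]
  exact hc

theorem ps_le (h2 : H.TwoPlanar) (y : H.D) : ps A y ≤ 2 := by
  rw [ps]
  split_ifs
  · omega
  · exact h2 y

theorem end_c (h : H.Dig A) (h2 : H.TwoPlanar) (hc : H.C (H.α (H.σ (H.σ (H.α A))))) :
    H.R (H.α (H.σ (H.σ (H.α (H.σ (H.σ (H.α A))))))) :=
  (H.cc_real h2 _ h.Cc hc).2

theorem end_d (h : H.Dig A) (h2 : H.TwoPlanar) (hc : H.C (H.α (H.σ (H.σ (H.σ (H.α A)))))) :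
    H.R (H.α (H.σ (H.σ (H.α (H.σ (H.σ (H.σ (H.α A)))))))) :=
  (H.cc_real h2 _ h.Cd hc).2

/-- the new drawing -/
noncomputable def new (h : H.Dig A) (h2 : H.TwoPlanar) : Drawing G where
  D := sD H.σ (H.α A)
  fin := inferInstance
  dec := inferInstance
  α := sα h.smo
  σ := sσ h.smo
  vtx y := H.vtx y
  src y := H.src y
  tgt y := tg A y
  pos y := ps A y
  α_α y := Subtype.ext (sαf_sαf h.smo y)
  vtx_σ y := H.vtx_σ y
  rot y y' hy hy' := by
    rw [sσ, Equiv.Perm.sameCycle_subtypePerm]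
    exact H.rot y y' hy hy'
  four y hy := Subtype.ext (H.four y hy)
  src_α y := by
    rw [sα_coe]
    rcases h.cases y with hy | hy | hy | hy | ⟨h3, h4, h5⟩
    · rw [hy, h.sαf_A, tg_A, H.src_α, h.tgt_d]
    · rw [hy, h.sαf_B, h.tg_B, H.src_α, h.tgt_c]
    · rw [hy, h.sαf_αc, tg_of_ne, tgt_α, h.srcB, h.src_c]
      · intro h'
        exact h.c_ne_a ((H.αα _).symm.trans (congrArg H.α h'))
      · intro h'
        exact h.c_ne_b (H.α.injective h')
    · rw [hy, h.sαf_αd, tg_of_ne, tgt_α, h.src_d]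
      · intro h'
        exact h.d_ne_a ((H.αα _).symm.trans (congrArg H.α h'))
      · intro h'
        exact h.b_ne_d (H.α.injective h').symm
    · rw [h5, tg_of_ne h3 h4, H.src_α]
  adj y := by
    rcases h.cases y with hy | hy | hy
    · rw [hy, tg_A, ← h.srcB]
      exact H.adj _
    · rw [hy, h.tg_B, h.srcB]
      exact H.adj _
    · by_cases h1 : (y : H.D) = A
      · rw [h1, tg_A, ← h.srcB]
        exact H.adj _
      · by_cases h2 : (y : H.D) = H.α (H.σ (H.α A))
        · rw [h2, h.tg_B, h.srcB]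
          exact H.adj _
        · rw [tg_of_ne h1 h2]
          exact H.adj _
  src_vtx y v hv := H.src_vtx y v hv
  uniq := by
    have key : ∀ y y' : H.D, H.R y → H.R y' → H.src y = H.src y' → tg A y = tg A y' → y = y' := by
      intro y y' hy hy' hs ht
      by_cases h1 : y = A
      · subst h1
        by_cases h3 : y' = y
        · exact h3.symm
        · by_cases h4 : y' = H.α (H.σ (H.α y))
          · rw [h4, tg_A, h.tg_B] at ht
            exact absurd ht.symm h.tgt_ne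
          · rw [tg_A, tg_of_ne h3 h4] at ht
            exact absurd (H.uniq _ _ h.RB hy' (h.srcB.trans hs) ht).symm h4
      · by_cases h2 : y = H.α (H.σ (H.α A))
        · rw [h2, h.tg_B] at ht
          rw [h2, h.srcB] at hs
          by_cases h3 : y' = A
          · rw [h3, tg_A] at ht
            exact absurd ht h.tgt_ne
          · by_cases h4 : y' = H.α (H.σ (H.α A))
            · rw [h2, h4]
            · rw [tg_of_ne h3 h4] at ht
              exact absurd (H.uniq _ _ h.R hy' hs ht).symm h3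
        · rw [tg_of_ne h1 h2] at ht
          by_cases h3 : y' = A
          · rw [h3, tg_A] at ht
            rw [h3] at hs
            exact absurd (H.uniq _ _ hy h.RB (hs.trans h.srcB.symm) ht) h2
          · by_cases h4 : y' = H.α (H.σ (H.α A))
            · rw [h4, h.tg_B] at ht
              rw [h4, h.srcB] at hs
              exact absurd (H.uniq _ _ hy h.R hs ht) h1
            · rw [tg_of_ne h3 h4] at ht
              exact H.uniq _ _ hy hy' hs ht
    intro y y' hy hy' hs ht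
    exact Subtype.ext (key y y' hy hy' hs ht)
  ex v w hvw := by
    obtain ⟨y, hy1, hy2⟩ := H.ex v w hvw
    by_cases h1 : y = A
    · refine ⟨⟨H.α (H.σ (H.α A)), h.notMem_of_R h.RB⟩, ?_, ?_⟩
      · rw [h.vtxB, ← h1, hy1]
      · rw [h.tg_B, ← h1, hy2]
    · by_cases h2 : y = H.α (H.σ (H.α A))
      · refine ⟨⟨A, h.notMem_of_R h.R⟩, ?_, ?_⟩
        · rw [← h.vtxB, ← h2, hy1]
        · rw [tg_A, ← h2, hy2]
      · refine ⟨⟨y, h.notMem_of_R ?_⟩, hy1, ?_⟩
        · unfold Drawing.R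
          rw [hy1]
          exact Option.some_ne_none _
        · rw [tg_of_ne h1 h2, hy2]
  straight y hy := by
    have hy' : H.C y := hy
    have hy3 : H.C (H.σ (H.σ y)) := by
      unfold Drawing.C
      rw [H.vtx_σ, H.vtx_σ]
      exact hy
    rw [sσ_coe, sσ_coe, h.tg_of_C hy', h.tg_of_C hy3]
    exact H.straight y hy
  transv y hy := by
    have hy' : H.C y := hy
    have hy3 : H.C (H.σ y) := by
      unfold Drawing.C
      rw [H.vtx_σ]
      exact hy
    rw [sσ_coe, h.tg_of_C hy', h.tg_of_C hy3]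
    exact H.transv y hy
  pos_real y hy := ps_of_R hy
  pos_step y hy := by
    rw [sσ_coe, sσ_coe]
    rw [sα_coe] at hy ⊢
    have hyS := y.2
    rcases h.cases y with hy1 | hy1 | hy1 | hy1 | ⟨h3, h4, h5⟩
    · rw [hy1, h.sαf_A] at hy ⊢
      rw [ps_d hy, ps_of_R h.R]
    · rw [hy1, h.sαf_B] at hy ⊢
      rw [ps_c hy, ps_of_R h.RB]
    · rw [hy1, h.sαf_αc] at hy
      exact absurd hy h.RB
    · rw [hy1, h.sαf_αd] at hy
      exact absurd hy h.R
    · rw [h5] at hy ⊢
      have e1 : ps A (y : H.D) = H.pos (y : H.D) := by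
        by_cases hC : H.C (y : H.D)
        · apply ps_of_ne
          · intro h'
            have hc : H.C (H.α (H.σ (H.σ (H.α A)))) := by
              rw [h'] at hC
              unfold Drawing.C at hC ⊢
              rwa [H.vtx_σ, H.vtx_σ] at hC
            have := h.end_c h2 hc
            rw [← h'] at this
            exact this hy
          · intro h'
            have hc : H.C (H.α (H.σ (H.σ (H.σ (H.α A))))) := by
              rw [h'] at hC
              unfold Drawing.C at hC ⊢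
              rwa [H.vtx_σ, H.vtx_σ] at hC
            have := h.end_d h2 hc
            rw [← h'] at this
            exact this hy
        · rw [ps_of_R hC, H.pos_real _ hC]
      rw [e1, ← H.pos_step y hy]
      apply ps_of_ne
      · intro h'
        have := H.α.injective (H.σ.injective (H.σ.injective h'))
        rw [this] at hyS
        apply hyS
        rw [mem_sS]
        right; right; left
        rfl
      · intro h'
        have := H.α.injective (H.σ.injective (H.σ.injective h'))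
        rw [this] at hyS
        apply hyS
        rw [mem_sS]
        right; right; right
        rfl

theorem orbit (h : H.Dig A) :
    (⟨H.α (H.α A), by rw [αα]; exact h.notMem_of_R h.R⟩ : sD H.σ (H.α A)) ∈
      MulAction.orbit (Subgroup.closure ({sσ h.smo, sα h.smo} : Set (Perm (sD H.σ (H.α A)))))
      (⟨H.α (H.σ (H.α A)), h.notMem_of_R h.RB⟩ : sD H.σ (H.α A)) := by
  refine ⟨⟨sσ h.smo, Subgroup.subset_closure (Set.mem_insert _ _)⟩, ?_⟩
  apply Subtype.ext
  change H.σ (H.α (H.σ (H.α A))) = H.α (H.α A)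
  rw [αα, h.σB]

theorem new_sph (h : H.Dig A) (h2 : H.TwoPlanar) (hs : H.Sph) : (h.new h2).Sph :=
  smo_sph h.smo (by rw [αα]; exact h.notMem_of_R h.R) (h.notMem_of_R h.RB) h.orbit hs

theorem new_card (h : H.Dig A) (h2 : H.TwoPlanar) :
    Fintype.card (h.new h2).D < Fintype.card H.D := by
  have h3 : Fintype.card H.D = Fintype.card (h.new h2).D + 4 := card_sD h.smo
  omega

theorem new_end (h : H.Dig A) (h2 : H.TwoPlanar) :
    ∃ B : (h.new h2).D, (h.new h2).R B ∧
      ((h.new h2).R ((h.new h2).α B) ∨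
        (h.new h2).R ((h.new h2).α ((h.new h2).σ ((h.new h2).σ ((h.new h2).α B))))) ∧
      ((h.new h2).R ((h.new h2).α ((h.new h2).σ B)) ∨
        (h.new h2).R ((h.new h2).α ((h.new h2).σ ((h.new h2).σ
          ((h.new h2).α ((h.new h2).σ B)))))) := by
  have key : ∀ z : H.D, H.R (H.α z) → H.R (sαf H.σ H.α (H.α A) z) := by
    intro z hz
    rw [sαf, if_neg (h.notMem_of_R hz)]
    exact hz
  refine ⟨⟨H.α (H.σ (H.α A)), h.notMem_of_R h.RB⟩, h.RB, ?_, ?_⟩
  · by_cases hc : H.C (H.α (H.σ (H.σ (H.α A))))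
    · right
      change H.R (sαf H.σ H.α (H.α A) (H.σ (H.σ (sαf H.σ H.α (H.α A) (H.α (H.σ (H.α A)))))))
      rw [h.sαf_B]
      exact key _ (h.end_c h2 hc)
    · left
      change H.R (sαf H.σ H.α (H.α A) (H.α (H.σ (H.α A))))
      rw [h.sαf_B]
      exact hc
  · by_cases hc : H.C (H.α (H.σ (H.σ (H.σ (H.α A)))))
    · right
      change H.R (sαf H.σ H.α (H.α A) (H.σ (H.σ (sαf H.σ H.α (H.α A)
        (H.σ (H.α (H.σ (H.α A))))))))
      rw [h.σB, h.sαf_A]
      exact key _ (h.end_d h2 hc)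
    · left
      change H.R (sαf H.σ H.α (H.α A) (H.σ (H.α (H.σ (H.α A)))))
      rw [h.σB, h.sαf_A]
      exact hc

end Dig

theorem digon (hs : H.Sph) (h2 : H.TwoPlanar) (A : H.D) (h1 : H.R A) (h3 : H.C (H.φ A))
    (h4 : H.φ (H.φ A) = A) :
    ∃ H' : Drawing G, Fintype.card H'.D < Fintype.card H.D ∧ H'.Sph ∧ H'.TwoPlanar ∧
      ∃ B : H'.D, H'.R B ∧ (H'.R (H'.α B) ∨ H'.R (H'.α (H'.σ (H'.σ (H'.α B))))) ∧
        (H'.R (H'.α (H'.σ B)) ∨ H'.R (H'.α (H'.σ (H'.σ (H'.α (H'.σ B)))))) := by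
  have h : H.Dig A := ⟨h1, h3, h4⟩
  exact ⟨h.new h2, h.new_card h2, h.new_sph h2 hs, fun y => Dig.ps_le (A := A) h2 y.1, h.new_end h2⟩

end Drawing

end TwoPl
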