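import Pool.Agent.H99.TP.Eul
import Pool.Agent.H99.TP.PenB
import Pool.Agent.H99.TP.SmD
import Pool.Agent.H99.TP.SmB

/-!
# IND: induction on the number of crossings
-/

namespace TwoPl

open Equiv Function

namespace Drawing

variable {V : Type} {G : SimpleGraph V} (H : Drawing G)

/-- In a tight drawing every crossed edge has two crossings. Suppose `R B`, `C (α B)` and
`d = σ² (α B)` ends at a vertex. If `R (φ² B)`: the dart `α (φ B)` starts at a vertex,
`φ (α (φ B)) = d`, `φ d` starts at a vertex, so `t2` gives `C (φ² (φ B)) = C B`.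
If `C (φ² B)`: `u = φ² (α B)` starts at a vertex (`fl`), `φ (α d) = α u`, so `t2` for `α d` gives
`C (φ² d)`, then `cc3` for `α (φ B)` gives `C (φ² (φ B)) = C B`. -/
theorem tight_two (h2 : H.TwoPlanar) (hT : H.Tight) (B : H.D) (hB : H.R B) (hc : H.C (H.α B)) :
    H.C (H.α (H.σ (H.σ (H.α B)))) := by
  by_contra hr
  have cφ : H.C (H.φ B) := by
    rw [C, H.vtx_φ]
    exact hc
  have e3 := hT.rc B hB cφ
  have cd : H.C (H.σ (H.σ (H.α B))) := by
    rw [C, H.vtx_σ, H.vtx_σ]
    exact hc
  have rd : H.R (H.φ (H.σ (H.σ (H.α B)))) := by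
    rw [R, H.vtx_φ]
    exact hr
  have e4 : H.φ (H.α (H.φ B)) = H.σ (H.σ (H.α B)) := by
    rw [H.φ_α, H.φ_apply]
  by_cases h : H.C (H.φ (H.φ B))
  · have f := H.fl h2 B cφ h
    have e5 : H.φ (H.α (H.σ (H.σ (H.α B)))) = H.α (H.φ.symm (H.α B)) := by
      rw [H.φ_α, H.α_φ_symm, H.σs_eq _ hc]
    have c6 := hT.t2 (H.α (H.σ (H.σ (H.α B)))) hr (by rw [C, H.vtx_φ_α]; exact cd)
      (by rw [e5, R, H.vtx_φ_α]; exact f)
    rw [αα] at c6
    have cv : H.C (H.α (H.φ B)) := by
      rw [C, ← H.vtx_φ]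
      exact h
    have c7 := (hT.cc3 (H.α (H.φ B)) cv (by rw [e4]; exact cd) (by rw [e4]; exact rd)).2
    rw [αα, e3] at c7
    exact hB c7
  · have ru : H.R (H.α (H.φ B)) := by
      rw [R, ← H.vtx_φ]
      exact h
    have c7 := hT.t2 (H.α (H.φ B)) ru (by rw [e4]; exact cd) (by rw [e4]; exact rd)
    rw [αα, e3] at c7
    exact hB c7

/-- Strong induction on the number of darts. If `Good` fails use `digon` or `btwo` and the
induction hypothesis for the new drawing: `tight_two` and `not_unc` (for `α B`) give a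
contradiction. -/
theorem tight_all [Fintype V] (hn : 3 ≤ Fintype.card V)
    (hm : G.edgeSet.ncard = 5 * Fintype.card V - 10) (hs : H.Sph) (h2 : H.TwoPlanar) :
    H.Tight ∧ ncomp H.σ H.α = 1 ∧ ∀ v, ∃ d, H.vtx d = some v := by
  induction hk : Fintype.card H.D using Nat.strong_induction_on generalizing H with
  | _ k ih =>
    by_cases hG : H.Good
    · obtain ⟨hT, hc, hv⟩ := H.all_eq hs hG h2 hn hm
      exact ⟨H.tight_of_ty hG h2 hT, hc, hv⟩
    · exfalso
      have hG' : (∃ d, H.R d ∧ H.C (H.φ d) ∧ H.φ (H.φ d) = d) ∨ ∃ g, H.T0 g ∧ H.Tc (H.α g) := by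
        by_contra hcon
        push Not at hcon
        exact hG ⟨fun d x y => hcon.1 d x y, fun g x y => hcon.2 g x y⟩
      rcases hG' with ⟨A, a1, a2, a3⟩ | ⟨g, g1, g2⟩
      · obtain ⟨H', lt, hs', h2', B, hB, p1, p2⟩ := H.digon hs h2 A a1 a2 a3
        have hT' := (ih _ (hk ▸ lt) H' hs' h2' rfl).1
        have rB : H'.R (H'.α B) := by
          intro hc
          have h3 := H'.tight_two h2' hT' B hB hc
          exact p1.elim (fun x => x hc) (fun x => x h3)
        have rσ : H'.R (H'.σ B) := by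
          rw [R, H'.vtx_σ]
          exact hB
        have rσB : H'.R (H'.α (H'.σ B)) := by
          intro hc
          have h3 := H'.tight_two h2' hT' (H'.σ B) rσ hc
          exact p2.elim (fun x => x hc) (fun x => x h3)
        have h4 := (H'.not_unc h2' hT' (H'.α B) ⟨rB, by rw [αα]; exact hB⟩).1
        refine h4 ?_
        have e : H'.px (H'.α B) = H'.σ B := by
          rw [px, αα]
        rw [e]
        exact ⟨rσ, rσB⟩
      · obtain ⟨H', lt, hs', h2', B, hB, p1, p2⟩ := H.btwo hs h2 g g1 g2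
        have hT' := (ih _ (hk ▸ lt) H' hs' h2' rfl).1
        exact p2 (H'.tight_two h2' hT' B hB p1)

end Drawing

/-- Every drawing of an optimal 2-planar graph in which every edge is crossed at most twice has the
pentagon structure. -/
theorem main {V : Type} [Fintype V] (G : SimpleGraph V) (hn : 3 ≤ Fintype.card V)
    (hm : G.edgeSet.ncard = 5 * Fintype.card V - 10) (H : Drawing G) (hs : H.Spherical)
    (h2 : H.TwoPlanar) : H.PentagonStructure := by
  obtain ⟨h1, h3, h4⟩ := H.tight_all hn hm (le_of_eq hs.symm) h2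
  exact H.pentagon_of_tight h2 h1 h3 h4

end TwoPl
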