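import Pool.Agent.H99.TP.Tig

/-!
# PEN: the pentagons

For an uncrossed dart `b` (from `v` to `v'`) put `x = φ b = σ (α b)`, `y = σ x`, `nU b = σ y`,
`g = φ y`. The face of `b` (type `T2`) is `b, x, α y₋`, where `y₋` belongs to the previous uncrossed
dart; the face of `y` (type `T1`) is `y, g, α x`; the face of `α g` is the pentagon `P0`.
Rotation at the crossing `z` where `x` ends: `α x, α y₋, g₋, α g`.
-/

namespace TwoPl

open Equiv Function

namespace Drawing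

variable {V : Type} {G : SimpleGraph V} (H : Drawing G)

/-- the first dart after `α b` -/
def px (b : H.D) : H.D := H.σ (H.α b)

/-- the second dart after `α b` -/
def py (b : H.D) : H.D := H.σ (H.px b)

/-- the next uncrossed dart of the face walk -/
def nU (b : H.D) : H.D := H.σ (H.py b)

/-- the side of the inner pentagon which faces the end of `b` -/
def pg (b : H.D) : H.D := H.φ (H.py b)

theorem px_eq (b : H.D) : H.px b = H.φ b := rfl

theorem nU_injective : Injective H.nU := by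
  intro x y h
  exact H.α.injective (H.σ.injective (H.σ.injective (H.σ.injective h)))

theorem pg_injective : Injective H.pg := by
  intro x y h
  exact H.α.injective (H.σ.injective (H.σ.injective (H.φ.injective h)))

/-- local structure at the end of an uncrossed dart -/
theorem pen1 (h2 : H.TwoPlanar) (hT : H.Tight) (b : H.D) (hb : H.Unc b) :
    (H.R (H.px b) ∧ H.C (H.φ (H.px b)) ∧ H.φ (H.φ (H.px b)) = b ∧ H.φ b = H.px b) ∧
    (H.R (H.py b) ∧ H.C (H.pg b) ∧ H.φ (H.pg b) = H.α (H.px b) ∧ H.φ (H.α (H.px b)) = H.py b) ∧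
    H.Unc (H.nU b) ∧ H.φ (H.α (H.py b)) = H.nU b ∧ H.φ (H.nU b) = H.px (H.nU b) ∧
    H.φ (H.px (H.nU b)) = H.α (H.py b) := by
  have r1 : H.R (H.φ b) := by
    rw [R, H.vtx_φ]
    exact hb.2
  obtain ⟨c2, e3⟩ := hT.rr b hb.1 r1
  have cap : H.C (H.α (H.px b)) := by
    rw [C, ← H.vtx_φ]
    exact c2
  have rp : H.R (H.px b) := r1
  have e0 : H.φ (H.α (H.px b)) = H.py b := H.φ_α _
  have rq : H.R (H.py b) := by
    rw [R, ← e0, H.vtx_φ_α]
    exact rp
  have e4 := hT.cr (H.α (H.px b)) cap (by rw [e0]; exact rq)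
  have c5 := hT.t2 (H.px b) rp c2 (by rw [H.px_eq, e3]; exact hb.1)
  rw [e0] at e4 c5
  have caq : H.C (H.α (H.py b)) := by
    rw [C, ← H.vtx_φ]
    exact c5
  have e6 : H.φ (H.α (H.py b)) = H.nU b := H.φ_α _
  have rn : H.R (H.nU b) := by
    rw [R, ← e6, H.vtx_φ_α]
    exact rq
  have e7 := hT.cr (H.α (H.py b)) caq (by rw [e6]; exact rn)
  rw [e6] at e7
  have f := H.fl h2 (H.py b) c5 (by rw [e4]; exact cap)
  have e8 : H.φ.symm (H.α (H.py b)) = H.φ (H.nU b) := by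
    rw [Equiv.symm_apply_eq]
    exact e7.symm
  rw [e8] at f
  refine ⟨⟨rp, c2, e3, rfl⟩, ⟨rq, c5, e4, e0⟩, ⟨rn, ?_⟩, e6, rfl, e7⟩
  rw [← H.vtx_φ]
  exact f

/-- rotation at the crossing where `px (nU b)` and `py b` end -/
theorem pen2 (h2 : H.TwoPlanar) (hT : H.Tight) (b : H.D) (hb : H.Unc b) :
    H.σ (H.α (H.px (H.nU b))) = H.α (H.py b) ∧ H.σ (H.α (H.py b)) = H.pg b ∧
    H.σ (H.pg b) = H.α (H.pg (H.nU b)) ∧ H.σ (H.α (H.pg (H.nU b))) = H.α (H.px (H.nU b)) ∧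
    H.C (H.pg b) := by
  obtain ⟨-, ⟨rq, c5, e4, e0⟩, hn, e6, e7, e8⟩ := H.pen1 h2 hT b hb
  obtain ⟨-, ⟨rq', c5', e4', e0'⟩, hn', e6', e7', e8'⟩ := H.pen1 h2 hT (H.nU b) hn
  have s1 : H.σ (H.α (H.px (H.nU b))) = H.α (H.py b) := e8
  have s2 : H.σ (H.α (H.py b)) = H.pg b := rfl
  have s4 : H.σ (H.α (H.pg (H.nU b))) = H.α (H.px (H.nU b)) := e4'
  have c : H.C (H.α (H.px (H.nU b))) := by
    rw [C, ← e4', H.vtx_φ, ← H.vtx_σ, s4, ← H.vtx_σ, s1, ← H.vtx_σ, s2]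
    exact c5
  have s5 := H.four _ c
  rw [s1, s2] at s5
  refine ⟨s1, s2, ?_, s4, c5⟩
  exact H.σ.injective (s5.trans s4.symm)

/-- `φ (α (pg b)) = α (pg (nU b))`, and `α (pg b)` lies in a pentagon: five steps lead back -/
theorem nU_five (h2 : H.TwoPlanar) (hT : H.Tight) (b : H.D) (hb : H.Unc b) :
    H.nU (H.nU (H.nU (H.nU (H.nU b)))) = b := by
  have step : ∀ b, H.Unc b → H.φ (H.α (H.pg b)) = H.α (H.pg (H.nU b)) := by
    intro b hb
    rw [H.φ_α]
    exact (H.pen2 h2 hT b hb).2.2.1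
  have u1 := (H.pen1 h2 hT b hb).2.2.1
  have u2 := (H.pen1 h2 hT _ u1).2.2.1
  have u3 := (H.pen1 h2 hT _ u2).2.2.1
  have u4 := (H.pen1 h2 hT _ u3).2.2.1
  have cg : ∀ b, H.Unc b → H.C (H.α (H.pg b)) := by
    intro b hb
    have h1 := H.pen1 h2 hT b hb
    rw [C, ← H.vtx_φ, h1.2.1.2.2.1, ← H.vtx_φ]
    exact h1.1.2.1
  have h5 := (hT.cc5 (H.α (H.pg b)) (cg b hb) (by rw [step b hb]; exact cg _ u1)
    (by rw [step b hb, step _ u1]; exact cg _ u2)).1
  rw [step b hb, step _ u1, step _ u2, step _ u3, step _ u4] at h5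
  exact H.pg_injective (H.α.injective h5)

theorem unc_nU (h2 : H.TwoPlanar) (hT : H.Tight) (b : H.D) (hb : H.Unc b) : H.Unc (H.nU b) :=
  (H.pen1 h2 hT b hb).2.2.1

/-- the end of `b` is the start of the following darts -/
theorem src_nU (b : H.D) (hb : H.Unc b) : H.src (H.px b) = H.tgt b ∧ H.src (H.py b) = H.tgt b ∧
    H.src (H.nU b) = H.tgt b := by
  obtain ⟨v, hv⟩ := Option.ne_none_iff_exists'.1 hb.2
  have h0 := H.src_vtx _ _ hv
  rw [src_α] at h0
  have h1 : H.vtx (H.px b) = some v := by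
    rw [px, H.vtx_σ]
    exact hv
  have h2 : H.vtx (H.py b) = some v := by
    rw [py, H.vtx_σ]
    exact h1
  have h3 : H.vtx (H.nU b) = some v := by
    rw [nU, H.vtx_σ]
    exact h2
  exact ⟨(H.src_vtx _ _ h1).trans h0.symm, (H.src_vtx _ _ h2).trans h0.symm,
    (H.src_vtx _ _ h3).trans h0.symm⟩

/-- edges through the crossings: `px (nU² b)` continues with `pg (nU b)` and `α (py b)` -/
theorem pen_lab (h2 : H.TwoPlanar) (hT : H.Tight) (b : H.D) (hb : H.Unc b) :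
    H.tgt (H.px (H.nU (H.nU b))) = H.src (H.py b) ∧
    H.tgt (H.py b) = H.src (H.px (H.nU (H.nU b))) ∧
    H.src (H.pg (H.nU b)) = H.src (H.px (H.nU (H.nU b))) ∧
    H.tgt (H.pg (H.nU b)) = H.src (H.py b) := by
  have u1 := H.unc_nU h2 hT b hb
  obtain ⟨s1, s2, s3, s4, c5⟩ := H.pen2 h2 hT b hb
  obtain ⟨t1, t2, t3, t4, c6⟩ := H.pen2 h2 hT _ u1
  -- `px (nU (nU b))` continues with `pg (nU b)`
  have ca : H.C (H.α (H.px (H.nU (H.nU b)))) := by
    rw [C, ← H.vtx_σ, t1, ← H.vtx_σ, t2]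
    exact c6
  have l1 := H.cont _ ca
  rw [t1, t2] at l1
  -- `pg (nU b)` continues with `α (py b)`
  have cb : H.C (H.α (H.pg (H.nU b))) := by
    rw [C, ← s3, H.vtx_σ]
    exact c5
  have l2 := H.cont _ cb
  rw [s4, s1, src_α, tgt_α] at l2
  exact ⟨l1.2.symm.trans l2.2.symm, l2.1.trans l1.1, l1.1, l2.2.symm⟩

/-- `px b` and `py b` are not uncrossed -/
theorem not_unc (h2 : H.TwoPlanar) (hT : H.Tight) (b : H.D) (hb : H.Unc b) :
    ¬ H.Unc (H.px b) ∧ ¬ H.Unc (H.py b) := by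
  obtain ⟨⟨rp, c2, e3, -⟩, ⟨rq, c5, -, -⟩, -⟩ := H.pen1 h2 hT b hb
  constructor
  · intro h
    refine h.2 ?_
    rw [← H.vtx_φ]
    exact c2
  · intro h
    refine h.2 ?_
    rw [← H.vtx_φ]
    exact c5

end Drawing

end TwoPl
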