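import Pool.Agent.H99.TP.GDefs
import Pool.Agent.H99.TP.Ind

/-!
# PERT: a crossing point of three edges is replaced by three crossings

Every edge through a crossing point of three edges `T` has no other crossings. The six darts at the
point are numbered; for the even ones `ev` the darts `d` and `σ d` start at a new crossing, with two
new darts (again called `d` and `σ d`, in the second summand) opposite to them; the new dart `d` is
the segment from the new crossing of `d` to the new crossing of `σ³ d`.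
-/

namespace TwoPl

open Equiv Function

namespace TopGraph

variable {V : Type} {G : SimpleGraph V} (H : TopGraph G)

/-- three edges cross at the point at which `d` starts -/
def T (d : H.D) : Prop := H.vtx d = none ∧ H.mul d = 3

theorem pow_three {D : Type} (f : Perm D) (d : D) : (f ^ 3) d = f (f (f d)) := rfl

theorem pow_two' {D : Type} (f : Perm D) (d : D) : (f ^ 2) d = f (f d) := rfl

@[simp] theorem αα (d : H.D) : H.α (H.α d) = d := H.α_α d

theorem vtx_σs (d : H.D) : H.vtx (H.σ.symm d) = H.vtx d := by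
  have := H.vtx_σ (H.σ.symm d)
  rw [Equiv.apply_symm_apply] at this
  exact this.symm

theorem mul_σs (d : H.D) : H.mul (H.σ.symm d) = H.mul d := by
  have := H.mul_σ (H.σ.symm d)
  rw [Equiv.apply_symm_apply] at this
  exact this.symm

theorem T_σ (d : H.D) : H.T (H.σ d) ↔ H.T d := by
  unfold T
  rw [H.vtx_σ, H.mul_σ]

theorem T_σs (d : H.D) : H.T (H.σ.symm d) ↔ H.T d := by
  unfold T
  rw [H.vtx_σs, H.mul_σs]

theorem tgt_α (d : H.D) : H.tgt (H.α d) = H.src d := by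
  have := H.src_α (H.α d)
  rw [αα] at this
  exact this.symm

theorem mul_le (h2 : H.TwoPlanar) (d : H.D) (hd : H.vtx d = none) : H.mul d ≤ 3 := by
  have h1 := H.pos_step (H.α d) (by rw [αα]; exact hd)
  rw [αα] at h1
  have h3 := h2 ((H.σ ^ H.mul d) d)
  omega

theorem mul_two (h2 : H.TwoPlanar) (d : H.D) (hd : H.vtx d = none) (hT : ¬ H.T d) :
    H.mul d = 2 := by
  have h1 := H.mul_le h2 d hd
  have h3 := H.two_le d hd
  have h4 : H.mul d ≠ 3 := fun h => hT ⟨hd, h⟩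
  omega

variable {H}

theorem T.src {d : H.D} (h : H.T d) : H.src (H.σ (H.σ (H.σ d))) = H.tgt d := by
  have := (H.straight d h.1).1
  rw [h.2] at this
  exact this

theorem T.tgt {d : H.D} (h : H.T d) : H.tgt (H.σ (H.σ (H.σ d))) = H.src d := by
  have := (H.straight d h.1).2
  rw [h.2] at this
  exact this

theorem T.six {d : H.D} (h : H.T d) : H.σ (H.σ (H.σ (H.σ (H.σ (H.σ d))))) = d := by
  have := H.deg d h.1
  rw [h.2] at this
  exact this

theorem T.t1 {d : H.D} (h : H.T d) :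
    s(H.src (H.σ d), H.tgt (H.σ d)) ≠ s(H.src d, H.tgt d) :=
  H.transv d 1 h.1 one_pos (by rw [h.2]; norm_num)

theorem T.t2 {d : H.D} (h : H.T d) :
    s(H.src (H.σ (H.σ d)), H.tgt (H.σ (H.σ d))) ≠ s(H.src d, H.tgt d) :=
  H.transv d 2 h.1 two_pos (by rw [h.2]; norm_num)

theorem T.p1 (h2 : H.TwoPlanar) {d : H.D} (h : H.T d) : H.pos (H.α d) = 0 := by
  have h1 := H.pos_step (H.α d) (by rw [αα]; exact h.1)
  rw [αα, h.2] at h1
  have h3 := h2 ((H.σ ^ 3) d)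
  omega

theorem T.p2 (h2 : H.TwoPlanar) {d : H.D} (h : H.T d) : H.pos (H.σ (H.σ (H.σ d))) = 2 := by
  have h1 := H.pos_step (H.α d) (by rw [αα]; exact h.1)
  rw [αα, h.2, h.p1 h2] at h1
  exact h1

theorem T.p3 (h2 : H.TwoPlanar) {d : H.D} (h : H.T d) : H.pos d = 2 := by
  have h1 : H.T (H.σ (H.σ (H.σ d))) := by
    rw [H.T_σ, H.T_σ, H.T_σ]
    exact h
  have h3 := h1.p2 h2
  rw [h.six] at h3
  exact h3

variable (H)

/-- representative of the point -/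
noncomputable def rp (d : H.D) : H.D := (Quotient.mk (Perm.SameCycle.setoid H.σ) d).out

theorem rp_same (d : H.D) : H.σ.SameCycle (H.rp d) d :=
  Quotient.mk_out (s := Perm.SameCycle.setoid H.σ) d

theorem rp_σ (d : H.D) : H.rp (H.σ d) = H.rp d := by
  unfold rp
  congr 1
  refine Quotient.sound ?_
  show H.σ.SameCycle (H.σ d) d
  exact (Perm.sameCycle_apply_left).2 (Perm.SameCycle.refl _ _)

/-- even darts -/
def ev (d : H.D) : Prop := ∃ i : ℕ, (H.σ ^ (2 * i)) (H.rp d) = d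

variable {H}

theorem T_pow (d : H.D) (n : ℕ) : H.T ((H.σ ^ n) d) ↔ H.T d := by
  induction n with
  | zero => rfl
  | succ n ih =>
    rw [pow_succ', Perm.mul_apply, T_σ]
    exact ih

theorem T.rp {d : H.D} (h : H.T d) : H.T (H.rp d) := by
  obtain ⟨n, hn⟩ := (H.rp_same d).exists_nat_pow_eq
  rw [← T_pow _ n, hn]
  exact h

theorem T.odd {d : H.D} (h : H.T d) (k : ℕ) (hk : (H.σ ^ (2 * k + 1)) d = d) : False := by
  have h6 : (H.σ ^ 6) d = d := h.six
  have h1 : ∀ m : ℕ, (H.σ ^ ((2 * k + 1) * m)) d = d := by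
    intro m
    induction m with
    | zero => rfl
    | succ m ih => rw [Nat.mul_succ, pow_add, Perm.mul_apply, hk, ih]
  have h2 : ∀ m : ℕ, (H.σ ^ (6 * m)) d = d := by
    intro m
    induction m with
    | zero => rfl
    | succ m ih => rw [Nat.mul_succ, pow_add, Perm.mul_apply, h6, ih]
  have h3 := h1 3
  have e : (2 * k + 1) * 3 = 3 + 6 * k := by ring
  rw [e, pow_add, Perm.mul_apply, h2] at h3
  have h4 := h.src
  rw [pow_three] at h3
  rw [h3] at h4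
  exact (H.adj d).ne h4

theorem T.ev_σ {d : H.D} (h : H.T d) : H.ev (H.σ d) ↔ ¬ H.ev d := by
  unfold ev
  rw [H.rp_σ]
  constructor
  · rintro ⟨i, hi⟩ ⟨j, hj⟩
    have h1 : (H.σ ^ (2 * j + 1)) (H.rp d) = (H.σ ^ (2 * i)) (H.rp d) := by
      rw [pow_succ', Perm.mul_apply, hj, hi]
    rcases le_or_gt (2 * i) (2 * j) with hij | hij
    · obtain ⟨k, rfl⟩ : ∃ k, j = i + k := ⟨j - i, by omega⟩
      have h3 : (H.σ ^ (2 * i)) ((H.σ ^ (2 * k + 1)) (H.rp d)) = (H.σ ^ (2 * i)) (H.rp d) := by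
        rw [← Perm.mul_apply, ← pow_add, ← h1]
        congr 2
        ring
      exact h.rp.odd k ((H.σ ^ (2 * i)).injective h3)
    · obtain ⟨k, rfl⟩ : ∃ k, i = j + k + 1 := ⟨i - j - 1, by omega⟩
      have h3 : (H.σ ^ (2 * j + 1)) ((H.σ ^ (2 * k + 1)) (H.rp d)) =
          (H.σ ^ (2 * j + 1)) (H.rp d) := by
        rw [h1, ← Perm.mul_apply, ← pow_add]
        congr 2
        ring
      exact h.rp.odd k ((H.σ ^ (2 * j + 1)).injective h3)
  · intro hn
    obtain ⟨n, hn'⟩ := (H.rp_same d).exists_nat_pow_eq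
    rcases Nat.even_or_odd' n with ⟨k, rfl | rfl⟩
    · exact absurd ⟨k, hn'⟩ hn
    · refine ⟨k + 1, ?_⟩
      have e : 2 * (k + 1) = (2 * k + 1) + 1 := by ring
      rw [e, pow_succ', Perm.mul_apply, hn']

theorem T.ev_σs {d : H.D} (h : H.T d) : H.ev (H.σ.symm d) ↔ ¬ H.ev d := by
  have h1 := T.ev_σ ((H.T_σs d).2 h)
  rw [Equiv.apply_symm_apply] at h1
  rw [h1, not_not]

variable (H)

/-- the darts of the new drawing -/
abbrev nD : Type := H.D ⊕ {d : H.D // H.T d}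

open Classical in
/-- the new rotation -/
noncomputable def s1 : H.nD → H.nD
  | Sum.inl d => if h : H.T d ∧ ¬ H.ev d then Sum.inr ⟨H.σ.symm d, (H.T_σs d).2 h.1⟩
      else Sum.inl (H.σ d)
  | Sum.inr d => if H.ev d.1 then Sum.inr ⟨H.σ d.1, (H.T_σ d.1).2 d.2⟩ else Sum.inl (H.σ.symm d.1)

open Classical in
/-- the inverse of the new rotation -/
noncomputable def s2 : H.nD → H.nD
  | Sum.inl d => if h : H.T d ∧ H.ev d then Sum.inr ⟨H.σ d, (H.T_σ d).2 h.1⟩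
      else Sum.inl (H.σ.symm d)
  | Sum.inr d => if H.ev d.1 then Sum.inl (H.σ d.1) else Sum.inr ⟨H.σ.symm d.1, (H.T_σs d.1).2 d.2⟩

variable {H}

/-- all darts of the new drawing -/
theorem nD_cases {P : H.nD → Prop} (h0 : ∀ d, ¬ H.T d → P (Sum.inl d))
    (h1 : ∀ (d : H.D) (h : H.T d), H.ev d → P (Sum.inl d) ∧ P (Sum.inl (H.σ d)) ∧
      P (Sum.inr ⟨d, h⟩) ∧ P (Sum.inr ⟨H.σ d, (H.T_σ d).2 h⟩)) (x : H.nD) : P x := by
  rcases x with d | ⟨d, hd⟩
  · by_cases hT : H.T d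
    · by_cases he : H.ev d
      · exact (h1 d hT he).1
      · have h3 := (h1 (H.σ.symm d) ((H.T_σs d).2 hT) (hT.ev_σs.2 he)).2.1
        rw [Equiv.apply_symm_apply] at h3
        exact h3
    · exact h0 d hT
  · by_cases he : H.ev d
    · exact (h1 d hd he).2.2.1
    · have h3 := (h1 (H.σ.symm d) ((H.T_σs d).2 hd) (hd.ev_σs.2 he)).2.2.2
      have e : (⟨H.σ (H.σ.symm d), (H.T_σ _).2 ((H.T_σs d).2 hd)⟩ : {d // H.T d}) = ⟨d, hd⟩ :=
        Subtype.ext (Equiv.apply_symm_apply _ _)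
      rw [e] at h3
      exact h3

theorem s1_nT {d : H.D} (h : ¬ H.T d) : H.s1 (Sum.inl d) = Sum.inl (H.σ d) := by
  classical
  show (if h : H.T d ∧ ¬ H.ev d then _ else _) = _
  rw [dif_neg fun h' => h h'.1]

theorem s1_0 {d : H.D} (h : H.T d) (he : H.ev d) : H.s1 (Sum.inl d) = Sum.inl (H.σ d) := by
  classical
  show (if h : H.T d ∧ ¬ H.ev d then _ else _) = _
  rw [dif_neg fun h' => h'.2 he]

theorem s1_1 {d : H.D} (h : H.T d) (he : H.ev d) : H.s1 (Sum.inl (H.σ d)) = Sum.inr ⟨d, h⟩ := by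
  have h1 : H.T (H.σ d) := (H.T_σ d).2 h
  have h3 : ¬ H.ev (H.σ d) := fun h' => h.ev_σ.1 h' he
  classical
  show (if h : H.T (H.σ d) ∧ ¬ H.ev (H.σ d) then _ else _) = _
  rw [dif_pos ⟨h1, h3⟩]
  exact congrArg Sum.inr (Subtype.ext (Equiv.symm_apply_apply _ _))

theorem s1_2 {d : H.D} (h : H.T d) (he : H.ev d) :
    H.s1 (Sum.inr ⟨d, h⟩) = Sum.inr ⟨H.σ d, (H.T_σ d).2 h⟩ := by
  classical
  show (if H.ev d then _ else _) = _
  rw [if_pos he]

theorem s1_3 {d : H.D} (h : H.T d) (he : H.ev d) :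
    H.s1 (Sum.inr ⟨H.σ d, (H.T_σ d).2 h⟩) = Sum.inl d := by
  have h3 : ¬ H.ev (H.σ d) := fun h' => h.ev_σ.1 h' he
  classical
  show (if H.ev (H.σ d) then _ else _) = _
  rw [if_neg h3]
  exact congrArg Sum.inl (Equiv.symm_apply_apply _ _)

theorem s2_nT {d : H.D} (h : ¬ H.T d) : H.s2 (Sum.inl (H.σ d)) = Sum.inl d := by
  have h1 : ¬ H.T (H.σ d) := fun h' => h ((H.T_σ d).1 h')
  classical
  show (if h : H.T (H.σ d) ∧ H.ev (H.σ d) then _ else _) = _
  rw [dif_neg fun h' => h1 h'.1]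
  exact congrArg Sum.inl (Equiv.symm_apply_apply _ _)

theorem s2_0 {d : H.D} (h : H.T d) (he : H.ev d) :
    H.s2 (Sum.inl d) = Sum.inr ⟨H.σ d, (H.T_σ d).2 h⟩ := by
  classical
  show (if h : H.T d ∧ H.ev d then _ else _) = _
  rw [dif_pos ⟨h, he⟩]

theorem s2_1 {d : H.D} (h : H.T d) (he : H.ev d) : H.s2 (Sum.inl (H.σ d)) = Sum.inl d := by
  have h3 : ¬ H.ev (H.σ d) := fun h' => h.ev_σ.1 h' he
  classical
  show (if h : H.T (H.σ d) ∧ H.ev (H.σ d) then _ else _) = _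
  rw [dif_neg fun h' => h3 h'.2]
  exact congrArg Sum.inl (Equiv.symm_apply_apply _ _)

theorem s2_2 {d : H.D} (h : H.T d) (he : H.ev d) : H.s2 (Sum.inr ⟨d, h⟩) = Sum.inl (H.σ d) := by
  classical
  show (if H.ev d then _ else _) = _
  rw [if_pos he]

theorem s2_3 {d : H.D} (h : H.T d) (he : H.ev d) :
    H.s2 (Sum.inr ⟨H.σ d, (H.T_σ d).2 h⟩) = Sum.inr ⟨d, h⟩ := by
  have h3 : ¬ H.ev (H.σ d) := fun h' => h.ev_σ.1 h' he
  classical
  show (if H.ev (H.σ d) then _ else _) = _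
  rw [if_neg h3]
  exact congrArg Sum.inr (Subtype.ext (Equiv.symm_apply_apply _ _))

theorem s2_s1 (x : H.nD) : H.s2 (H.s1 x) = x := by
  refine nD_cases (P := fun x => H.s2 (H.s1 x) = x) ?_ ?_ x
  · intro d h
    rw [s1_nT h, s2_nT h]
  · intro d h he
    refine ⟨?_, ?_, ?_, ?_⟩
    · rw [s1_0 h he, s2_1 h he]
    · rw [s1_1 h he, s2_2 h he]
    · rw [s1_2 h he, s2_3 h he]
    · rw [s1_3 h he, s2_0 h he]

theorem s1_s2 (x : H.nD) : H.s1 (H.s2 x) = x := by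
  refine nD_cases (P := fun x => H.s1 (H.s2 x) = x) ?_ ?_ x
  · intro d h
    have h1 : ¬ H.T (H.σ.symm d) := fun h' => h ((H.T_σs d).1 h')
    have h3 := s2_nT h1
    rw [Equiv.apply_symm_apply] at h3
    rw [h3, s1_nT h1, Equiv.apply_symm_apply]
  · intro d h he
    refine ⟨?_, ?_, ?_, ?_⟩
    · rw [s2_0 h he, s1_3 h he]
    · rw [s2_1 h he, s1_0 h he]
    · rw [s2_2 h he, s1_1 h he]
    · rw [s2_3 h he, s1_2 h he]

variable (H)

/-- the new rotation -/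
noncomputable def nσ : Perm H.nD := ⟨H.s1, H.s2, s2_s1, s1_s2⟩

theorem T_pow3 (d : H.D) : H.T ((H.σ ^ 3) d) ↔ H.T d := T_pow d 3

/-- the new reversal -/
def nα : Perm H.nD := Equiv.sumCongr H.α ((H.σ ^ 3).subtypePerm H.T_pow3)

/-- the new positions -/
def npos : H.nD → ℕ := Sum.elim H.pos (fun d => H.pos (H.α d.1) + 1)

variable {H}

theorem nσ_nT {d : H.D} (h : ¬ H.T d) : H.nσ (Sum.inl d) = Sum.inl (H.σ d) := s1_nT h

theorem nσ_0 {d : H.D} (h : H.T d) (he : H.ev d) : H.nσ (Sum.inl d) = Sum.inl (H.σ d) := s1_0 h he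

theorem nσ_1 {d : H.D} (h : H.T d) (he : H.ev d) : H.nσ (Sum.inl (H.σ d)) = Sum.inr ⟨d, h⟩ :=
  s1_1 h he

theorem nσ_2 {d : H.D} (h : H.T d) (he : H.ev d) :
    H.nσ (Sum.inr ⟨d, h⟩) = Sum.inr ⟨H.σ d, (H.T_σ d).2 h⟩ := s1_2 h he

theorem nσ_3 {d : H.D} (h : H.T d) (he : H.ev d) :
    H.nσ (Sum.inr ⟨H.σ d, (H.T_σ d).2 h⟩) = Sum.inl d := s1_3 h he

theorem nα_l (d : H.D) : H.nα (Sum.inl d) = Sum.inl (H.α d) := rfl

theorem nα_r (d : H.D) (h : H.T d) : H.nα (Sum.inr ⟨d, h⟩) = Sum.inr ⟨(H.σ ^ 3) d, (H.T_pow3 d).2 h⟩ :=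
  rfl

/-- opposite darts -/
theorem opp_l {d : H.D} (h : H.T d) : H.nσ (H.nσ (Sum.inl d)) = Sum.inr ⟨d, h⟩ := by
  by_cases he : H.ev d
  · rw [nσ_0 h he, nσ_1 h he]
  · have h1 : H.T (H.σ.symm d) := (H.T_σs d).2 h
    have h3 := nσ_1 h1 (h.ev_σs.2 he)
    rw [Equiv.apply_symm_apply] at h3
    rw [h3, nσ_2 h1 (h.ev_σs.2 he)]
    exact congrArg Sum.inr (Subtype.ext (Equiv.apply_symm_apply _ _))

theorem opp_r {d : H.D} (h : H.T d) : H.nσ (H.nσ (Sum.inr ⟨d, h⟩)) = Sum.inl d := by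
  by_cases he : H.ev d
  · rw [nσ_2 h he, nσ_3 h he]
  · have h1 : H.T (H.σ.symm d) := (H.T_σs d).2 h
    have h3 := nσ_3 h1 (h.ev_σs.2 he)
    have e : (⟨H.σ (H.σ.symm d), (H.T_σ _).2 ((H.T_σs d).2 h)⟩ : {d // H.T d}) = ⟨d, h⟩ :=
      Subtype.ext (Equiv.apply_symm_apply _ _)
    rw [e] at h3
    rw [h3, nσ_0 h1 (h.ev_σs.2 he)]
    exact congrArg Sum.inl (Equiv.apply_symm_apply _ _)

theorem opp_n {d : H.D} (h : ¬ H.T d) : H.nσ (H.nσ (Sum.inl d)) = Sum.inl (H.σ (H.σ d)) := by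
  rw [nσ_nT h, nσ_nT (fun h' => h ((H.T_σ d).1 h'))]

end TopGraph

end TwoPl
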