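import Pool.Agent.H99.TP.Pert

/-!
# PERTB: the new drawing
-/

namespace TwoPl

open Equiv Function

namespace TopGraph

variable {V : Type} {G : SimpleGraph V} {H : TopGraph G}

theorem nT_of_real {d : H.D} (h : H.vtx d ≠ none) : ¬ H.T d := fun h' => h h'.1

theorem npow {d : H.D} (h : H.vtx d ≠ none) (n : ℕ) :
    (H.nσ ^ n) (Sum.inl d) = Sum.inl ((H.σ ^ n) d) := by
  induction n with
  | zero => rfl
  | succ n ih =>
    rw [pow_succ', Perm.mul_apply, ih, pow_succ', Perm.mul_apply]
    refine nσ_nT ?_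
    rw [T_pow]
    exact nT_of_real h

theorem n_four (x : H.nD) (h2 : H.TwoPlanar)
    (hx : Sum.elim H.vtx (fun _ => none) x = none) : H.nσ (H.nσ (H.nσ (H.nσ x))) = x := by
  rcases x with d | ⟨d, hd⟩
  · by_cases hT : H.T d
    · rw [opp_l hT, opp_r hT]
    · have h1 := H.deg d hx
      rw [H.mul_two h2 d hx hT] at h1
      rw [opp_n hT, opp_n (fun h' => hT ((H.T_σ _).1 ((H.T_σ _).1 h')))]
      exact congrArg Sum.inl h1
  · rw [opp_r hd, opp_l hd]

theorem n_straight (x : H.nD) (h2 : H.TwoPlanar)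
    (hx : Sum.elim H.vtx (fun _ => none) x = none) :
    Sum.elim H.src (fun d => H.tgt d.1) (H.nσ (H.nσ x)) = Sum.elim H.tgt (fun d => H.src d.1) x ∧
    Sum.elim H.tgt (fun d => H.src d.1) (H.nσ (H.nσ x)) = Sum.elim H.src (fun d => H.tgt d.1) x := by
  rcases x with d | ⟨d, hd⟩
  · by_cases hT : H.T d
    · rw [opp_l hT]
      exact ⟨rfl, rfl⟩
    · rw [opp_n hT]
      have h1 := H.straight d hx
      rw [H.mul_two h2 d hx hT] at h1
      exact h1
  · rw [opp_r hd]
    exact ⟨rfl, rfl⟩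

theorem n_transv (x : H.nD) (h2 : H.TwoPlanar)
    (hx : Sum.elim H.vtx (fun _ => none) x = none) :
    s(Sum.elim H.src (fun d => H.tgt d.1) (H.nσ x), Sum.elim H.tgt (fun d => H.src d.1) (H.nσ x)) ≠
    s(Sum.elim H.src (fun d => H.tgt d.1) x, Sum.elim H.tgt (fun d => H.src d.1) x) := by
  revert hx
  refine nD_cases (P := fun x => Sum.elim H.vtx (fun _ => none) x = none →
    s(Sum.elim H.src (fun d => H.tgt d.1) (H.nσ x), Sum.elim H.tgt (fun d => H.src d.1) (H.nσ x)) ≠
    s(Sum.elim H.src (fun d => H.tgt d.1) x, Sum.elim H.tgt (fun d => H.src d.1) x)) ?_ ?_ x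
  · intro d h hx
    rw [nσ_nT h]
    exact H.transv d 1 hx one_pos (by rw [H.mul_two h2 d hx h]; norm_num)
  · intro d h he
    refine ⟨fun _ => ?_, fun _ => ?_, fun _ => ?_, fun _ => ?_⟩
    · rw [nσ_0 h he]
      exact h.t1
    · rw [nσ_1 h he]
      intro hc
      refine h.t1 ?_
      rw [Sym2.eq_swap (a := H.src d)]
      exact hc.symm
    · rw [nσ_2 h he]
      intro hc
      refine h.t1 ?_
      rw [Sym2.eq_swap, Sym2.eq_swap (a := H.src d)]
      exact hc
    · rw [nσ_3 h he]
      intro hc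
      refine h.t1 ?_
      rw [Sym2.eq_swap]
      exact hc.symm

theorem n_pos (x : H.nD) (h2 : H.TwoPlanar)
    (hx : Sum.elim H.vtx (fun _ => none) (H.nα x) = none) :
    H.npos (H.nσ (H.nσ (H.nα x))) = H.npos x + 1 := by
  rcases x with d | ⟨d, hd⟩
  · rw [nα_l] at hx ⊢
    by_cases hT : H.T (H.α d)
    · rw [opp_l hT]
      show H.pos (H.α (H.α d)) + 1 = H.pos d + 1
      rw [αα]
    · rw [opp_n hT]
      have h1 := H.pos_step d hx
      rw [H.mul_two h2 _ hx hT] at h1
      exact h1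
  · rw [nα_r, opp_r]
    show H.pos ((H.σ ^ 3) d) = H.pos (H.α d) + 1 + 1
    have h1 := hd.p2 h2
    have h3 := hd.p1 h2
    rw [pow_three, h1, h3]

variable (H)

/-- the new drawing -/
noncomputable def new (h2 : H.TwoPlanar) : Drawing G where
  D := H.nD
  fin := by
    classical
    exact inferInstance
  dec := Classical.decEq _
  α := H.nα
  σ := H.nσ
  vtx := Sum.elim H.vtx (fun _ => none)
  src := Sum.elim H.src (fun d => H.tgt d.1)
  tgt := Sum.elim H.tgt (fun d => H.src d.1)
  pos := H.npos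
  α_α := by
    rintro (d | ⟨d, hd⟩)
    · rw [nα_l, nα_l, αα]
    · rw [nα_r, nα_r]
      refine congrArg Sum.inr (Subtype.ext ?_)
      exact hd.six
  vtx_σ := by
    intro x
    refine nD_cases (P := fun x => Sum.elim H.vtx (fun _ => none) (H.nσ x) =
      Sum.elim H.vtx (fun _ => none) x) ?_ ?_ x
    · intro d h
      rw [nσ_nT h]
      exact H.vtx_σ d
    · intro d h he
      refine ⟨?_, ?_, ?_, ?_⟩
      · rw [nσ_0 h he]
        exact H.vtx_σ d
      · rw [nσ_1 h he]
        show none = H.vtx (H.σ d)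
        rw [H.vtx_σ, h.1]
      · rw [nσ_2 h he]
        rfl
      · rw [nσ_3 h he]
        exact h.1
  rot := by
    rintro (d | d) (d' | d') h h'
    · obtain ⟨n, hn⟩ := (H.rot d d' h h').exists_pow_eq'
      refine ⟨n, ?_⟩
      rw [zpow_natCast, npow h, hn.2]
    · exact absurd h' h
    · exact absurd rfl h
    · exact absurd rfl h
  four := fun x hx => n_four x h2 hx
  src_α := by
    rintro (d | ⟨d, hd⟩)
    · exact H.src_α d
    · rw [nα_r]
      exact hd.tgt
  adj := by
    rintro (d | ⟨d, hd⟩)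
    · exact H.adj d
    · exact (H.adj d).symm
  src_vtx := by
    rintro (d | ⟨d, hd⟩) v h
    · exact H.src_vtx d v h
    · cases h
  uniq := by
    rintro (d | d) (d' | d') h h' hs ht
    · exact congrArg Sum.inl (H.uniq d d' h h' hs ht)
    · exact absurd rfl h'
    · exact absurd rfl h
    · exact absurd rfl h
  ex := by
    intro v w hvw
    obtain ⟨d, h1, h3⟩ := H.ex v w hvw
    exact ⟨Sum.inl d, h1, h3⟩
  straight := fun x hx => n_straight x h2 hx
  transv := fun x hx => n_transv x h2 hx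
  pos_real := by
    rintro (d | d) h
    · exact H.pos_real d h
    · exact absurd rfl h
  pos_step := fun x hx => n_pos x h2 hx

theorem new_two (h2 : H.TwoPlanar) : (H.new h2).TwoPlanar := by
  rintro (d | ⟨d, hd⟩)
  · exact h2 d
  · show H.pos (H.α d) + 1 ≤ 2
    have := hd.p1 h2
    omega

end TopGraph

end TwoPl
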