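import Pool.Agent.H99.TP.PertB

/-!
# PERTC: the new drawing is spherical
-/

namespace TwoPl

open Equiv Function

/-- an invariant function factors through the cycles -/
theorem lift_cyc {X Y : Type} [Finite X] (f : Perm X) (m : X → Y) (h : ∀ x, m (f x) = m x) :
    ∃ M : Quotient (Perm.SameCycle.setoid f) → Y, ∀ x, M (Quotient.mk _ x) = m x := by
  have h1 : ∀ (n : ℕ) x, m ((f ^ n) x) = m x := by
    intro n
    induction n with
    | zero => intro x; rfl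
    | succ n ih => intro x; rw [pow_succ', Perm.mul_apply, h, ih]
  refine ⟨Quotient.lift m ?_, fun x => rfl⟩
  intro x y hxy
  obtain ⟨n, hn⟩ := Perm.SameCycle.exists_nat_pow_eq hxy
  rw [← hn, h1]

namespace TopGraph

variable {V : Type} {G : SimpleGraph V} {H : TopGraph G}

/-- the even darts at crossing points of three edges -/
abbrev E (H : TopGraph G) : Type := {d : H.D // H.T d ∧ H.ev d}

theorem card_T_le : Nat.card {d : H.D // H.T d} ≤ 2 * Nat.card H.E := by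
  classical
  have h1 : Nat.card {d : H.D // H.T d} ≤ Nat.card (H.E ⊕ H.E) := by
    refine Nat.card_le_card_of_surjective
      (Sum.elim (fun d : H.E => (⟨d.1, d.2.1⟩ : {d : H.D // H.T d}))
        (fun d : H.E => ⟨H.σ d.1, (H.T_σ d.1).2 d.2.1⟩)) ?_
    rintro ⟨d, hd⟩
    by_cases he : H.ev d
    · exact ⟨Sum.inl ⟨d, hd, he⟩, rfl⟩
    · refine ⟨Sum.inr ⟨H.σ.symm d, (H.T_σs d).2 hd, hd.ev_σs.2 he⟩, ?_⟩
      exact Subtype.ext (Equiv.apply_symm_apply _ _)
  rw [Nat.card_sum] at h1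
  omega

theorem card_nD (h2 : H.TwoPlanar) :
    Fintype.card (H.new h2).D = Fintype.card H.D + Nat.card {d : H.D // H.T d} := by
  rw [← Nat.card_eq_fintype_card, ← Nat.card_eq_fintype_card]
  exact Nat.card_sum

variable (H)

/-- the point of the old drawing or the even dart -/
noncomputable def m1 : H.nD → Quotient (Perm.SameCycle.setoid H.σ) ⊕
    (Quotient (Perm.SameCycle.setoid H.φ) ⊕ H.E) := by
  classical
  exact fun x => match x with
    | Sum.inl d => if h : H.T d then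
        (if he : H.ev d then Sum.inr (Sum.inr ⟨d, h, he⟩)
          else Sum.inr (Sum.inr ⟨H.σ.symm d, (H.T_σs d).2 h, h.ev_σs.2 he⟩))
        else Sum.inl (Quotient.mk _ d)
    | Sum.inr d => if he : H.ev d.1 then Sum.inr (Sum.inr ⟨d.1, d.2, he⟩)
          else Sum.inr (Sum.inr ⟨H.σ.symm d.1, (H.T_σs d.1).2 d.2, d.2.ev_σs.2 he⟩)

/-- the face of the old drawing or the point of the triangle -/
noncomputable def m2 : H.nD → Quotient (Perm.SameCycle.setoid H.σ) ⊕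
    (Quotient (Perm.SameCycle.setoid H.φ) ⊕ H.E) := by
  classical
  exact fun x => match x with
    | Sum.inl d => Sum.inr (Sum.inl (Quotient.mk _ d))
    | Sum.inr d => if H.ev d.1 then Sum.inr (Sum.inl (Quotient.mk _ (H.σ (H.σ d.1))))
        else Sum.inl (Quotient.mk _ d.1)

variable {H}

theorem m1_n {d : H.D} (h : ¬ H.T d) : H.m1 (Sum.inl d) = Sum.inl (Quotient.mk _ d) := by
  simp only [m1, dif_neg h]

theorem m1_0 {d : H.D} (h : H.T d) (he : H.ev d) :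
    H.m1 (Sum.inl d) = Sum.inr (Sum.inr ⟨d, h, he⟩) := by
  simp only [m1, dif_pos h, dif_pos he]

theorem m1_1 {d : H.D} (h : H.T d) (he : H.ev d) :
    H.m1 (Sum.inl (H.σ d)) = Sum.inr (Sum.inr ⟨d, h, he⟩) := by
  have h1 : H.T (H.σ d) := (H.T_σ d).2 h
  have h3 : ¬ H.ev (H.σ d) := fun h' => h.ev_σ.1 h' he
  simp only [m1, dif_pos h1, dif_neg h3]
  exact congrArg (fun x => Sum.inr (Sum.inr x)) (Subtype.ext (Equiv.symm_apply_apply _ _))

theorem m1_2 {d : H.D} (h : H.T d) (he : H.ev d) :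
    H.m1 (Sum.inr ⟨d, h⟩) = Sum.inr (Sum.inr ⟨d, h, he⟩) := by
  simp only [m1, dif_pos he]

theorem m1_3 {d : H.D} (h : H.T d) (he : H.ev d) :
    H.m1 (Sum.inr ⟨H.σ d, (H.T_σ d).2 h⟩) = Sum.inr (Sum.inr ⟨d, h, he⟩) := by
  have h3 : ¬ H.ev (H.σ d) := fun h' => h.ev_σ.1 h' he
  simp only [m1, dif_neg h3]
  exact congrArg (fun x => Sum.inr (Sum.inr x)) (Subtype.ext (Equiv.symm_apply_apply _ _))

theorem mk_σ (d : H.D) : (Quotient.mk (Perm.SameCycle.setoid H.σ) (H.σ d)) = Quotient.mk _ d :=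
  Quotient.sound ((Perm.sameCycle_apply_left).2 (Perm.SameCycle.refl _ _))

theorem mk_φ (d : H.D) : (Quotient.mk (Perm.SameCycle.setoid H.φ) (H.φ d)) = Quotient.mk _ d :=
  Quotient.sound ((Perm.sameCycle_apply_left).2 (Perm.SameCycle.refl _ _))

theorem m1_inv (x : H.nD) : H.m1 (H.nσ x) = H.m1 x := by
  refine nD_cases (P := fun x => H.m1 (H.nσ x) = H.m1 x) ?_ ?_ x
  · intro d h
    rw [nσ_nT h, m1_n h, m1_n (fun h' => h ((H.T_σ d).1 h')), mk_σ]
  · intro d h he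
    refine ⟨?_, ?_, ?_, ?_⟩
    · rw [nσ_0 h he, m1_1 h he, m1_0 h he]
    · rw [nσ_1 h he, m1_1 h he, m1_2 h he]
    · rw [nσ_2 h he, m1_3 h he, m1_2 h he]
    · rw [nσ_3 h he, m1_0 h he, m1_3 h he]

theorem m2_l (d : H.D) : H.m2 (Sum.inl d) = Sum.inr (Sum.inl (Quotient.mk _ d)) := rfl

theorem m2_0 {d : H.D} (h : H.T d) (he : H.ev d) :
    H.m2 (Sum.inr ⟨d, h⟩) = Sum.inr (Sum.inl (Quotient.mk _ (H.σ (H.σ d)))) := by
  simp only [m2, if_pos he]

theorem m2_1 {d : H.D} (h : H.T d) (he : ¬ H.ev d) :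
    H.m2 (Sum.inr ⟨d, h⟩) = Sum.inl (Quotient.mk _ d) := by
  simp only [m2, if_neg he]

theorem ev_3 {d : H.D} (h : H.T d) : H.ev ((H.σ ^ 3) d) ↔ ¬ H.ev d := by
  have h1 : H.T (H.σ d) := (H.T_σ d).2 h
  have h3 : H.T (H.σ (H.σ d)) := (H.T_σ _).2 h1
  rw [pow_three, h3.ev_σ, h1.ev_σ, h.ev_σ, not_not]

/-- value of the new rotation at odd darts -/
theorem nσ_odd {d : H.D} (h : H.T d) (he : ¬ H.ev d) :
    H.nσ (Sum.inl d) = Sum.inr ⟨H.σ.symm d, (H.T_σs d).2 h⟩ := by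
  have h1 := nσ_1 ((H.T_σs d).2 h) (h.ev_σs.2 he)
  rw [Equiv.apply_symm_apply] at h1
  exact h1

theorem nσ_odd' {d : H.D} (h : H.T d) (he : ¬ H.ev d) :
    H.nσ (Sum.inr ⟨d, h⟩) = Sum.inl (H.σ.symm d) := by
  have h1 := nσ_3 ((H.T_σs d).2 h) (h.ev_σs.2 he)
  have e : (⟨H.σ (H.σ.symm d), (H.T_σ _).2 ((H.T_σs d).2 h)⟩ : {d // H.T d}) = ⟨d, h⟩ :=
    Subtype.ext (Equiv.apply_symm_apply _ _)
  rw [e] at h1
  exact h1

theorem m2_inv (x : H.nD) : H.m2 (H.nσ (H.nα x)) = H.m2 x := by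
  rcases x with d | ⟨d, hd⟩
  · rw [nα_l]
    by_cases h : H.T (H.α d) ∧ ¬ H.ev (H.α d)
    · rw [nσ_odd h.1 h.2, m2_0 _ (h.1.ev_σs.2 h.2), Equiv.apply_symm_apply, m2_l]
      exact congrArg (fun x => Sum.inr (Sum.inl x)) (mk_φ d)
    · have e : H.nσ (Sum.inl (H.α d)) = Sum.inl (H.σ (H.α d)) := by
        by_cases hT : H.T (H.α d)
        · exact nσ_0 hT (by by_contra hc; exact h ⟨hT, hc⟩)
        · exact nσ_nT hT
      rw [e, m2_l, m2_l]
      exact congrArg (fun x => Sum.inr (Sum.inl x)) (mk_φ d)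
  · rw [nα_r _ hd]
    have h3 := (H.T_pow3 d).2 hd
    by_cases he : H.ev d
    · have h4 : ¬ H.ev ((H.σ ^ 3) d) := fun h' => (ev_3 hd).1 h' he
      rw [nσ_odd' h3 h4, m2_l, m2_0 hd he]
      refine congrArg (fun x => Sum.inr (Sum.inl (Quotient.mk _ x))) ?_
      rw [pow_three, Equiv.symm_apply_apply]
    · have h4 : H.ev ((H.σ ^ 3) d) := (ev_3 hd).2 he
      have h5 : ¬ H.ev (H.σ ((H.σ ^ 3) d)) := fun h' => h3.ev_σ.1 h' h4
      rw [nσ_2 h3 h4, m2_1 _ h5, m2_1 _ he, mk_σ, pow_three, mk_σ, mk_σ, mk_σ]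

theorem ncyc_new (h2 : H.TwoPlanar) :
    ncyc H.σ + (ncyc H.φ + Nat.card H.E) ≤ ncyc (H.new h2).σ + ncyc (H.new h2).φ := by
  classical
  obtain ⟨M1, hM1⟩ := lift_cyc H.nσ H.m1 m1_inv
  obtain ⟨M2, hM2⟩ := lift_cyc (H.nσ * H.nα) H.m2 m2_inv
  have h1 : Nat.card (Quotient (Perm.SameCycle.setoid H.σ) ⊕
      (Quotient (Perm.SameCycle.setoid H.φ) ⊕ H.E)) ≤
      Nat.card (Quotient (Perm.SameCycle.setoid H.nσ) ⊕
        Quotient (Perm.SameCycle.setoid (H.nσ * H.nα))) := by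
    refine Nat.card_le_card_of_surjective (Sum.elim M1 M2) ?_
    rintro (q | q | ⟨d, hd, he⟩)
    · obtain ⟨d, rfl⟩ := Quotient.exists_rep q
      by_cases hT : H.T d
      · by_cases he : H.ev d
        · refine ⟨Sum.inr (Quotient.mk _ (Sum.inr ⟨H.σ d, (H.T_σ d).2 hT⟩)), ?_⟩
          show M2 _ = _
          rw [hM2, m2_1 _ (fun h' => hT.ev_σ.1 h' he), mk_σ]
        · refine ⟨Sum.inr (Quotient.mk _ (Sum.inr ⟨d, hT⟩)), ?_⟩
          show M2 _ = _
          rw [hM2, m2_1 _ he]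
      · refine ⟨Sum.inl (Quotient.mk _ (Sum.inl d)), ?_⟩
        show M1 _ = _
        rw [hM1, m1_n hT]
    · obtain ⟨d, rfl⟩ := Quotient.exists_rep q
      refine ⟨Sum.inr (Quotient.mk _ (Sum.inl d)), ?_⟩
      show M2 _ = _
      rw [hM2, m2_l]
    · refine ⟨Sum.inl (Quotient.mk _ (Sum.inl d)), ?_⟩
      show M1 _ = _
      rw [hM1, m1_0 hd he]
  rw [Nat.card_sum, Nat.card_sum, Nat.card_sum] at h1
  exact h1

theorem ncomp_new (h2 : H.TwoPlanar) : ncomp (H.new h2).σ (H.new h2).α ≤ ncomp H.σ H.α := by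
  classical
  show Nat.card (Quotient (MulAction.orbitRel (Subgroup.closure ({H.nσ, H.nα} : Set (Perm H.nD)))
    H.nD)) ≤ Nat.card (Quotient (MulAction.orbitRel (Subgroup.closure
      ({H.σ, H.α} : Set (Perm H.D))) H.D))
  set Γ' := Subgroup.closure ({H.nσ, H.nα} : Set (Perm H.nD)) with hΓ'
  set Γ := Subgroup.closure ({H.σ, H.α} : Set (Perm H.D)) with hΓ
  let m : H.nD → Quotient (MulAction.orbitRel Γ' H.nD) := Quotient.mk _
  have mσ : ∀ y, m (H.nσ y) = m y := by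
    intro y
    refine Quotient.sound ?_
    show H.nσ y ∈ MulAction.orbit Γ' y
    exact ⟨⟨H.nσ, Subgroup.subset_closure (by simp)⟩, rfl⟩
  have mα : ∀ y, m (H.nα y) = m y := by
    intro y
    refine Quotient.sound ?_
    show H.nα y ∈ MulAction.orbit Γ' y
    exact ⟨⟨H.nα, Subgroup.subset_closure (by simp)⟩, rfl⟩
  have mo : ∀ (d : H.D) (h : H.T d), m (Sum.inr ⟨d, h⟩) = m (Sum.inl d) := by
    intro d h
    rw [← opp_l h, mσ, mσ]
  have m3 : ∀ (d : H.D) (h : H.T d), m (Sum.inl ((H.σ ^ 3) d)) = m (Sum.inl d) := by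
    intro d h
    rw [← mo d h, ← mo _ ((H.T_pow3 d).2 h), ← nα_r, mα]
  have me : ∀ (d : H.D), H.T d → H.ev d → m (Sum.inl (H.σ d)) = m (Sum.inl d) := by
    intro d h he
    rw [← nσ_0 h he, mσ]
  have rσ : ∀ y, m (Sum.inl (H.σ y)) = m (Sum.inl y) := by
    intro y
    by_cases hT : H.T y
    · by_cases he : H.ev y
      · exact me y hT he
      · have h3 := (H.T_pow3 y).2 hT
        have h4 := me _ h3 ((ev_3 hT).2 he)
        have e : H.σ ((H.σ ^ 3) y) = (H.σ ^ 3) (H.σ y) := rfl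
        rw [e, m3 _ ((H.T_σ y).2 hT), m3 _ hT] at h4
        exact h4
    · rw [← nσ_nT hT, mσ]
  have rα : ∀ y, m (Sum.inl (H.α y)) = m (Sum.inl y) := by
    intro y
    rw [← nα_l, mα]
  have rg : ∀ g ∈ Γ, ∀ y, m (Sum.inl (g y)) = m (Sum.inl y) := by
    intro g hg
    induction hg using Subgroup.closure_induction with
    | mem x hx =>
      rcases hx with rfl | hx
      · exact rσ
      · rw [Set.mem_singleton_iff.1 hx]
        exact rα
    | one => intro y; rfl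
    | mul x y _ _ hx hy =>
      intro z
      rw [Perm.mul_apply, hx, hy]
    | inv x _ hx =>
      intro z
      have := hx (x⁻¹ z)
      rw [← Perm.mul_apply, mul_inv_cancel, Perm.one_apply] at this
      exact this.symm
  let F : Quotient (MulAction.orbitRel Γ H.D) → Quotient (MulAction.orbitRel Γ' H.nD) :=
    Quotient.lift (fun y => m (Sum.inl y)) (by
      rintro y z ⟨⟨g, hg⟩, hgz⟩
      have : g z = y := hgz
      show m (Sum.inl y) = m (Sum.inl z)
      rw [← this]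
      exact rg g hg z)
  refine Nat.card_le_card_of_surjective F ?_
  intro q
  obtain ⟨y, rfl⟩ := Quotient.exists_rep q
  rcases y with y | ⟨y, hy⟩
  · exact ⟨Quotient.mk _ y, rfl⟩
  · exact ⟨Quotient.mk _ y, (mo y hy).symm⟩

theorem new_sph (hs : H.Spherical) (h2 : H.TwoPlanar) : (H.new h2).Sph := by
  have h1 := ncyc_new h2
  have h3 := ncomp_new h2
  have h4 := card_nD h2
  have h5 := card_T_le (H := H)
  have hs' : 2 * ncyc H.σ + 2 * ncyc H.φ = Fintype.card H.D + 4 * ncomp H.σ H.α := hs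
  unfold Drawing.Sph
  omega

end TopGraph

end TwoPl
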