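import Pool.Agent.H99.TP.PertC

/-!
# PERTD: no three mutually crossing edges in the pentagon structure; the theorem for all drawings
-/

namespace TwoPl

open Equiv Function

namespace Drawing

variable {V : Type} {G : SimpleGraph V} (H : Drawing G)

/-- the previous segment of the same edge -/
theorem prev (d : H.D) (hd : H.C d) : H.src (H.α (H.σ (H.σ d))) = H.src d ∧
    H.tgt (H.α (H.σ (H.σ d))) = H.tgt d ∧ H.pos d = H.pos (H.α (H.σ (H.σ d))) + 1 := by
  have h1 := H.straight d hd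
  refine ⟨?_, ?_, H.pos_pos d hd⟩
  · rw [H.src_α, h1.2]
  · rw [H.tgt_α, h1.1]

theorem R_of_pos {d : H.D} (h : H.pos d = 0) : H.R d := by
  intro hc
  have := H.pos_pos d hc
  omega

theorem C_of_pos {d : H.D} (h : H.pos d ≠ 0) : H.C d := by
  by_contra hc
  exact h (H.pos_real d hc)

/-- the edge, the direction and the position determine the dart -/
theorem dart_eq (n : ℕ) : ∀ d d' : H.D, H.pos d = n → H.pos d' = n → H.src d = H.src d' →
    H.tgt d = H.tgt d' → d = d' := by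
  induction n with
  | zero =>
    intro d d' h h' hs ht
    exact H.uniq d d' (H.R_of_pos h) (H.R_of_pos h') hs ht
  | succ n ih =>
    intro d d' h h' hs ht
    have c := H.C_of_pos (d := d) (by omega)
    have c' := H.C_of_pos (d := d') (by omega)
    obtain ⟨a1, a2, a3⟩ := H.prev d c
    obtain ⟨b1, b2, b3⟩ := H.prev d' c'
    have h1 := ih _ _ (by omega) (by omega) (a1.trans (hs.trans b1.symm))
      (a2.trans (ht.trans b2.symm))
    exact H.σ.injective (H.σ.injective (H.α.injective h1))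

variable {H}

theorem Crosses.symm {u v w z : V} (h : H.Crosses u v w z) : H.Crosses w z u v := by
  obtain ⟨d, h1, h2, h3⟩ := h
  refine ⟨H.σ d, by rw [H.vtx_σ, h1], h3, ?_⟩
  rw [(H.straight d h1).1, (H.straight d h1).2, Sym2.eq_swap, h2]

theorem Crosses.dir {u v w z : V} (h : H.Crosses u v w z) : ∃ d, H.vtx d = none ∧ H.src d = u ∧
    H.tgt d = v ∧ s(H.src (H.σ d), H.tgt (H.σ d)) = s(w, z) := by
  obtain ⟨d, h1, h2, h3⟩ := h
  rcases Sym2.eq_iff.1 h2 with ⟨e1, e2⟩ | ⟨e1, e2⟩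
  · exact ⟨d, h1, e1, e2, h3⟩
  · have h4 := H.straight d h1
    have h5 := H.straight (H.σ d) (by rw [H.vtx_σ, h1])
    refine ⟨H.σ (H.σ d), by rw [H.vtx_σ, H.vtx_σ, h1], h4.1.trans e2, h4.2.trans e1, ?_⟩
    rw [h5.1, h5.2, Sym2.eq_swap, h3]

theorem Crosses.congr {u v w z u' v' w' z' : V} (h : H.Crosses u v w z) (h1 : s(u, v) = s(u', v'))
    (h2 : s(w, z) = s(w', z')) : H.Crosses u' v' w' z' := by
  obtain ⟨d, a1, a2, a3⟩ := h
  exact ⟨d, a1, a2.trans h1, a3.trans h2⟩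

/-- an edge crosses at most two edges -/
theorem cross_two (h2 : H.TwoPlanar) {u v a1 b1 a2 b2 a3 b3 : V} (c1 : H.Crosses u v a1 b1)
    (c2 : H.Crosses u v a2 b2) (c3 : H.Crosses u v a3 b3) :
    s(a1, b1) = s(a2, b2) ∨ s(a1, b1) = s(a3, b3) ∨ s(a2, b2) = s(a3, b3) := by
  obtain ⟨d1, x1, y1, z1, w1⟩ := c1.dir
  obtain ⟨d2, x2, y2, z2, w2⟩ := c2.dir
  obtain ⟨d3, x3, y3, z3, w3⟩ := c3.dir
  have p1 := (H.prev d1 x1).2.2
  have p2 := (H.prev d2 x2).2.2
  have p3 := (H.prev d3 x3).2.2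
  have q1 := h2 d1
  have q2 := h2 d2
  have q3 := h2 d3
  have h : H.pos d1 = H.pos d2 ∨ H.pos d1 = H.pos d3 ∨ H.pos d2 = H.pos d3 := by omega
  rcases h with h | h | h
  · left
    have e := H.dart_eq _ d1 d2 h rfl (y1.trans y2.symm) (z1.trans z2.symm)
    rw [← w1, ← w2, e]
  · right
    left
    have e := H.dart_eq _ d1 d3 h rfl (y1.trans y3.symm) (z1.trans z3.symm)
    rw [← w1, ← w3, e]
  · right
    right
    have e := H.dart_eq _ d2 d3 h rfl (y2.trans y3.symm) (z2.trans z3.symm)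
    rw [← w2, ← w3, e]

/-- the first segment of a crossed edge ends at a crossing -/
theorem first_seg (n : ℕ) : ∀ (d a : H.D), H.pos d = n + 1 → H.R a → H.src a = H.src d →
    H.tgt a = H.tgt d → H.C (H.α a) := by
  induction n with
  | zero =>
    intro d a h ha hs ht
    have c := H.C_of_pos (d := d) (by omega)
    obtain ⟨a1, a2, a3⟩ := H.prev d c
    have h1 := H.dart_eq 0 a _ (H.pos_real a ha) (by omega) (hs.trans a1.symm) (ht.trans a2.symm)
    rw [h1, αα]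
    show H.vtx (H.σ (H.σ d)) = none
    rw [H.vtx_σ, H.vtx_σ]
    exact c
  | succ n ih =>
    intro d a h ha hs ht
    have c := H.C_of_pos (d := d) (by omega)
    obtain ⟨a1, a2, a3⟩ := H.prev d c
    exact ih _ a (by omega) ha (hs.trans a1.symm) (ht.trans a2.symm)

/-- every crossed edge is a chord of a pentagon -/
theorem chord (hP : H.PentagonStructure) {u v w z : V} (h : H.Crosses u v w z) :
    ∃ p : Fin 5 → V, Injective p ∧ (∃ i, s(u, v) = s(p i, p (i + 2))) ∧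
      (∀ i, H.Crosses (p i) (p (i + 2)) (p (i + 1)) (p (i + 3)) ∧
      H.Crosses (p i) (p (i + 2)) (p (i + 1)) (p (i + 4))) := by
  obtain ⟨d, x1, y1, z1, w1⟩ := h.dir
  obtain ⟨a, ha, hat⟩ := H.ex u v (by rw [← y1, ← z1]; exact H.adj d)
  have has := H.src_vtx _ _ ha
  have hR : H.R a := by
    rw [R, ha]
    simp
  have hCa : H.C (H.α a) := by
    have p1 := (H.prev d x1).2.2
    exact first_seg _ d a p1 hR (has.trans y1.symm) (hat.trans z1.symm)
  have hnu : ¬ H.Unc a := fun h' => h'.2 hCa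
  have hex : ∃ n : ℕ, ∃ e, H.Unc e ∧ (H.σ ^ n) e = a := by
    obtain ⟨e, he, hu⟩ := hP.spans u
    obtain ⟨n, hn⟩ := (H.rot e a (by rw [he]; simp) (he.trans ha.symm)).exists_nat_pow_eq
    exact ⟨n, e, hu, hn⟩
  classical
  obtain ⟨e, hu, hn⟩ := Nat.find_spec hex
  have hmin := fun m (hm : m < Nat.find hex) => Nat.find_min hex hm
  set n := Nat.find hex with hnd
  have hvu : ∀ k : ℕ, H.vtx ((H.σ ^ k) e) = H.vtx e := by
    intro k
    induction k with
    | zero => rfl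
    | succ k ih => rw [pow_succ', Perm.mul_apply, H.vtx_σ, ih]
  have hve : H.vtx e = some u := by
    rw [← hvu n, hn, ha]
  have hUa : H.Unc (H.α e) := ⟨hu.2, by rw [αα]; exact hu.1⟩
  obtain ⟨p, b, x, y, hb0, hp, f1, f2, f3, f4, f5, f6⟩ := hP.face (H.α e) hUa
  refine ⟨p, hp, ?_, f6⟩
  obtain ⟨g1, g2, g3⟩ := f3 0
  rw [hb0, αα] at g1
  have hpu : p 1 = u := by
    have h1 := (f1 0).2.2
    rw [hb0, H.tgt_α, H.src_vtx _ _ hve] at h1
    exact h1.symm
  have n0 : n ≠ 0 := by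
    intro h0
    rw [h0] at hn
    exact hnu (hn ▸ hu)
  have n3 : n < 3 := by
    by_contra hge
    have h3 : (H.σ ^ 3) e = b (0 + 1) := by
      rw [← g3, g2, g1]
      rfl
    refine hmin (n - 3) (by omega) ⟨(H.σ ^ 3) e, ?_, ?_⟩
    · rw [h3]
      exact (f1 _).1
    · rw [← Perm.mul_apply, ← pow_add]
      have : n - 3 + 3 = n := by omega
      rw [this, hn]
  have n12 : n = 1 ∨ n = 2 := by omega
  rcases n12 with n1 | n2
  · rw [n1] at hn
    have ea : a = x 0 := by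
      rw [g1, ← hn]
      rfl
    refine ⟨4, ?_⟩
    have h1 := (f4 0).2
    rw [← ea, hat] at h1
    rw [h1, ← hpu, Sym2.eq_swap]
    rfl
  · rw [n2] at hn
    have ea : a = y 0 := by
      rw [g2, g1, ← hn]
      rfl
    refine ⟨1, ?_⟩
    have h1 := (f5 0).2
    rw [← ea, hat] at h1
    rw [h1, ← hpu]
    rfl

theorem fin_ne : ∀ i : Fin 5, i + 3 ≠ i + 4 ∧ i + 1 ≠ i + 4 ∧ i + 1 ≠ i + 2 ∧ i + 1 ≠ i ∧
    i + 4 ≠ i ∧ i + 2 ≠ i := by decide

theorem fin_eq : ∀ i : Fin 5, i + 1 + 2 = i + 3 ∧ i + 1 + 1 = i + 2 ∧ i + 1 + 3 = i + 4 ∧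
    i + 1 + 4 = i := by decide

/-- no three mutually crossing edges -/
theorem no_three (h2 : H.TwoPlanar) (hP : H.PentagonStructure) {u v w z x y : V}
    (c1 : H.Crosses u v w z) (c2 : H.Crosses w z x y) (c3 : H.Crosses x y u v)
    (h : s(w, z) ≠ s(x, y)) : False := by
  obtain ⟨p, hp, ⟨i, hi⟩, hc⟩ := chord hP c1
  have ne : ∀ a b : Fin 5, a ≠ b → p a ≠ p b := fun a b hab hab' => hab (hp hab')
  obtain ⟨n1, n2, n3, n4, n5, n6⟩ := fin_ne i
  obtain ⟨e2, e1, e3, e4⟩ := fin_eq i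
  have key : ∀ a b : V, H.Crosses u v a b → s(a, b) = s(p (i + 1), p (i + 3)) ∨
      s(a, b) = s(p (i + 1), p (i + 4)) := by
    intro a b hab
    rcases cross_two h2 (hab.congr hi rfl) (hc i).1 (hc i).2 with e | e | e
    · exact Or.inl e
    · exact Or.inr e
    · exfalso
      rcases Sym2.eq_iff.1 e with ⟨_, e2⟩ | ⟨e1, _⟩
      · exact ne _ _ n1 e2
      · exact ne _ _ n2 e1
  have key2 : ¬ H.Crosses (p (i + 1)) (p (i + 3)) (p (i + 1)) (p (i + 4)) := by
    intro hx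
    have h3 := hc (i + 1)
    rw [e2, e1, e3, e4] at h3
    rcases cross_two h2 hx h3.1 h3.2 with e | e | e
    · rcases Sym2.eq_iff.1 e with ⟨e5, _⟩ | ⟨e5, _⟩
      · exact ne _ _ n3 e5
      · exact ne _ _ n2 e5
    · rcases Sym2.eq_iff.1 e with ⟨e5, _⟩ | ⟨e5, _⟩
      · exact ne _ _ n3 e5
      · exact ne _ _ n4 e5
    · rcases Sym2.eq_iff.1 e with ⟨_, e5⟩ | ⟨e5, _⟩
      · exact ne _ _ n5 e5
      · exact ne _ _ n6 e5
  rcases key w z c1 with e1 | e1 <;> rcases key x y c3.symm with e2 | e2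
  · exact h (e1.trans e2.symm)
  · exact key2 (c2.congr e1 e2)
  · exact key2 (c2.symm.congr e2 e1)
  · exact h (e1.trans e2.symm)

end Drawing

/-- `main` with one half of Euler's formula -/
theorem main_sph {V : Type} [Fintype V] (G : SimpleGraph V) (hn : 3 ≤ Fintype.card V)
    (hm : G.edgeSet.ncard = 5 * Fintype.card V - 10) (H : Drawing G) (hs : H.Sph)
    (h2 : H.TwoPlanar) : H.PentagonStructure := by
  obtain ⟨h1, h3, h4⟩ := H.tight_all hn hm hs h2
  exact H.pentagon_of_tight h2 h1 h3 h4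

namespace TopGraph

variable {V : Type} {G : SimpleGraph V} {H : TopGraph G}

/-- at a crossing point of three edges there are three mutually crossing edges of the new drawing -/
theorem no_T [Fintype V] (hn : 3 ≤ Fintype.card V)
    (hm : G.edgeSet.ncard = 5 * Fintype.card V - 10) (hs : H.Spherical)
    (h2 : H.TwoPlanar) (d : H.D) : ¬ H.T d := by
  intro hd
  obtain ⟨d, hT, he⟩ : ∃ d, H.T d ∧ H.ev d := by
    by_cases he : H.ev d
    · exact ⟨d, hd, he⟩
    · exact ⟨H.σ.symm d, (H.T_σs d).2 hd, hd.ev_σs.2 he⟩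
  have h2' := H.new_two h2
  have hP := main_sph G hn hm (H.new h2) (new_sph hs h2) h2'
  have T1 : H.T (H.σ d) := (H.T_σ _).2 hT
  have T2 : H.T (H.σ (H.σ d)) := (H.T_σ _).2 T1
  have T3 : H.T (H.σ (H.σ (H.σ d))) := (H.T_σ _).2 T2
  have T4 : H.T (H.σ (H.σ (H.σ (H.σ d)))) := (H.T_σ _).2 T3
  have ev2 : H.ev (H.σ (H.σ d)) := by rw [T1.ev_σ, hT.ev_σ, not_not]; exact he
  have ev4 : H.ev (H.σ (H.σ (H.σ (H.σ d)))) := by rw [T3.ev_σ, T2.ev_σ, not_not]; exact ev2
  have c1 : (H.new h2).Crosses (H.src d) (H.tgt d) (H.src (H.σ d)) (H.tgt (H.σ d)) := by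
    refine ⟨Sum.inl d, hT.1, rfl, ?_⟩
    show s(Sum.elim H.src (fun d => H.tgt d.1) (H.nσ (Sum.inl d)),
      Sum.elim H.tgt (fun d => H.src d.1) (H.nσ (Sum.inl d))) = _
    rw [nσ_0 hT he]
    rfl
  have c3 : (H.new h2).Crosses (H.src (H.σ (H.σ d))) (H.tgt (H.σ (H.σ d))) (H.src d)
      (H.tgt d) := by
    refine ⟨Sum.inl (H.σ (H.σ d)), T2.1, rfl, ?_⟩
    show s(Sum.elim H.src (fun d => H.tgt d.1) (H.nσ (Sum.inl (H.σ (H.σ d)))),
      Sum.elim H.tgt (fun d => H.src d.1) (H.nσ (Sum.inl (H.σ (H.σ d))))) = _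
    rw [nσ_0 T2 ev2]
    show s(H.src (H.σ (H.σ (H.σ d))), H.tgt (H.σ (H.σ (H.σ d)))) = _
    rw [hT.src, hT.tgt, Sym2.eq_swap]
  have c2 : (H.new h2).Crosses (H.src (H.σ d)) (H.tgt (H.σ d)) (H.src (H.σ (H.σ d)))
      (H.tgt (H.σ (H.σ d))) := by
    refine ⟨Sum.inl (H.σ (H.σ (H.σ (H.σ d)))), T4.1, ?_, ?_⟩
    · show s(H.src (H.σ (H.σ (H.σ (H.σ d)))), H.tgt (H.σ (H.σ (H.σ (H.σ d))))) = _
      rw [T1.src, T1.tgt, Sym2.eq_swap]
    · show s(Sum.elim H.src (fun d => H.tgt d.1) (H.nσ (Sum.inl (H.σ (H.σ (H.σ (H.σ d)))))),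
        Sum.elim H.tgt (fun d => H.src d.1) (H.nσ (Sum.inl (H.σ (H.σ (H.σ (H.σ d))))))) = _
      rw [nσ_0 T4 ev4]
      show s(H.src (H.σ (H.σ (H.σ (H.σ (H.σ d))))), H.tgt (H.σ (H.σ (H.σ (H.σ (H.σ d)))))) = _
      rw [T2.src, T2.tgt, Sym2.eq_swap]
  exact Drawing.no_three h2' hP c1 c2 c3 T1.t1.symm

/-- a topological graph without crossing points of three edges -/
noncomputable def toDrawing (H : TopGraph G) (hm : ∀ d, H.vtx d = none → H.mul d = 2) : Drawing G where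
  D := H.D
  fin := H.fin
  dec := Classical.decEq _
  α := H.α
  σ := H.σ
  vtx := H.vtx
  src := H.src
  tgt := H.tgt
  pos := H.pos
  α_α := H.α_α
  vtx_σ := H.vtx_σ
  rot := H.rot
  four := by
    intro d hd
    have := H.deg d hd
    rw [hm d hd] at this
    exact this
  src_α := H.src_α
  adj := H.adj
  src_vtx := H.src_vtx
  uniq := H.uniq
  ex := H.ex
  straight := by
    intro d hd
    have := H.straight d hd
    rw [hm d hd] at this
    exact this
  transv := by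
    intro d hd
    exact H.transv d 1 hd one_pos (by rw [hm d hd]; norm_num)
  pos_real := H.pos_real
  pos_step := by
    intro d hd
    have := H.pos_step d hd
    rw [hm _ hd] at this
    exact this

end TopGraph

/-- Every 2-planar topological graph whose underlying graph has `n ≥ 3` vertices and `5 n - 10`
edges has the pentagon structure. -/
theorem main_top {V : Type} [Fintype V] (G : SimpleGraph V) (hn : 3 ≤ Fintype.card V)
    (hm : G.edgeSet.ncard = 5 * Fintype.card V - 10) (H : TopGraph G) (hs : H.Spherical)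
    (h2 : H.TwoPlanar) : H.PentagonStructure := by
  have hmul : ∀ d, H.vtx d = none → H.mul d = 2 := fun d hd =>
    H.mul_two h2 d hd (TopGraph.no_T hn hm hs h2 d)
  have hP : (H.toDrawing hmul).PentagonStructure := main G hn hm (H.toDrawing hmul) hs h2
  refine ⟨hP.spans, hP.conn, hmul, ?_⟩
  intro d hd
  obtain ⟨v, b, x, y, h0, hv, f1, f2, f3, f4, f5, f6⟩ := hP.face d hd
  refine ⟨v, b, x, y, h0, hv, f1, f2, f3, f4, f5, ?_⟩
  intro i
  have ne : ∀ a b : Fin 5, a ≠ b → v a ≠ v b := fun a b hab hab' => hab (hv hab')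
  obtain ⟨n1, n2, n3, n4, n5, n6⟩ := Drawing.fin_ne i
  obtain ⟨⟨d1, a1, a2, a3⟩, ⟨d2, b1, b2, b3⟩⟩ := f6 i
  refine ⟨⟨?_, d1, 1, a1, a2, a3⟩, ⟨?_, d2, 1, b1, b2, b3⟩⟩
  · intro e
    rcases Sym2.eq_iff.1 e with ⟨e5, _⟩ | ⟨_, e5⟩
    · exact ne _ _ n4.symm e5
    · exact ne _ _ n3.symm e5
  · intro e
    rcases Sym2.eq_iff.1 e with ⟨e5, _⟩ | ⟨_, e5⟩
    · exact ne _ _ n4.symm e5
    · exact ne _ _ n3.symm e5

end TwoPl
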