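import Pool.Agent.H99.TP.Bas

/-!
# REQ: faces of small charge and their requests

Face types are described from a dart `d` of their boundary walk `d, φ d, φ² d, ...`; `C` / `R` says
whether the corner (the starting point of the dart) is a crossing or a vertex. A dart is a side of
its face; the other side of the same segment is `α d`.
The face of `d` requests `r d` through its side `d`; the face of `α d` has to give it.
Tools (file `Bas`): `fl`, `fr`, `lab`, `tr`, `cont`, `eq_of`, `φ_ne`, `cc_real`.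
-/

namespace TwoPl

open Equiv

namespace Drawing

variable {V : Type} {G : SimpleGraph V} (H : Drawing G)

/-- the face of `d` is a digon with two crossings -/
def D0 (d : H.D) : Prop := H.C d ∧ H.C (H.φ d) ∧ H.φ (H.φ d) = d

/-- a triangle with three crossings -/
def T0 (d : H.D) : Prop :=
  H.C d ∧ H.C (H.φ d) ∧ H.C (H.φ (H.φ d)) ∧ H.φ (H.φ (H.φ d)) = d

/-- a triangle with one vertex, `d` is the side between the crossings -/
def Tc (d : H.D) : Prop :=
  H.C d ∧ H.C (H.φ d) ∧ H.R (H.φ (H.φ d)) ∧ H.φ (H.φ (H.φ d)) = d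

/-- a triangle with one vertex, `d` starts at the vertex -/
def Ts (d : H.D) : Prop :=
  H.R d ∧ H.C (H.φ d) ∧ H.C (H.φ (H.φ d)) ∧ H.φ (H.φ (H.φ d)) = d

/-- a triangle with one vertex, `d` ends at the vertex -/
def Te (d : H.D) : Prop :=
  H.C d ∧ H.R (H.φ d) ∧ H.C (H.φ (H.φ d)) ∧ H.φ (H.φ (H.φ d)) = d

/-- a quadrangle with four crossings -/
def Q0 (d : H.D) : Prop :=
  H.C d ∧ H.C (H.φ d) ∧ H.C (H.φ (H.φ d)) ∧ H.C (H.φ (H.φ (H.φ d))) ∧
    H.φ (H.φ (H.φ (H.φ d))) = d ∧ H.φ (H.φ d) ≠ d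

open Classical in
/-- direct requests -/
noncomputable def r0 (d : H.D) : ℤ :=
  if H.D0 d then 30 else if H.T0 d then 10 else if H.Tc d then 6 else
    if H.Ts d ∨ H.Te d then 3 else 0

open Classical in
/-- requests; they pass straight through quadrangles with four crossings -/
noncomputable def r (d : H.D) : ℤ :=
  H.r0 d + if H.Q0 d then H.r0 (H.α (H.φ (H.φ d))) else 0

open Classical in
/-- the final weight of a dart -/
noncomputable def w (d : H.D) : ℤ := 30 + (if H.R d then 18 else 0) + H.r d - H.r (H.α d)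

/-- no digon with one vertex and one crossing; no triangle with one vertex next to a triangle with
three crossings -/
def Good : Prop :=
  (∀ d, H.R d → H.C (H.φ d) → H.φ (H.φ d) ≠ d) ∧ ∀ g, H.T0 g → ¬ H.Tc (H.α g)

/-! ### rotations of the face types -/

theorem D0.next {d : H.D} (h : H.D0 d) : H.D0 (H.φ d) := by
  obtain ⟨h1, h2, h3⟩ := h
  exact ⟨h2, by rw [h3]; exact h1, by rw [h3]⟩

theorem T0.next {d : H.D} (h : H.T0 d) : H.T0 (H.φ d) := by
  obtain ⟨h1, h2, h3, h4⟩ := h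
  exact ⟨h2, h3, by rw [h4]; exact h1, by rw [h4]⟩

theorem Ts.next {d : H.D} (h : H.Ts d) : H.Tc (H.φ d) := by
  obtain ⟨h1, h2, h3, h4⟩ := h
  exact ⟨h2, h3, by rw [h4]; exact h1, by rw [h4]⟩

theorem Tc.next {d : H.D} (h : H.Tc d) : H.Te (H.φ d) := by
  obtain ⟨h1, h2, h3, h4⟩ := h
  exact ⟨h2, h3, by rw [h4]; exact h1, by rw [h4]⟩

theorem Te.next {d : H.D} (h : H.Te d) : H.Ts (H.φ d) := by
  obtain ⟨h1, h2, h3, h4⟩ := h
  exact ⟨h2, h3, by rw [h4]; exact h1, by rw [h4]⟩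

theorem Q0.next {d : H.D} (h : H.Q0 d) : H.Q0 (H.φ d) := by
  obtain ⟨h1, h2, h3, h4, h5, h6⟩ := h
  refine ⟨h2, h3, h4, by rw [h5]; exact h1, by rw [h5], ?_⟩
  intro h7
  exact h6 (H.φ.injective h7)

/-! ### values of `r0` and `r` -/

theorem r0_nonneg (d : H.D) : 0 ≤ H.r0 d := by
  unfold r0
  split_ifs <;> norm_num

theorem r_nonneg (d : H.D) : 0 ≤ H.r d := by
  unfold r
  have h1 := H.r0_nonneg d
  have h2 := H.r0_nonneg (H.α (H.φ (H.φ d)))
  split_ifs <;> linarith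

theorem r0_D0 {d : H.D} (h : H.D0 d) : H.r0 d = 30 := by
  unfold r0
  rw [if_pos h]

theorem req_23 {d : H.D} (h : H.φ (H.φ d) = d) (h' : H.φ (H.φ (H.φ d)) = d) : False := by
  rw [h] at h'
  exact H.φ_ne d h'

theorem r0_T0 {d : H.D} (h : H.T0 d) : H.r0 d = 10 := by
  unfold r0
  rw [if_neg (fun h' : H.D0 d => H.req_23 h'.2.2 h.2.2.2), if_pos h]

theorem r0_Tc {d : H.D} (h : H.Tc d) : H.r0 d = 6 := by
  unfold r0
  rw [if_neg (fun h' : H.D0 d => H.req_23 h'.2.2 h.2.2.2), if_neg (fun h' : H.T0 d => h.2.2.1 h'.2.2.1),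
    if_pos h]

theorem r0_Ts {d : H.D} (h : H.Ts d) : H.r0 d = 3 := by
  unfold r0
  rw [if_neg (fun h' : H.D0 d => h.1 h'.1), if_neg (fun h' : H.T0 d => h.1 h'.1),
    if_neg (fun h' : H.Tc d => h.1 h'.1), if_pos (Or.inl h)]

theorem r0_Te {d : H.D} (h : H.Te d) : H.r0 d = 3 := by
  unfold r0
  rw [if_neg (fun h' : H.D0 d => h.2.1 h'.2.1), if_neg (fun h' : H.T0 d => h.2.1 h'.2.1),
    if_neg (fun h' : H.Tc d => h.2.1 h'.2.1), if_pos (Or.inr h)]

/-- faces of length at most three are not of type `Q0` (use `φ_ne`) -/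
theorem r_of3 {d : H.D} (h : H.φ (H.φ (H.φ d)) = d) : H.r d = H.r0 d := by
  unfold r
  rw [if_neg, add_zero]
  intro h'
  have h1 := h'.2.2.2.2.1
  rw [h] at h1
  exact H.φ_ne d h1

theorem r_D0 {d : H.D} (h : H.D0 d) : H.r d = 30 := by
  unfold r
  rw [if_neg (fun h' : H.Q0 d => h'.2.2.2.2.2 h.2.2), add_zero]
  exact H.r0_D0 h

theorem r_T0 {d : H.D} (h : H.T0 d) : H.r d = 10 := by
  rw [H.r_of3 h.2.2.2, H.r0_T0 h]

theorem r_Tc {d : H.D} (h : H.Tc d) : H.r d = 6 := by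
  rw [H.r_of3 h.2.2.2, H.r0_Tc h]

theorem r_Ts {d : H.D} (h : H.Ts d) : H.r d = 3 := by
  rw [H.r_of3 h.2.2.2, H.r0_Ts h]

theorem r_Te {d : H.D} (h : H.Te d) : H.r d = 3 := by
  rw [H.r_of3 h.2.2.2, H.r0_Te h]

/-- only faces of the types `D0, T0, Tc, Ts, Te, Q0` request something -/
theorem r_eq_zero {d : H.D} (h1 : ¬ H.D0 d) (h2 : ¬ H.T0 d) (h3 : ¬ H.Tc d) (h4 : ¬ H.Ts d)
    (h5 : ¬ H.Te d) (h6 : ¬ H.Q0 d) : H.r d = 0 := by
  unfold r r0
  rw [if_neg h1, if_neg h2, if_neg h3, if_neg (fun h => h.elim h4 h5), if_neg h6, add_zero]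

/-! ### local restrictions -/

theorem req_r0_Q0 {d : H.D} (h : H.Q0 d) : H.r0 d = 0 := by
  unfold r0
  rw [if_neg (fun h' : H.D0 d => h.2.2.2.2.2 h'.2.2), if_neg (fun h' : H.T0 d => ?_),
    if_neg (fun h' : H.Tc d => h'.2.2.1 h.2.2.1), if_neg]
  · rintro (h' | h')
    · exact h'.1 h.1
    · exact h'.2.1 h.2.1
  · have h1 := h.2.2.2.2.1
    rw [h'.2.2.2] at h1
    exact H.φ_ne d h1

theorem req_Q0 {d : H.D} (h : H.Q0 d) : H.r d = H.r0 (H.α (H.φ (H.φ d))) := by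
  unfold r
  rw [if_pos h, H.req_r0_Q0 h, zero_add]

/-- the two sides at the vertex of a triangle belong to parallel edges -/
theorem req_par (h2 : H.TwoPlanar) (g : H.D) (h : H.Tc g)
    (ht : H.src (H.φ g) = H.tgt (H.φ (H.φ g))) : False := by
  obtain ⟨c1, c2, r3, e⟩ := h
  have h1 : H.φ (H.φ g) = H.α (H.φ g) := by
    refine H.eq_of _ _ r3 (H.vtx_φ _) ?_
    rw [tgt_α]
    exact ht.symm
  have h3 : H.σ (H.φ g) = g := by
    rw [h1, φ_α] at e
    exact e
  have c3 : H.C (H.α g) := by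
    rw [C, ← H.vtx_φ]
    exact c2
  have h4 := (H.cc_real h2 (H.α g) c3 (by rw [αα]; exact c1)).1
  rw [φ_apply] at h3
  rw [h3] at h4
  exact h4 c3

/-- The neighbour of a side of a quadrangle with four crossings, of a triangle with three crossings
or of a digon with two crossings has vertices on both sides of the common segment. (`fl`, `fr`;
for `D0`, `T0` use that the walk closes.) -/
theorem flank (h2 : H.TwoPlanar) (g : H.D) (h : H.D0 g ∨ H.T0 g ∨ H.Q0 g) :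
    H.R (H.φ.symm (H.α g)) ∧ H.R (H.φ (H.φ (H.α g))) := by
  rcases h with h | h | h
  · have e : H.φ.symm g = H.φ g := by
      rw [Equiv.symm_apply_eq]
      exact h.2.2.symm
    refine ⟨H.fl h2 g h.2.1 (by rw [h.2.2]; exact h.1), H.fr h2 g (by rw [e]; exact h.2.1) h.1⟩
  · have e : H.φ.symm g = H.φ (H.φ g) := by
      rw [Equiv.symm_apply_eq]
      exact h.2.2.2.symm
    exact ⟨H.fl h2 g h.2.1 h.2.2.1, H.fr h2 g (by rw [e]; exact h.2.2.1) h.1⟩
  · have e : H.φ.symm g = H.φ (H.φ (H.φ g)) := by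
      rw [Equiv.symm_apply_eq]
      exact h.2.2.2.2.1.symm
    exact ⟨H.fl h2 g h.2.1 h.2.2.1, H.fr h2 g (by rw [e]; exact h.2.2.2.1) h.1⟩

/-- `g` is a common side of a digon with two crossings and of a triangle with one vertex: then the
two sides of the triangle at the vertex belong to one edge, by `lab` for `g` and `α g`. -/
theorem no_D0_Tc (g : H.D) (h : H.D0 g) (h' : H.Tc (H.α g)) : False := by
  obtain ⟨c1, c2, e⟩ := h
  obtain ⟨c3, c4, r5, e'⟩ := h'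
  have s1 : H.φ.symm g = H.φ g := by
    rw [Equiv.symm_apply_eq]
    exact e.symm
  have s2 : H.φ.symm (H.α g) = H.φ (H.φ (H.α g)) := by
    rw [Equiv.symm_apply_eq]
    exact e'.symm
  have l1 := H.lab g c1
  have l2 := H.lab (H.α g) c3
  rw [αα] at l2
  rw [s1] at l1
  rw [s2] at l2
  obtain ⟨v, hv⟩ := Option.ne_none_iff_exists'.1 r5
  have hv' : H.vtx (H.α (H.φ (H.α g))) = some v := by
    rw [← H.vtx_φ]
    exact hv
  have e1 := H.src_vtx _ _ hv
  have e2 := H.src_vtx _ _ hv'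
  rw [src_α, l1.2, l2.2] at e2
  exact H.src_ne_tgt _ (e1.trans e2.symm)

/-- two triangles with one vertex and a common side between the crossings: parallel edges -/
theorem no_Tc_Tc (h2 : H.TwoPlanar) (g : H.D) (h : H.Tc g) (h' : H.Tc (H.α g)) : False := by
  have s1 : H.φ.symm g = H.φ (H.φ g) := by
    rw [Equiv.symm_apply_eq]
    exact h.2.2.2.symm
  have s2 : H.φ.symm (H.α g) = H.φ (H.φ (H.α g)) := by
    rw [Equiv.symm_apply_eq]
    exact h'.2.2.2.symm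
  have l1 := H.lab g h.1
  have l2 := H.lab (H.α g) h'.1
  rw [αα] at l2
  rw [s1] at l1
  rw [s2] at l2
  obtain ⟨v, hv⟩ := Option.ne_none_iff_exists'.1 h'.2.2.1
  have hv' : H.vtx (H.α (H.φ (H.α g))) = some v := by
    rw [← H.vtx_φ]
    exact hv
  have e1 := H.src_vtx _ _ hv
  have e2 := H.src_vtx _ _ hv'
  rw [src_α, l1.2] at e2
  refine H.req_par h2 g h ?_
  rw [l2.1, e1, e2]

/-- the same with a quadrangle in between; the quadrangle is the face of `α g`, the second triangle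
is the face of `α (φ² (α g))` -/
theorem no_Tc_Q0_Tc (h2 : H.TwoPlanar) (g : H.D) (h : H.Tc g) (h' : H.Q0 (H.α g))
    (h'' : H.Tc (H.α (H.φ (H.φ (H.α g))))) : False := by
  have s1 : H.φ.symm g = H.φ (H.φ g) := by
    rw [Equiv.symm_apply_eq]
    exact h.2.2.2.symm
  have s2 : H.φ.symm (H.α g) = H.φ (H.φ (H.φ (H.α g))) := by
    rw [Equiv.symm_apply_eq]
    exact h'.2.2.2.2.1.symm
  have s3 : H.φ.symm (H.φ (H.φ (H.α g))) = H.φ (H.α g) := Equiv.symm_apply_apply _ _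
  have s4 : H.φ.symm (H.α (H.φ (H.φ (H.α g)))) = H.φ (H.φ (H.α (H.φ (H.φ (H.α g))))) := by
    rw [Equiv.symm_apply_eq]
    exact h''.2.2.2.symm
  have l1 := H.lab g h.1
  have l2 := H.lab (H.α g) h'.1
  have l3 := H.lab _ h'.2.2.1
  have l4 := H.lab _ h''.1
  rw [αα] at l2 l4
  rw [s1] at l1
  rw [s2] at l2
  rw [s3] at l3
  rw [s4] at l4
  obtain ⟨v, hv⟩ := Option.ne_none_iff_exists'.1 h''.2.2.1
  have hv' : H.vtx (H.α (H.φ (H.α (H.φ (H.φ (H.α g)))))) = some v := by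
    rw [← H.vtx_φ]
    exact hv
  have e1 := H.src_vtx _ _ hv
  have e2 := H.src_vtx _ _ hv'
  rw [src_α, l3.2, l1.2] at e2
  refine H.req_par h2 g h ?_
  rw [l2.1, l4.1, e1, e2]

/-- a side of a quadrangle with four crossings: the direct request through it is that of a triangle
with one vertex, or zero -/
theorem r0_α_Q0 (h2 : H.TwoPlanar) (g : H.D) (h : H.Q0 g) :
    H.Tc (H.α g) ∨ H.r0 (H.α g) = 0 := by
  obtain ⟨f1, f2⟩ := H.flank h2 g (Or.inr (Or.inr h))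
  have c1 : H.C (H.α g) := by
    unfold C
    rw [← H.vtx_φ]
    exact h.2.1
  have c2 : H.C (H.φ (H.α g)) := by
    unfold C
    rw [H.vtx_φ_α]
    exact h.1
  by_cases ht : H.Tc (H.α g)
  · exact Or.inl ht
  · right
    unfold r0
    rw [if_neg, if_neg, if_neg ht, if_neg]
    · rintro (h' | h')
      · exact h'.1 c1
      · exact h'.2.1 c2
    · intro h'
      exact f2 h'.2.2.1
    · intro h'
      rw [h'.2.2] at f2
      exact f2 c1

/-! ### the requests to a face, sorted by sides -/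

theorem r_RR (d : H.D) (h : H.R d) (h' : H.R (H.φ d)) : H.r (H.α d) = 0 := by
  have c1 : H.R (H.α d) := by
    rw [R, ← H.vtx_φ]
    exact h'
  exact H.r_eq_zero (fun x => c1 x.1) (fun x => c1 x.1) (fun x => c1 x.1)
    (fun x => by
      have := x.2.1
      rw [C, H.vtx_φ_α] at this
      exact h this)
    (fun x => c1 x.1) (fun x => c1 x.1)

theorem r_RC (d : H.D) (h : H.R d) (h' : H.C (H.φ d)) : H.r (H.α d) ≤ 3 := by
  have c2 : H.R (H.φ (H.α d)) := by
    rw [R, H.vtx_φ_α]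
    exact h
  have c1 : H.C (H.α d) := by
    rw [C, ← H.vtx_φ]
    exact h'
  by_cases ht : H.Te (H.α d)
  · rw [H.r_Te ht]
  · rw [H.r_eq_zero (fun x => c2 x.2.1) (fun x => c2 x.2.1) (fun x => c2 x.2.1) (fun x => x.1 c1) ht
      (fun x => c2 x.2.1)]
    norm_num

/-- by `fl` -/
theorem r_RCC (h2 : H.TwoPlanar) (d : H.D) (h : H.R d) (h' : H.C (H.φ d))
    (h3 : H.C (H.φ (H.φ d))) : H.r (H.α d) = 0 := by
  have c2 : H.R (H.φ (H.α d)) := by
    rw [R, H.vtx_φ_α]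
    exact h
  have c1 : H.C (H.α d) := by
    rw [C, ← H.vtx_φ]
    exact h'
  have f := H.fl h2 d h' h3
  refine H.r_eq_zero (fun x => c2 x.2.1) (fun x => c2 x.2.1) (fun x => c2 x.2.1) (fun x => x.1 c1)
    (fun x => ?_) (fun x => c2 x.2.1)
  have e : H.φ.symm (H.α d) = H.φ (H.φ (H.α d)) := by
    rw [Equiv.symm_apply_eq]
    exact x.2.2.2.symm
  rw [e] at f
  exact f x.2.2.1

theorem r_CR (d : H.D) (h : H.C d) (h' : H.R (H.φ d)) : H.r (H.α d) ≤ 3 := by
  have c1 : H.R (H.α d) := by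
    rw [R, ← H.vtx_φ]
    exact h'
  by_cases ht : H.Ts (H.α d)
  · rw [H.r_Ts ht]
  · rw [H.r_eq_zero (fun x => c1 x.1) (fun x => c1 x.1) (fun x => c1 x.1) ht (fun x => c1 x.1)
      (fun x => c1 x.1)]
    norm_num

/-- by `fr` -/
theorem r_CCR (h2 : H.TwoPlanar) (d : H.D) (h : H.C d) (h' : H.R (H.φ d))
    (h3 : H.C (H.φ.symm d)) : H.r (H.α d) = 0 := by
  have c1 : H.R (H.α d) := by
    rw [R, ← H.vtx_φ]
    exact h'
  exact H.r_eq_zero (fun x => c1 x.1) (fun x => c1 x.1) (fun x => c1 x.1)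
    (fun x => H.fr h2 d h3 h x.2.2.1) (fun x => c1 x.1) (fun x => c1 x.1)

theorem r_CC (h2 : H.TwoPlanar) (d : H.D) (h : H.C d) (h' : H.C (H.φ d)) : H.r (H.α d) ≤ 30 := by
  have c2 : H.C (H.φ (H.α d)) := by
    rw [C, H.vtx_φ_α]
    exact h
  have c1 : H.C (H.α d) := by
    rw [C, ← H.vtx_φ]
    exact h'
  by_cases t1 : H.D0 (H.α d)
  · rw [H.r_D0 t1]
  by_cases t2 : H.T0 (H.α d)
  · rw [H.r_T0 t2]
    norm_num
  by_cases t3 : H.Tc (H.α d)
  · rw [H.r_Tc t3]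
    norm_num
  by_cases t4 : H.Q0 (H.α d)
  · rw [H.req_Q0 t4]
    rcases H.r0_α_Q0 h2 _ (Q0.next H (Q0.next H t4)) with t5 | t5
    · rw [H.r0_Tc t5]
      norm_num
    · rw [t5]
      norm_num
  · rw [H.r_eq_zero t1 t2 t3 (fun x => x.1 c1) (fun x => x.2.1 c2) t4]
    norm_num

/-- by `flank` -/
theorem r_CC6 (h2 : H.TwoPlanar) (d : H.D) (h : H.C d) (h' : H.C (H.φ d))
    (h3 : H.C (H.φ.symm d) ∨ H.C (H.φ (H.φ d))) : H.r (H.α d) ≤ 6 := by
  have c2 : H.C (H.φ (H.α d)) := by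
    rw [C, H.vtx_φ_α]
    exact h
  have c1 : H.C (H.α d) := by
    rw [C, ← H.vtx_φ]
    exact h'
  have key : ¬ (H.D0 (H.α d) ∨ H.T0 (H.α d) ∨ H.Q0 (H.α d)) := by
    intro hc
    obtain ⟨f1, f2⟩ := H.flank h2 _ hc
    rw [αα] at f1 f2
    exact h3.elim f1 f2
  push Not at key
  by_cases t3 : H.Tc (H.α d)
  · rw [H.r_Tc t3]
  · rw [H.r_eq_zero key.1 key.2.1 t3 (fun x => x.1 c1) (fun x => x.2.1 c2) key.2.2]
    norm_num

/-- the request from a face inside four crossings comes from a triangle with one vertex -/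
theorem Tc_of_r (h2 : H.TwoPlanar) (d : H.D) (h : H.C d) (h' : H.C (H.φ d))
    (h3 : H.C (H.φ.symm d) ∨ H.C (H.φ (H.φ d))) (hr : H.r (H.α d) = 6) : H.Tc (H.α d) := by
  have c2 : H.C (H.φ (H.α d)) := by
    rw [C, H.vtx_φ_α]
    exact h
  have c1 : H.C (H.α d) := by
    rw [C, ← H.vtx_φ]
    exact h'
  have key : ¬ (H.D0 (H.α d) ∨ H.T0 (H.α d) ∨ H.Q0 (H.α d)) := by
    intro hc
    obtain ⟨f1, f2⟩ := H.flank h2 _ hc
    rw [αα] at f1 f2
    exact h3.elim f1 f2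
  push Not at key
  by_contra t3
  rw [H.r_eq_zero key.1 key.2.1 t3 (fun x => x.1 c1) (fun x => x.2.1 c2) key.2.2] at hr
  norm_num at hr

theorem Ts_of_r (d : H.D) (h : H.C d) (h' : H.R (H.φ d)) (hr : H.r (H.α d) = 3) :
    H.Ts (H.α d) := by
  have c1 : H.R (H.α d) := by
    rw [R, ← H.vtx_φ]
    exact h'
  by_contra ht
  rw [H.r_eq_zero (fun x => c1 x.1) (fun x => c1 x.1) (fun x => c1 x.1) ht (fun x => c1 x.1)
    (fun x => c1 x.1)] at hr
  norm_num at hr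

theorem Te_of_r (d : H.D) (h : H.R d) (h' : H.C (H.φ d)) (hr : H.r (H.α d) = 3) :
    H.Te (H.α d) := by
  have c2 : H.R (H.φ (H.α d)) := by
    rw [R, H.vtx_φ_α]
    exact h
  have c1 : H.C (H.α d) := by
    rw [C, ← H.vtx_φ]
    exact h'
  by_contra ht
  rw [H.r_eq_zero (fun x => c2 x.2.1) (fun x => c2 x.2.1) (fun x => c2 x.2.1) (fun x => x.1 c1) ht
    (fun x => c2 x.2.1)] at hr
  norm_num at hr

/-! ### nothing is requested from the faces of small charge -/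

theorem r_α_D0 (h2 : H.TwoPlanar) (g : H.D) (h : H.D0 g) : H.r (H.α g) = 0 := by
  obtain ⟨f1, f2⟩ := H.flank h2 g (Or.inl h)
  have c1 : H.C (H.α g) := by
    rw [C, ← H.vtx_φ]
    exact h.2.1
  have c2 : H.C (H.φ (H.α g)) := by
    rw [C, H.vtx_φ_α]
    exact h.1
  exact H.r_eq_zero (fun x => f2 (by rw [x.2.2]; exact c1)) (fun x => f2 x.2.2.1)
    (fun x => H.no_D0_Tc g h x) (fun x => x.1 c1) (fun x => x.2.1 c2) (fun x => f2 x.2.2.1)

theorem r_α_T0 (hG : H.Good) (h2 : H.TwoPlanar) (g : H.D) (h : H.T0 g) : H.r (H.α g) = 0 := by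
  obtain ⟨f1, f2⟩ := H.flank h2 g (Or.inr (Or.inl h))
  have c1 : H.C (H.α g) := by
    rw [C, ← H.vtx_φ]
    exact h.2.1
  have c2 : H.C (H.φ (H.α g)) := by
    rw [C, H.vtx_φ_α]
    exact h.1
  exact H.r_eq_zero (fun x => f2 (by rw [x.2.2]; exact c1)) (fun x => f2 x.2.2.1)
    (fun x => hG.2 g h x) (fun x => x.1 c1) (fun x => x.2.1 c2) (fun x => f2 x.2.2.1)

/-- Requests `30` (`no_D0_Tc`), `10` (`Good`), `6` (`no_Tc_Tc`, `no_Tc_Q0_Tc`) are impossible. -/
theorem r_α_Tc (hG : H.Good) (h2 : H.TwoPlanar) (g : H.D) (h : H.Tc g) : H.r (H.α g) = 0 := by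
  have c1 : H.C (H.α g) := by
    rw [C, ← H.vtx_φ]
    exact h.2.1
  have c2 : H.C (H.φ (H.α g)) := by
    rw [C, H.vtx_φ_α]
    exact h.1
  by_cases t4 : H.Q0 (H.α g)
  · rw [H.req_Q0 t4]
    rcases H.r0_α_Q0 h2 _ (Q0.next H (Q0.next H t4)) with t5 | t5
    · exact (H.no_Tc_Q0_Tc h2 g h t4 t5).elim
    · exact t5
  · exact H.r_eq_zero (fun x => H.no_D0_Tc (H.α g) x (by rw [αα]; exact h))
      (fun x => hG.2 _ x (by rw [αα]; exact h)) (fun x => H.no_Tc_Tc h2 g h x)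
      (fun x => x.1 c1) (fun x => x.2.1 c2) t4

/-- what a quadrangle requests through `g` is what is requested from it on the opposite side -/
theorem r_Q0 (h2 : H.TwoPlanar) (g : H.D) (h : H.Q0 g) :
    H.r g = H.r (H.α (H.φ (H.φ g))) := by
  have h' := Q0.next H (Q0.next H h)
  obtain ⟨f1, f2⟩ := H.flank h2 _ (Or.inr (Or.inr h'))
  rw [H.req_Q0 h, r, if_neg (fun x => f2 x.2.2.1), add_zero]

end Drawing

end TwoPl
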