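import Pool.Agent.H99.TP.Defs

/-!
# SMO: smoothing a crossing of a combinatorial map

The four darts `S = {a, σ a, σ² a, σ³ a}` at a point of degree four are removed. The segments of `a` and
`σ³ a` are joined, and the segments of `σ a` and `σ² a`: the new reversal maps `α a` to `α (σ³ a)` and
`α (σ a)` to `α (σ² a)`.
-/

namespace TwoPl

open Equiv Function

variable {D : Type} [DecidableEq D]

/-- the four darts at the point of `a` -/
def sS (σ : Perm D) (a : D) : Finset D := {a, σ a, σ (σ a), σ (σ (σ a))}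

structure Smo (σ α : Perm D) (a : D) : Prop where
  αα : ∀ d, α (α d) = d
  four : σ (σ (σ (σ a))) = a
  n1 : σ a ≠ a
  n2 : σ (σ a) ≠ a
  out : ∀ s ∈ sS σ a, α s ∉ sS σ a

/-- `a ↔ σ³ a`, `σ a ↔ σ² a` -/
def sρ (σ : Perm D) (a y : D) : D :=
  if y = a then σ (σ (σ a)) else if y = σ (σ (σ a)) then a else
    if y = σ a then σ (σ a) else if y = σ (σ a) then σ a else y

theorem mem_sS {σ : Perm D} {a y : D} :
    y ∈ sS σ a ↔ y = a ∨ y = σ a ∨ y = σ (σ a) ∨ y = σ (σ (σ a)) := by
  simp [sS]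

theorem smo_three {σ α : Perm D} {a : D} (h : Smo σ α a) : σ (σ (σ a)) ≠ a := by
  intro h'
  have h1 := h.four
  rw [h'] at h1
  exact h.n1 h1

theorem smo_ρ1 (σ : Perm D) (a : D) : sρ σ a a = σ (σ (σ a)) := by
  unfold sρ
  rw [if_pos rfl]

theorem smo_ρ2 {σ α : Perm D} {a : D} (h : Smo σ α a) : sρ σ a (σ a) = σ (σ a) := by
  unfold sρ
  rw [if_neg h.n1, if_neg, if_pos rfl]
  intro h'
  exact h.n2 (σ.injective h').symm

theorem smo_ρ3 {σ α : Perm D} {a : D} (h : Smo σ α a) : sρ σ a (σ (σ a)) = σ a := by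
  unfold sρ
  rw [if_neg h.n2, if_neg, if_neg, if_pos rfl]
  · intro h'
    exact h.n1 (σ.injective h')
  · intro h'
    exact h.n1 (σ.injective (σ.injective h')).symm

theorem smo_ρ4 {σ α : Perm D} {a : D} (h : Smo σ α a) : sρ σ a (σ (σ (σ a))) = a := by
  unfold sρ
  rw [if_neg (smo_three h), if_pos rfl]

theorem sS_card {σ α : Perm D} {a : D} (h : Smo σ α a) : (sS σ a).card = 4 := by
  have n3 := smo_three h
  have n1 := h.n1
  have n2 := h.n2
  have e1 : a ∉ ({σ a, σ (σ a), σ (σ (σ a))} : Finset D) := by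
    simp only [Finset.mem_insert, Finset.mem_singleton, not_or]
    exact ⟨n1.symm, n2.symm, n3.symm⟩
  have e2 : σ a ∉ ({σ (σ a), σ (σ (σ a))} : Finset D) := by
    simp only [Finset.mem_insert, Finset.mem_singleton, not_or]
    exact ⟨fun h' => n1 (σ.injective h').symm, fun h' => n2 (σ.injective h').symm⟩
  have e3 : σ (σ a) ∉ ({σ (σ (σ a))} : Finset D) := by
    rw [Finset.mem_singleton]
    exact fun h' => n1 (σ.injective (σ.injective h')).symm
  unfold sS
  rw [Finset.card_insert_of_notMem e1, Finset.card_insert_of_notMem e2,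
    Finset.card_insert_of_notMem e3, Finset.card_singleton]

/-- the point of `a` is a cycle of `σ` -/
theorem sS_σ {σ α : Perm D} {a : D} (h : Smo σ α a) (y : D) : σ y ∈ sS σ a ↔ y ∈ sS σ a := by
  rw [mem_sS, mem_sS]
  constructor
  · rintro (h' | h' | h' | h')
    · right; right; right
      rw [← h.four] at h'
      exact σ.injective h'
    · exact Or.inl (σ.injective h')
    · exact Or.inr (Or.inl (σ.injective h'))
    · exact Or.inr (Or.inr (Or.inl (σ.injective h')))
  · rintro (rfl | rfl | rfl | rfl)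
    · exact Or.inr (Or.inl rfl)
    · exact Or.inr (Or.inr (Or.inl rfl))
    · exact Or.inr (Or.inr (Or.inr rfl))
    · exact Or.inl h.four

theorem sρ_mem {σ α : Perm D} {a y : D} (h : Smo σ α a) (hy : y ∈ sS σ a) :
    sρ σ a y ∈ sS σ a := by
  rw [mem_sS] at hy ⊢
  rcases hy with rfl | rfl | rfl | rfl
  · rw [smo_ρ1]
    exact Or.inr (Or.inr (Or.inr rfl))
  · rw [smo_ρ2 h]
    exact Or.inr (Or.inr (Or.inl rfl))
  · rw [smo_ρ3 h]
    exact Or.inr (Or.inl rfl)
  · rw [smo_ρ4 h]
    exact Or.inl rfl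

theorem sρ_sρ {σ α : Perm D} {a y : D} (h : Smo σ α a) : sρ σ a (sρ σ a y) = y := by
  by_cases hy : y ∈ sS σ a
  · rcases mem_sS.1 hy with rfl | rfl | rfl | rfl
    · rw [smo_ρ1, smo_ρ4 h]
    · rw [smo_ρ2 h, smo_ρ3 h]
    · rw [smo_ρ3 h, smo_ρ2 h]
    · rw [smo_ρ4 h, smo_ρ1]
  · rw [mem_sS] at hy
    push Not at hy
    have e : sρ σ a y = y := by
      unfold sρ
      rw [if_neg hy.1, if_neg hy.2.2.2, if_neg hy.2.1, if_neg hy.2.2.1]
    rw [e, e]

/-- the new set of darts -/
abbrev sD (σ : Perm D) (a : D) : Type := {y : D // y ∉ sS σ a}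

/-- the new rotation -/
def sσ {σ α : Perm D} {a : D} (h : Smo σ α a) : Perm (sD σ a) :=
  σ.subtypePerm (fun y => not_congr (sS_σ h y))

/-- the new reversal, as a function -/
def sαf (σ α : Perm D) (a y : D) : D := if α y ∈ sS σ a then α (sρ σ a (α y)) else α y

theorem sαf_mem {σ α : Perm D} {a : D} (h : Smo σ α a) (y : D) (hy : y ∉ sS σ a) :
    sαf σ α a y ∉ sS σ a := by
  unfold sαf
  split_ifs with h1
  · exact h.out _ (sρ_mem h h1)
  · exact h1

theorem sαf_sαf {σ α : Perm D} {a : D} (h : Smo σ α a) (y : sD σ a) :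
    sαf σ α a (sαf σ α a y) = y := by
  unfold sαf
  by_cases h1 : α (y : D) ∈ sS σ a
  · rw [if_pos h1, h.αα, if_pos (sρ_mem h h1), sρ_sρ h, h.αα]
  · rw [if_neg h1, h.αα]
    rw [if_neg y.2]

/-- the new reversal -/
def sα {σ α : Perm D} {a : D} (h : Smo σ α a) : Perm (sD σ a) where
  toFun y := ⟨sαf σ α a y, sαf_mem h y y.2⟩
  invFun y := ⟨sαf σ α a y, sαf_mem h y y.2⟩
  left_inv y := Subtype.ext (sαf_sαf h y)
  right_inv y := Subtype.ext (sαf_sαf h y)

theorem sσ_coe {σ α : Perm D} {a : D} (h : Smo σ α a) (y : sD σ a) :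
    (sσ h y : D) = σ y := rfl

theorem sα_coe {σ α : Perm D} {a : D} (h : Smo σ α a) (y : sD σ a) :
    (sα h y : D) = sαf σ α a y := rfl

theorem card_sD [Fintype D] {σ α : Perm D} {a : D} (h : Smo σ α a) :
    Fintype.card D = Fintype.card (sD σ a) + 4 := by
  have h2 : Fintype.card {y // y ∈ sS σ a} = 4 := by
    rw [Fintype.card_coe, sS_card h]
  have h3 := Fintype.card_subtype_le (fun y => y ∈ sS σ a)
  have h1 : Fintype.card (sD σ a) = Fintype.card D - Fintype.card {y // y ∈ sS σ a} :=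
    Fintype.card_subtype_compl (fun y => y ∈ sS σ a)
  rw [h2] at h1 h3
  omega

/-- Points: the cycle `S` has disappeared. -/
theorem ncyc_σ [Fintype D] {σ α : Perm D} {a : D} (h : Smo σ α a) :
    ncyc σ ≤ ncyc (sσ h) + 1 := by
  classical
  unfold ncyc
  let m : D → Quotient (Equiv.Perm.SameCycle.setoid σ) := Quotient.mk _
  have mσ : ∀ y, m (σ y) = m y := by
    intro y
    refine (Quotient.sound ?_).symm
    show σ.SameCycle y (σ y)
    exact ⟨1, by rw [zpow_one]⟩
  have steps : ∀ (n : ℕ) (y : sD σ a), m (((sσ h) ^ n) y : D) = m (y : D) := by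
    intro n
    induction n with
    | zero => intro y; rfl
    | succ n ih =>
      intro y
      rw [pow_succ, Perm.mul_apply, ih]
      exact mσ y
  let F : Quotient (Equiv.Perm.SameCycle.setoid (sσ h)) → Quotient (Equiv.Perm.SameCycle.setoid σ) :=
    Quotient.lift (fun y : sD σ a => m (y : D)) (by
      intro y y' hyy
      have h1 : (sσ h).SameCycle y y' := hyy
      obtain ⟨n, hn⟩ := h1.exists_nat_pow_eq
      rw [← hn]
      exact (steps n y).symm)
  let G : Option (Quotient (Equiv.Perm.SameCycle.setoid (sσ h))) →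
      Quotient (Equiv.Perm.SameCycle.setoid σ) := fun o => o.elim (m a) F
  have hG : Surjective G := by
    intro q
    obtain ⟨z, rfl⟩ := Quotient.exists_rep q
    by_cases hz : z ∈ sS σ a
    · refine ⟨none, ?_⟩
      show m a = m z
      rcases mem_sS.1 hz with rfl | rfl | rfl | rfl
      · rfl
      · rw [mσ]
      · rw [mσ, mσ]
      · rw [mσ, mσ, mσ]
    · exact ⟨some (Quotient.mk _ ⟨z, hz⟩), rfl⟩
  have h1 := Nat.card_le_card_of_surjective G hG
  rw [Finite.card_option] at h1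
  exact h1

end TwoPl
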