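import Pool.Agent.H99.TP.Smo

/-!
# SMOF: faces after smoothing
-/

namespace TwoPl

open Equiv Function

variable {D : Type} [DecidableEq D]

theorem smoF_three {σ α : Perm D} {a : D} (h : Smo σ α a) : σ (σ (σ a)) ≠ a := by
  intro h'
  have h1 := h.four
  rw [h'] at h1
  exact h.n1 h1

theorem smoF_ρ1 (σ : Perm D) (a : D) : sρ σ a a = σ (σ (σ a)) := by
  unfold sρ
  rw [if_pos rfl]

theorem smoF_ρ2 {σ α : Perm D} {a : D} (h : Smo σ α a) : sρ σ a (σ a) = σ (σ a) := by
  unfold sρ
  rw [if_neg h.n1, if_neg, if_pos rfl]
  intro h'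
  exact h.n2 (σ.injective h').symm

theorem smoF_ρ3 {σ α : Perm D} {a : D} (h : Smo σ α a) : sρ σ a (σ (σ a)) = σ a := by
  unfold sρ
  rw [if_neg h.n2, if_neg, if_neg, if_pos rfl]
  · intro h'
    exact h.n1 (σ.injective h')
  · intro h'
    exact h.n1 (σ.injective (σ.injective h')).symm

theorem smoF_ρ4 {σ α : Perm D} {a : D} (h : Smo σ α a) : sρ σ a (σ (σ (σ a))) = a := by
  unfold sρ
  rw [if_neg (smoF_three h), if_pos rfl]

omit [DecidableEq D] in
theorem smoF_mk {f : Perm D} {x y : D} (h : f x = y) :
    (Quotient.mk (Equiv.Perm.SameCycle.setoid f) x) = Quotient.mk _ y := by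
  refine Quotient.sound ?_
  show f.SameCycle x y
  exact ⟨1, by rw [zpow_one]; exact h⟩

/-- Faces. Let `y ≈ y'` for `y, y'` outside `S` if they are in one cycle of `φ = σ α` or one is in the
cycle of `α a` and the other in the cycle of `α (σ² a)`. One step of the new face permutation leads
to an equivalent dart: it skips the darts of `S` (`φ (α s) = σ s`), except that it maps `α a` to
`φ (σ³ a)` and `α (σ² a)` to `φ (σ a)`. So the new cycles map onto the classes of `≈` (every cycle of
`φ` contains darts outside `S`), and the number of classes is at least `ncyc φ - 1`. -/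
theorem ncyc_φ [Fintype D] {σ α : Perm D} {a : D} (h : Smo σ α a) :
    ncyc (σ * α) ≤ ncyc (sσ h * sα h) + 1 := by
  classical
  unfold ncyc
  set φ : Perm D := σ * α with hφ
  set φ' : Perm (sD σ a) := sσ h * sα h with hφ'
  have φα : ∀ d, φ (α d) = σ d := fun d => by
    show σ (α (α d)) = σ d
    rw [h.αα]
  let m : D → Quotient (Equiv.Perm.SameCycle.setoid φ) := Quotient.mk _
  have mφ : ∀ d, m (φ d) = m d := fun d => (smoF_mk rfl).symm
  have mα : ∀ d, m (σ d) = m (α d) := fun d => by rw [← φα d, mφ]
  let κ : Quotient (Equiv.Perm.SameCycle.setoid φ) → Quotient (Equiv.Perm.SameCycle.setoid φ) :=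
    fun q => if q = m (α (σ (σ a))) then m (α a) else q
  have κA : κ (m (α a)) = m (α a) := by
    show (if _ then _ else _) = _
    split_ifs <;> rfl
  have κC : κ (m (α (σ (σ a)))) = m (α a) := by
    show (if _ then _ else _) = _
    rw [if_pos rfl]
  have step : ∀ y : sD σ a, κ (m (φ' y : D)) = κ (m (y : D)) := by
    intro y
    have e0 : (φ' y : D) = σ (sαf σ α a y) := rfl
    rw [e0]
    by_cases hy : α (y : D) ∈ sS σ a
    · have e1 : sαf σ α a y = α (sρ σ a (α y)) := by
        unfold sαf
        rw [if_pos hy]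
      rw [e1]
      rcases mem_sS.1 hy with h1 | h1 | h1 | h1
      · have hy' : (y : D) = α a := by
          have h0 := congrArg α h1
          rw [h.αα] at h0
          exact h0
        rw [h1, smoF_ρ1, hy']
        have e2 : m (σ (α (σ (σ (σ a))))) = m (α (σ (σ a))) := by
          have : σ (α (σ (σ (σ a)))) = φ (σ (σ (σ a))) := rfl
          rw [this, mφ, mα]
        rw [e2, κC, κA]
      · have hy' : (y : D) = α (σ a) := by
          have h0 := congrArg α h1
          rw [h.αα] at h0
          exact h0
        rw [h1, smoF_ρ2 h, hy']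
        have e2 : m (σ (α (σ (σ a)))) = m (α (σ a)) := by
          have : σ (α (σ (σ a))) = φ (σ (σ a)) := rfl
          rw [this, mφ, mα]
        rw [e2]
      · have hy' : (y : D) = α (σ (σ a)) := by
          have h0 := congrArg α h1
          rw [h.αα] at h0
          exact h0
        rw [h1, smoF_ρ3 h, hy']
        have e2 : m (σ (α (σ a))) = m (α a) := by
          have : σ (α (σ a)) = φ (σ a) := rfl
          rw [this, mφ, mα]
        rw [e2, κC, κA]
      · have hy' : (y : D) = α (σ (σ (σ a))) := by
          have h0 := congrArg α h1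
          rw [h.αα] at h0
          exact h0
        rw [h1, smoF_ρ4 h, hy']
        have e2 : m (σ (α a)) = m (α (σ (σ (σ a)))) := by
          have : σ (α a) = φ a := rfl
          rw [this, mφ, ← mα, h.four]
        rw [e2]
    · have e1 : sαf σ α a y = α y := by
        unfold sαf
        rw [if_neg hy]
      rw [e1]
      have : σ (α (y : D)) = φ y := rfl
      rw [this, mφ]
  have steps : ∀ (n : ℕ) (y : sD σ a), κ (m ((φ' ^ n) y : D)) = κ (m (y : D)) := by
    intro n
    induction n with
    | zero => intro y; rfl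
    | succ n ih =>
      intro y
      rw [pow_succ, Perm.mul_apply, ih, step]
  let F : Quotient (Equiv.Perm.SameCycle.setoid φ') → Quotient (Equiv.Perm.SameCycle.setoid φ) :=
    Quotient.lift (fun y : sD σ a => κ (m (y : D))) (by
      intro y y' hyy
      have h1 : φ'.SameCycle y y' := hyy
      obtain ⟨n, hn⟩ := h1.exists_nat_pow_eq
      rw [← hn]
      exact (steps n y).symm)
  let G : Option (Quotient (Equiv.Perm.SameCycle.setoid φ')) →
      Quotient (Equiv.Perm.SameCycle.setoid φ) := fun o => o.elim (m (α (σ (σ a)))) F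
  have hG : Surjective G := by
    intro q
    by_cases hq : q = m (α (σ (σ a)))
    · exact ⟨none, hq.symm⟩
    · obtain ⟨z, rfl⟩ := Quotient.exists_rep q
      have hz : ∃ y : sD σ a, m (y : D) = m z := by
        by_cases hS : z ∈ sS σ a
        · have h1 : σ.symm z ∈ sS σ a := by
            rw [← sS_σ h, Equiv.apply_symm_apply]
            exact hS
          refine ⟨⟨α (σ.symm z), h.out _ h1⟩, ?_⟩
          show m (α (σ.symm z)) = m z
          rw [← mα, Equiv.apply_symm_apply]
        · exact ⟨⟨z, hS⟩, rfl⟩
      obtain ⟨y, hy⟩ := hz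
      refine ⟨some (Quotient.mk _ y), ?_⟩
      show κ (m (y : D)) = m z
      rw [hy]
      show (if _ then _ else _) = _
      rw [if_neg hq]
  have h1 := Nat.card_le_card_of_surjective G hG
  rw [Finite.card_option] at h1
  exact h1

end TwoPl
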