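import Pool.Agent.H99.TP.Face

/-!
# TIG: the cell structure of drawings in which all faces have weight exactly 120
-/

namespace TwoPl

open Equiv Function

namespace Drawing

variable {V : Type} {G : SimpleGraph V} (H : Drawing G)

/-- All faces are triangles with one vertex (`T1`), triangles with two vertices (`T2`) or pentagons
with five crossings (`P0`); `T1` borders on `P0` and on two `T2`, and so on. -/
structure Tight : Prop where
  rr : ∀ d, H.R d → H.R (H.φ d) → H.C (H.φ (H.φ d)) ∧ H.φ (H.φ (H.φ d)) = d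
  rc : ∀ d, H.R d → H.C (H.φ d) → H.φ (H.φ (H.φ d)) = d
  cr : ∀ d, H.C d → H.R (H.φ d) → H.φ (H.φ (H.φ d)) = d
  /-- the side of `T2` to the crossing borders on `T1` -/
  t2 : ∀ d, H.R d → H.C (H.φ d) → H.R (H.φ (H.φ d)) → H.C (H.φ (H.φ (H.α d)))
  t2' : ∀ d, H.C d → H.R (H.φ d) → H.R (H.φ (H.φ d)) → H.C (H.φ (H.φ (H.α d)))
  /-- the side between the crossings of `T1` borders on `P0` -/
  cc3 : ∀ d, H.C d → H.C (H.φ d) → H.R (H.φ (H.φ d)) →
    H.φ (H.φ (H.φ d)) = d ∧ H.C (H.φ (H.φ (H.α d)))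
  /-- `P0` borders on `T1` -/
  cc5 : ∀ d, H.C d → H.C (H.φ d) → H.C (H.φ (H.φ d)) →
    H.φ (H.φ (H.φ (H.φ (H.φ d)))) = d ∧ H.C (H.φ (H.φ (H.φ d))) ∧
      H.C (H.φ (H.φ (H.φ (H.φ d)))) ∧ H.R (H.φ (H.φ (H.α d)))

/-- a face with a side whose both neighbours are vertices (both corners of the side being
crossings) and which is not a triangle is not of type `Ty` -/
theorem no_D0 (h2 : H.TwoPlanar) (hT : ∀ d, H.Ty d) (g : H.D) : ¬ H.D0 g := by
  intro h
  obtain ⟨f1, f2⟩ := H.flank h2 g (Or.inl h)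
  have c1 : H.C (H.α g) := by
    rw [C, ← H.vtx_φ]
    exact h.2.1
  have c2 : H.C (H.φ (H.α g)) := by
    rw [C, H.vtx_φ_α]
    exact h.1
  rcases hT (H.α g) with x | x | x | x | x | x | x | x | x | x
  · exact f2 (by rw [x.2.2]; exact c1)
  · exact f2 x.2.2.1
  · exact H.no_D0_Tc g h x
  · exact x.1 c1
  · exact x.2.1 c2
  · exact f2 x.2.2.1
  · exact f2 x.2.2.1
  · exact x.1 c1
  · exact x.1 c1
  · exact x.2.1 c2

/-- by `flank` the neighbour is `Tc`, excluded by `Good` -/
theorem no_T0 (hG : H.Good) (h2 : H.TwoPlanar) (hT : ∀ d, H.Ty d) (g : H.D) : ¬ H.T0 g := by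
  intro h
  obtain ⟨f1, f2⟩ := H.flank h2 g (Or.inr (Or.inl h))
  have c1 : H.C (H.α g) := by
    rw [C, ← H.vtx_φ]
    exact h.2.1
  have c2 : H.C (H.φ (H.α g)) := by
    rw [C, H.vtx_φ_α]
    exact h.1
  rcases hT (H.α g) with x | x | x | x | x | x | x | x | x | x
  · exact f2 (by rw [x.2.2]; exact c1)
  · exact f2 x.2.2.1
  · exact hG.2 g h x
  · exact x.1 c1
  · exact x.2.1 c2
  · exact f2 x.2.2.1
  · exact f2 x.2.2.1
  · exact x.1 c1
  · exact x.1 c1
  · exact x.2.1 c2

/-- by `flank` all neighbours are `Tc`; opposite ones are excluded by `no_Tc_Q0_Tc` -/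
theorem no_Q0 (h2 : H.TwoPlanar) (hT : ∀ d, H.Ty d) (g : H.D) : ¬ H.Q0 g := by
  have key : ∀ g, H.Q0 g → H.Tc (H.α g) := by
    intro g h
    obtain ⟨f1, f2⟩ := H.flank h2 g (Or.inr (Or.inr h))
    have c1 : H.C (H.α g) := by
      rw [C, ← H.vtx_φ]
      exact h.2.1
    have c2 : H.C (H.φ (H.α g)) := by
      rw [C, H.vtx_φ_α]
      exact h.1
    rcases hT (H.α g) with x | x | x | x | x | x | x | x | x | x
    · exact (f2 (by rw [x.2.2]; exact c1)).elim
    · exact (f2 x.2.2.1).elim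
    · exact x
    · exact (x.1 c1).elim
    · exact (x.2.1 c2).elim
    · exact (f2 x.2.2.1).elim
    · exact (f2 x.2.2.1).elim
    · exact (x.1 c1).elim
    · exact (x.1 c1).elim
    · exact (x.2.1 c2).elim
  intro h
  exact H.no_Tc_Q0_Tc h2 (H.α g) (key g h) (by rw [αα]; exact h)
    (by rw [αα]; exact key _ (Q0.next H (Q0.next H h)))

theorem tight_of_ty (hG : H.Good) (h2 : H.TwoPlanar) (hT : ∀ d, H.Ty d) : H.Tight := by
  have n0 := H.no_D0 h2 hT
  have n1 := H.no_T0 hG h2 hT
  have n2 := H.no_Q0 h2 hT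
  refine ⟨?_, ?_, ?_, ?_, ?_, ?_, ?_⟩
  · intro d r1 r2
    rcases hT d with x | x | x | x | x | x | x | x | x | x
    · exact (r1 x.1).elim
    · exact (r1 x.1).elim
    · exact (r1 x.1).elim
    · exact (r2 x.2.1).elim
    · exact (r1 x.1).elim
    · exact (r1 x.1).elim
    · exact (r1 x.1).elim
    · exact ⟨x.2.2.1, x.2.2.2⟩
    · exact (r2 x.2.1).elim
    · exact (r1 x.1).elim
  · intro d r1 c2
    rcases hT d with x | x | x | x | x | x | x | x | x | x
    · exact (r1 x.1).elim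
    · exact (r1 x.1).elim
    · exact (r1 x.1).elim
    · exact x.2.2.2
    · exact (r1 x.1).elim
    · exact (r1 x.1).elim
    · exact (r1 x.1).elim
    · exact (x.2.1 c2).elim
    · exact x.2.2.2.1
    · exact (r1 x.1).elim
  · intro d c1 r2
    rcases hT d with x | x | x | x | x | x | x | x | x | x
    · exact (r2 x.2.1).elim
    · exact (r2 x.2.1).elim
    · exact (r2 x.2.1).elim
    · exact (x.1 c1).elim
    · exact x.2.2.2
    · exact (r2 x.2.1).elim
    · exact (r2 x.2.1).elim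
    · exact (x.1 c1).elim
    · exact (x.1 c1).elim
    · exact x.2.2.2.1
  · intro d r1 c2 r3
    rcases hT d with x | x | x | x | x | x | x | x | x | x
    · exact (r1 x.1).elim
    · exact (r1 x.1).elim
    · exact (r1 x.1).elim
    · exact (r3 x.2.2.1).elim
    · exact (r1 x.1).elim
    · exact (r1 x.1).elim
    · exact (r1 x.1).elim
    · exact (x.2.1 c2).elim
    · exact x.2.2.2.2.2.2.1
    · exact (r1 x.1).elim
  · intro d c1 r2 r3
    rcases hT d with x | x | x | x | x | x | x | x | x | x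
    · exact (r2 x.2.1).elim
    · exact (r2 x.2.1).elim
    · exact (r2 x.2.1).elim
    · exact (x.1 c1).elim
    · exact (r3 x.2.2.1).elim
    · exact (r2 x.2.1).elim
    · exact (r2 x.2.1).elim
    · exact (x.1 c1).elim
    · exact (x.1 c1).elim
    · exact x.2.2.2.2.2.2.1
  · intro d c1 c2 r3
    have ht : H.Tc d := by
      rcases hT d with x | x | x | x | x | x | x | x | x | x
      · exact (r3 (by rw [x.2.2]; exact c1)).elim
      · exact (r3 x.2.2.1).elim
      · exact x
      · exact (x.1 c1).elim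
      · exact (x.2.1 c2).elim
      · exact (r3 x.2.2.1).elim
      · exact (r3 x.2.2.1).elim
      · exact (x.1 c1).elim
      · exact (x.1 c1).elim
      · exact (x.2.1 c2).elim
    refine ⟨ht.2.2.2, ?_⟩
    have c3 : H.C (H.α d) := by
      rw [C, ← H.vtx_φ]
      exact c2
    have c4 : H.C (H.φ (H.α d)) := by
      rw [C, H.vtx_φ_α]
      exact c1
    rcases hT (H.α d) with x | x | x | x | x | x | x | x | x | x
    · exact (n0 _ x).elim
    · exact (n1 _ x).elim
    · exact (H.no_Tc_Tc h2 d ht x).elim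
    · exact (x.1 c3).elim
    · exact (x.2.1 c4).elim
    · exact x.2.2.1
    · exact x.2.2.1
    · exact (x.1 c3).elim
    · exact (x.1 c3).elim
    · exact (x.2.1 c4).elim
  · intro d c1 c2 c3
    rcases hT d with x | x | x | x | x | x | x | x | x | x
    · exact (n0 _ x).elim
    · exact (n1 _ x).elim
    · exact (x.2.2.1 c3).elim
    · exact (x.1 c1).elim
    · exact (x.2.1 c2).elim
    · exact (n2 _ x).elim
    · exact ⟨x.2.2.2.2.2.1, x.2.2.2.1, x.2.2.2.2.1, x.2.2.2.2.2.2.2.2.1⟩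
    · exact (x.1 c1).elim
    · exact (x.1 c1).elim
    · exact (x.2.1 c2).elim

end Drawing

end TwoPl
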